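import Pool.Agent.Lib.MP_7ed551_gt.Cy.N.Wn1

/-! Making the form closed on the core. -/

open scoped ContDiff Topology
open Set Filter Metric MeasureTheory Real

noncomputable section

namespace Pool.Agent.Lib.MP_7ed551_gt.Cy

open Pool.Agent.Lib.MP_ccffa6_gt (Form1 dF pb px py JHol dens)

variable {S Ω : Set ℂ} {P Q : ℂ → ℝ} {z1 z2 : ℂ → ℂ} {N c a A : ℝ} {k : ℤ × ℤ}

theorem mass_logd {Ω : Set ℂ} {z : ℂ → ℂ} (hz : HolN Ω z) :
    ContDiffOn ℝ ∞ (fun ζ => deriv z ζ / z ζ) Ω :=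
  (hz.logd.contDiffOn hz.op).restrict_scalars ℝ

theorem mass_re {Ω : Set ℂ} {z : ℂ → ℂ} (hz : HolN Ω z) :
    ContDiffOn ℝ ∞ (fun ζ => (deriv z ζ / z ζ).re) Ω :=
  Complex.reCLM.contDiff.comp_contDiffOn (mass_logd hz)

theorem mass_im {Ω : Set ℂ} {z : ℂ → ℂ} (hz : HolN Ω z) :
    ContDiffOn ℝ ∞ (fun ζ => (deriv z ζ / z ζ).im) Ω :=
  Complex.imCLM.contDiff.comp_contDiffOn (mass_logd hz)

theorem mass_diff {Ω : Set ℂ} (hΩ : IsOpen Ω) {φ : ℂ → ℝ} (hφ : ContDiffOn ℝ ∞ φ Ω) {ζ : ℂ}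
    (hζ : ζ ∈ Ω) : DifferentiableAt ℝ φ ζ :=
  (hφ.contDiffAt (hΩ.mem_nhds hζ)).differentiableAt (by simp)

theorem mass_gr_re (φ : ℂ → ℝ) (ζ w : ℂ) :
    (gr φ ζ * w).re = fderiv ℝ φ ζ 1 * w.re - fderiv ℝ φ ζ Complex.I * w.im := by
  simp [gr, px, py]

/- For `φ` smooth on `Ω`: the exterior derivative of `φ d arg z` is `dφ ∧ d arg z`. -/
theorem curl_mul {Ω : Set ℂ} {z : ℂ → ℂ} (hz : HolN Ω z) {φ : ℂ → ℝ} (hφ : ContDiffOn ℝ ∞ φ Ω)
    {ζ : ℂ} (hζ : ζ ∈ Ω) :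
    px (fun ζ => φ ζ * (deriv z ζ / z ζ).re) ζ - py (fun ζ => φ ζ * (deriv z ζ / z ζ).im) ζ =
      (gr φ ζ * (deriv z ζ / z ζ)).re := by
  have hw : HasDerivAt (fun ζ => deriv z ζ / z ζ) (deriv (fun ζ => deriv z ζ / z ζ) ζ) ζ :=
    (hz.logd.differentiableAt (hz.op.mem_nhds hζ)).hasDerivAt
  have hw' := hw.hasFDerivAt.restrictScalars ℝ
  have hd := (mass_diff hz.op hφ hζ).hasFDerivAt
  have h1 := (hd.fun_mul (Complex.reCLM.hasFDerivAt.comp ζ hw')).fderiv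
  have h2 := (hd.fun_mul (Complex.imCLM.hasFDerivAt.comp ζ hw')).fderiv
  simp only [Function.comp_apply, Complex.reCLM_apply, Complex.imCLM_apply] at h1 h2
  rw [mass_gr_re, px, py, h1, h2]
  simp
  ring

/-- The curl of a sum of two terms. -/
theorem mass_curl2 (h1 : HolN Ω z1) (h2 : HolN Ω z2) {φ1 φ2 : ℂ → ℝ} (s1 : ContDiffOn ℝ ∞ φ1 Ω)
    (s2 : ContDiffOn ℝ ∞ φ2 Ω) {ζ : ℂ} (hζ : ζ ∈ Ω) :
    px (fun ζ => φ1 ζ * (deriv z1 ζ / z1 ζ).re + φ2 ζ * (deriv z2 ζ / z2 ζ).re) ζ -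
      py (fun ζ => φ1 ζ * (deriv z1 ζ / z1 ζ).im + φ2 ζ * (deriv z2 ζ / z2 ζ).im) ζ =
      (gr φ1 ζ * (deriv z1 ζ / z1 ζ)).re + (gr φ2 ζ * (deriv z2 ζ / z2 ζ)).re := by
  rw [← curl_mul h1 s1 hζ, ← curl_mul h2 s2 hζ]
  simp only [px, py]
  rw [fderiv_fun_add (mass_diff h1.op (s1.mul (mass_re h1)) hζ)
      (mass_diff h1.op (s2.mul (mass_re h2)) hζ),
    fderiv_fun_add (mass_diff h1.op (s1.mul (mass_im h1)) hζ)
      (mass_diff h1.op (s2.mul (mass_im h2)) hζ)]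
  simp only [ContinuousLinearMap.add_apply]
  ring

theorem mass_gr_aff {z : ℂ → ℂ} (hz : HolN Ω z) (c b : ℝ) {ζ : ℂ} (hζ : ζ ∈ Ω) :
    (gr (fun ζ => c * xi z ζ + b) ζ * (deriv z ζ / z ζ)).re = c * ‖deriv z ζ / z ζ‖ ^ 2 := by
  have h := (((mass_diff hz.op hz.contDiffOn_xi hζ).hasFDerivAt.const_mul c).add_const b).fderiv
  rw [mass_gr_re, h, Complex.sq_norm, Complex.normSq_apply]
  simp only [ContinuousLinearMap.smul_apply, smul_eq_mul, hz.fderiv_xi hζ, mul_one,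
    Complex.mul_I_re]
  ring

theorem mass_curl_aff (h1 : HolN Ω z1) (h2 : HolN Ω z2) (c b1 b2 : ℝ) {ζ : ℂ} (hζ : ζ ∈ Ω) :
    px (fun ζ => (c * xi z1 ζ + b1) * (deriv z1 ζ / z1 ζ).re +
        (c * xi z2 ζ + b2) * (deriv z2 ζ / z2 ζ).re) ζ -
      py (fun ζ => (c * xi z1 ζ + b1) * (deriv z1 ζ / z1 ζ).im +
        (c * xi z2 ζ + b2) * (deriv z2 ζ / z2 ζ).im) ζ = c * fl z1 z2 ζ := by
  rw [mass_curl2 h1 h2 ((contDiffOn_const.mul h1.contDiffOn_xi).add contDiffOn_const)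
    ((contDiffOn_const.mul h2.contDiffOn_xi).add contDiffOn_const) hζ, mass_gr_aff h1 c b1 hζ,
    mass_gr_aff h2 c b2 hζ, fl]
  ring

theorem mass_sm_d (hΩ : IsOpen Ω) {G : ℂ → ℝ} (hG : ContDiffOn ℝ ∞ G Ω) (v : ℂ) :
    ContDiffOn ℝ ∞ (fun ζ => fderiv ℝ G ζ v) Ω :=
  (hG.fderiv_of_isOpen hΩ (m := ∞) le_rfl).clm_apply contDiffOn_const

theorem mass_symm (hΩ : IsOpen Ω) {G : ℂ → ℝ} (hG : ContDiffOn ℝ ∞ G Ω) {ζ : ℂ} (hζ : ζ ∈ Ω) :
    fderiv ℝ (fun ζ => fderiv ℝ G ζ Complex.I) ζ 1 =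
      fderiv ℝ (fun ζ => fderiv ℝ G ζ 1) ζ Complex.I := by
  have h0 : ContDiffAt ℝ ∞ G ζ := hG.contDiffAt (hΩ.mem_nhds hζ)
  have h1 : DifferentiableAt ℝ (fderiv ℝ G) ζ :=
    ((hG.fderiv_of_isOpen hΩ (m := ∞) le_rfl).contDiffAt (hΩ.mem_nhds hζ)).differentiableAt
      (by simp)
  have h2 : ∀ v w, fderiv ℝ (fun q => fderiv ℝ G q v) ζ w = fderiv ℝ (fderiv ℝ G) ζ w v :=
    fun v w => by rw [fderiv_clm_apply h1 (differentiableAt_const v)]; simp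
  have h3 : ContDiffAt ℝ 2 G ζ := h0.of_le (WithTop.coe_le_coe.2 (le_top : (2 : ℕ∞) ≤ ⊤))
  exact (h2 _ _).trans (((h3.isSymmSndFDerivAt (by simp)).eq _ _).trans (h2 _ _).symm)

theorem mass_form (h : Lf S Ω P Q z1 z2 N c a A k) : ∃ G : ℂ → ℝ, ContDiffOn ℝ ∞ G Ω ∧
    ∀ ζ ∈ Ω, P ζ = (c * xi z1 ζ + a / (2 * π) * k.1) * (deriv z1 ζ / z1 ζ).im +
        (c * xi z2 ζ + a / (2 * π) * k.2) * (deriv z2 ζ / z2 ζ).im + fderiv ℝ G ζ 1 ∧
      Q ζ = (c * xi z1 ζ + a / (2 * π) * k.1) * (deriv z1 ζ / z1 ζ).re +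
        (c * xi z2 ζ + a / (2 * π) * k.2) * (deriv z2 ζ / z2 ζ).re + fderiv ℝ G ζ Complex.I := by
  obtain ⟨G, hG, hf⟩ := h.form
  refine ⟨G, hG, fun ζ hζ => ⟨?_, ?_⟩⟩
  · have h1 := hf ζ hζ 1
    simpa only [Complex.one_re, Complex.one_im, mul_one, mul_zero, add_zero] using h1
  · have h1 := hf ζ hζ Complex.I
    simpa only [Complex.I_re, Complex.I_im, mul_one, mul_zero, zero_add, Complex.mul_I_im] using h1

/-- Extension by zero. -/
theorem mass_ext (hΩ : IsOpen Ω) {K : Set ℂ} (hK : IsCompact K) (hs : K ⊆ Ω) {f : ℂ → ℝ}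
    (hf : ContDiffOn ℝ ∞ f Ω) (h0 : ∀ ζ ∈ Ω, ζ ∉ K → f ζ = 0) :
    ContDiff ℝ ∞ (Ω.indicator f) ∧ HasCompactSupport (Ω.indicator f) ∧
      tsupport (Ω.indicator f) ⊆ Ω := by
  have h1 : ∀ ζ, ζ ∉ K → Ω.indicator f ζ = 0 := fun ζ hζ => by
    by_cases h : ζ ∈ Ω
    · rw [indicator_of_mem h, h0 ζ h hζ]
    · exact indicator_of_notMem h f
  have h2 : tsupport (Ω.indicator f) ⊆ K :=
    closure_minimal (fun ζ hζ => by_contra fun h => hζ (h1 ζ h)) hK.isClosed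
  refine ⟨contDiff_iff_contDiffAt.2 fun ζ => ?_, HasCompactSupport.intro hK h1, h2.trans hs⟩
  by_cases h : ζ ∈ Ω
  · refine (hf.contDiffAt (hΩ.mem_nhds h)).congr_of_eventuallyEq ?_
    filter_upwards [hΩ.mem_nhds h] with y hy using indicator_of_mem hy f
  · refine (contDiffAt_const (c := (0 : ℝ))).congr_of_eventuallyEq ?_
    filter_upwards [hK.isClosed.isOpen_compl.mem_nhds fun h' => h (hs h')] with y hy using h1 y hy

theorem mass_d_zero {f : ℂ → ℝ} (hf : tsupport f ⊆ Ω) {ζ : ℂ} (hζ : ζ ∉ Ω) (v : ℂ) :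
    fderiv ℝ f ζ v = 0 := by
  rw [(notMem_tsupport_iff_eventuallyEq.1 fun h => hζ (hf h)).fderiv_eq]
  simp

theorem mass_beta (hN : 0 < N) : ∃ β : ℝ → ℝ, ContDiff ℝ ∞ β ∧ (∀ t, deriv β t ≤ 0) ∧
    (∀ t, β t ≤ 1) ∧ (∀ t ≤ N ^ 2 / 4, β t = 1) ∧ ∀ t, N ^ 2 / 2 ≤ t → β t = 0 := by
  have h0 : 0 < N ^ 2 / 4 := by positivity
  refine ⟨fun t => smoothTransition (2 - t / (N ^ 2 / 4)),
    smoothTransition.contDiff.comp (by fun_prop), fun t => ?_, fun t => smoothTransition.le_one _,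
    fun t ht => smoothTransition.one_of_one_le ?_, fun t ht => smoothTransition.zero_of_nonpos ?_⟩
  · refine Antitone.deriv_nonpos fun s t hst => smoothTransition.monotone ?_
    have := div_le_div_of_nonneg_right hst h0.le
    linarith
  · have := (div_le_one h0).2 ht
    linarith
  · have : 2 ≤ t / (N ^ 2 / 4) := by
      rw [le_div_iff₀ h0]
      linarith
    linarith

/- `form` with `v = 1`, `v = I`, `curl_mul`, `HolN.fderiv_xi`, symmetry of the second derivative. -/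
theorem Lf.dens_eq (h : Lf S Ω P Q z1 z2 N c a A k) {ζ : ℂ} (hζ : ζ ∈ Ω) :
    px Q ζ - py P ζ = c * fl z1 z2 ζ := by
  obtain ⟨G, hG, hf⟩ := mass_form h
  have hΩ := h.h1.op
  have s1 := (contDiffOn_const (c := c).mul h.h1.contDiffOn_xi).add
    (contDiffOn_const (c := a / (2 * π) * k.1))
  have s2 := (contDiffOn_const (c := c).mul h.h2.contDiffOn_xi).add
    (contDiffOn_const (c := a / (2 * π) * k.2))
  have e1 : P =ᶠ[𝓝 ζ] _ := (hΩ.eventually_mem hζ).mono fun y hy => (hf y hy).1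
  have e2 : Q =ᶠ[𝓝 ζ] _ := (hΩ.eventually_mem hζ).mono fun y hy => (hf y hy).2
  rw [← mass_curl_aff h.h1 h.h2 c (a / (2 * π) * k.1) (a / (2 * π) * k.2) hζ]
  simp only [px, py]
  rw [e1.fderiv_eq, e2.fderiv_eq,
    fderiv_fun_add (mass_diff hΩ ((s1.mul (mass_re h.h1)).add (s2.mul (mass_re h.h2))) hζ)
      (mass_diff hΩ (mass_sm_d hΩ hG _) hζ),
    fderiv_fun_add (mass_diff hΩ ((s1.mul (mass_im h.h1)).add (s2.mul (mass_im h.h2))) hζ)
      (mass_diff hΩ (mass_sm_d hΩ hG _) hζ)]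
  simp only [ContinuousLinearMap.add_apply]
  rw [mass_symm hΩ hG hζ]
  ring

/- `ψ` smooth and monotone, `ψ t = 0` for `t ≤ N ^ 2 / 4`, `ψ t = 1` for `t ≥ (3 N / 4) ^ 2`;
`s = xi z1 ^ 2 + xi z2 ^ 2`; subtract `c (1 - ψ s) (xi z1 d arg z1 + xi z2 d arg z2)`, extended by
zero (its support lies in the compact set `prop (3 N / 4)`).  On `Ω` the new density is
`c ψ(s) fl + 2 c ψ'(s) ‖xi z1 w1 + xi z2 w2‖ ^ 2` with `w_j = z_j' / z_j`. -/
theorem Lf.exists_corr (h : Lf S Ω P Q z1 z2 N c a A k) (hN : 0 < N) (hc : 0 < c) :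
    ∃ P' Q' : ℂ → ℝ, ContDiff ℝ ∞ P' ∧ ContDiff ℝ ∞ Q' ∧ HasCompactSupport P' ∧
      HasCompactSupport Q' ∧ tsupport P' ⊆ Ω ∧ tsupport Q' ⊆ Ω ∧
      (∀ ζ, 0 ≤ px Q ζ - py P ζ - (px Q' ζ - py P' ζ)) ∧
      ∀ ζ ∈ Core Ω z1 z2 (N / 4),
        P' ζ = c * xi z1 ζ * (deriv z1 ζ / z1 ζ).im + c * xi z2 ζ * (deriv z2 ζ / z2 ζ).im ∧
        Q' ζ = c * xi z1 ζ * (deriv z1 ζ / z1 ζ).re + c * xi z2 ζ * (deriv z2 ζ / z2 ζ).re := by
  obtain ⟨β, hβ, hβ', hβ1, hb1, hb0⟩ := mass_beta hN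
  have hΩ := h.h1.op
  have x1 := h.h1.contDiffOn_xi
  have x2 := h.h2.contDiffOn_xi
  have hs : ContDiffOn ℝ ∞ (fun ζ => β (xi z1 ζ ^ 2 + xi z2 ζ ^ 2)) Ω :=
    hβ.comp_contDiffOn ((x1.pow 2).add (x2.pow 2))
  have s1 : ContDiffOn ℝ ∞ (fun ζ => c * β (xi z1 ζ ^ 2 + xi z2 ζ ^ 2) * xi z1 ζ) Ω :=
    (contDiffOn_const.mul hs).mul x1
  have s2 : ContDiffOn ℝ ∞ (fun ζ => c * β (xi z1 ζ ^ 2 + xi z2 ζ ^ 2) * xi z2 ζ) Ω :=
    (contDiffOn_const.mul hs).mul x2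
  have hK := h.prop (3 * N / 4) (by linarith)
  have hz : ∀ ζ ∈ Ω, ζ ∉ {ζ | ζ ∈ Ω ∧ |xi z1 ζ| ≤ 3 * N / 4 ∧ |xi z2 ζ| ≤ 3 * N / 4} →
      β (xi z1 ζ ^ 2 + xi z2 ζ ^ 2) = 0 := by
    intro ζ hζ hn
    refine hb0 _ (by_contra fun hlt => hn ⟨hζ, ?_, ?_⟩)
    · refine abs_le_of_sq_le_sq' ?_ (by positivity) |> abs_le.2
      nlinarith [sq_nonneg (xi z2 ζ), sq_nonneg N]
    · refine abs_le_of_sq_le_sq' ?_ (by positivity) |> abs_le.2
      nlinarith [sq_nonneg (xi z1 ζ), sq_nonneg N]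
  obtain ⟨p1, p2, p3⟩ := mass_ext hΩ hK (fun ζ hζ => hζ.1)
    ((s1.mul (mass_im h.h1)).add (s2.mul (mass_im h.h2))) fun ζ hζ hn => by
      simp only [hz ζ hζ hn, mul_zero, zero_mul, add_zero]
  obtain ⟨q1, q2, q3⟩ := mass_ext hΩ hK (fun ζ hζ => hζ.1)
    ((s1.mul (mass_re h.h1)).add (s2.mul (mass_re h.h2))) fun ζ hζ hn => by
      simp only [hz ζ hζ hn, mul_zero, zero_mul, add_zero]
  refine ⟨_, _, p1, q1, p2, q2, p3, q3, fun ζ => ?_, fun ζ hζ => ?_⟩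
  · by_cases hζ : ζ ∈ Ω
    · have hi : ∀ f : ℂ → ℝ, fderiv ℝ (Ω.indicator f) ζ = fderiv ℝ f ζ := fun f =>
        EventuallyEq.fderiv_eq ((hΩ.eventually_mem hζ).mono fun y hy => indicator_of_mem hy f)
      have e := mass_curl2 h.h1 h.h2 s1 s2 hζ
      rw [h.dens_eq hζ]
      simp only [px, py] at e ⊢
      rw [hi, hi, e, mass_gr_re, mass_gr_re]
      have d1 := (mass_diff hΩ x1 hζ).hasFDerivAt
      have d2 := (mass_diff hΩ x2 hζ).hasFDerivAt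
      have d3 := (hβ.differentiable (by simp) _).hasDerivAt.comp_hasFDerivAt ζ
        ((d1.pow 2).add (d2.pow 2))
      have d4 := ((d3.const_mul c).fun_mul d1).fderiv
      have d5 := ((d3.const_mul c).fun_mul d2).fderiv
      simp only [Function.comp_apply, Pi.add_apply] at d4 d5
      rw [d4, d5, fl, Complex.sq_norm, Complex.sq_norm, Complex.normSq_apply, Complex.normSq_apply]
      simp only [ContinuousLinearMap.add_apply, ContinuousLinearMap.smul_apply, smul_eq_mul,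
        h.h1.fderiv_xi hζ, h.h2.fderiv_xi hζ, mul_one, Complex.mul_I_re, nsmul_eq_mul]
      have b1 := sub_nonneg.2 (hβ1 (xi z1 ζ ^ 2 + xi z2 ζ ^ 2))
      have b2 := neg_nonneg.2 (hβ' (xi z1 ζ ^ 2 + xi z2 ζ ^ 2))
      generalize β (xi z1 ζ ^ 2 + xi z2 ζ ^ 2) = b at b1 ⊢
      generalize deriv β (xi z1 ζ ^ 2 + xi z2 ζ ^ 2) = b' at b2 ⊢
      generalize deriv z1 ζ / z1 ζ = w1
      generalize deriv z2 ζ / z2 ζ = w2
      generalize xi z1 ζ = y1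
      generalize xi z2 ζ = y2
      have b3 : 0 ≤ c * (1 - b) * (w1.re ^ 2 + w1.im ^ 2 + w2.re ^ 2 + w2.im ^ 2) +
          2 * c * -b' * ((y1 * w1.re + y2 * w2.re) ^ 2 + (y1 * w1.im + y2 * w2.im) ^ 2) := by
        positivity
      refine b3.trans_eq ?_
      push_cast
      ring
    · rw [px, py, px, py, mass_d_zero p3 hζ, mass_d_zero q3 hζ, sub_zero, sub_zero]
      exact (h.pos ζ).le
  · have e : β (xi z1 ζ ^ 2 + xi z2 ζ ^ 2) = 1 := by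
      refine hb1 _ ?_
      have a1 := abs_lt.1 hζ.2.1
      have a2 := abs_lt.1 hζ.2.2
      nlinarith
    simp only [indicator_of_mem hζ.1, e, mul_one, and_self]

theorem isOpen_core (h1 : HolN Ω z1) (h2 : HolN Ω z2) (t : ℝ) : IsOpen (Core Ω z1 z2 t) := by
  have a1 := h1.contDiffOn_xi.continuousOn.abs.isOpen_inter_preimage h1.op (isOpen_Iio (a := t))
  have a2 := h2.contDiffOn_xi.continuousOn.abs.isOpen_inter_preimage h1.op (isOpen_Iio (a := t))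
  convert a1.inter a2 using 1
  ext ζ
  exact ⟨fun h => ⟨⟨h.1, h.2.1⟩, h.1, h.2.2⟩, fun h => ⟨h.1.1, h.1.2, h.2.2⟩⟩

/- `μ = px (Q - Q') - py (P - P')`.  Mass: `green_cut` on `univ`, on `Kd χ` the form is
`a / (2 π) (k.1 d arg z1 + k.2 d arg z2) + dG`, `jac_zero`.  Bound: `{χ ≠ 0} ⊆ S` by `full`,
`∫ χ μ ≤ ∫ μ on S = ∫ dens on S` by `green0`. -/
theorem Lf.exists_lm (h : Lf S Ω P Q z1 z2 N c a A k) (hN : 0 < N) (hc : 0 < c) (ha : 0 < a)
    (hA : A < 2 * a) : ∃ μ : ℂ → ℝ, Lm Ω z1 z2 μ N a (A / c) k := by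
  obtain ⟨P', Q', sP, sQ, cP, cQ, tP, tQ, hnn, hco⟩ := h.exists_corr hN hc
  obtain ⟨G, hG, hf⟩ := mass_form h
  have hΩ := h.h1.op
  have hop := isOpen_core h.h1 h.h2 (N / 4)
  have one : ∀ {f : ℂ → ℝ}, ContDiff ℝ ∞ f → ContDiff ℝ 1 f := fun hf => contDiff_infty.1 hf 1
  have cd : ∀ {f g : ℂ → ℝ}, ContDiff ℝ ∞ f → ContDiff ℝ ∞ g →
      Continuous fun ζ => px g ζ - py f ζ := fun hf hg =>
    (((one hg).continuous_fderiv one_ne_zero).clm_apply continuous_const).sub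
      (((one hf).continuous_fderiv one_ne_zero).clm_apply continuous_const)
  have iS : ∀ {f : ℂ → ℝ}, Continuous f → IntegrableOn f S := fun hf =>
    (hf.continuousOn.integrableOn_compact h.bdS.isCompact_closure).mono_set subset_closure
  have c1 := cd h.smP h.smQ
  have c2 := cd sP sQ
  have hfl : ∀ ζ ∈ Ω, c⁻¹ * (px Q ζ - py P ζ) = fl z1 z2 ζ := fun ζ hζ => by
    rw [h.dens_eq hζ, inv_mul_cancel_left₀ hc.ne']
  refine ⟨fun ζ => px Q ζ - py P ζ - (px Q' ζ - py P' ζ), hN, ha, h.h1, h.h2,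
    h.prop _ (by linarith), c1.sub c2, hnn, fun ζ hζ => ?_, fun ζ h0 => ?_, fun χ hχ => ⟨?_, ?_⟩,
    ?_, ?_⟩
  · have e1 : P' =ᶠ[𝓝 ζ] _ := (hop.eventually_mem hζ).mono fun y hy => (hco y hy).1
    have e2 : Q' =ᶠ[𝓝 ζ] _ := (hop.eventually_mem hζ).mono fun y hy => (hco y hy).2
    have e3 := mass_curl_aff h.h1 h.h2 c 0 0 hζ.1
    simp only [add_zero, px, py] at e3
    rw [h.dens_eq hζ.1, px, py, e1.fderiv_eq, e2.fderiv_eq, e3, sub_self]
  · by_contra hζ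
    have h1 := h.pos ζ
    simp only [px, py, mass_d_zero tP hζ, mass_d_zero tQ hζ] at h0 h1
    linarith
  · have hK : Kd χ ⊆ Ω := fun ζ hζ => (hχ.kd hζ).1
    have g := green_cut hχ.bmp isOpen_univ (subset_univ _) (one (h.smP.sub sP)).contDiffOn
      (one (h.smQ.sub sQ)).contDiffOn
    have e1 : ∀ ζ, px (fun x => Q x - Q' x) ζ - py (fun x => P x - P' x) ζ =
        px Q ζ - py P ζ - (px Q' ζ - py P' ζ) := fun ζ => by
      simp only [px, py]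
      rw [fderiv_fun_sub (h.smQ.differentiable (by simp) ζ) (sQ.differentiable (by simp) ζ),
        fderiv_fun_sub (h.smP.differentiable (by simp) ζ) (sP.differentiable (by simp) ζ)]
      simp only [ContinuousLinearMap.sub_apply]
      ring
    have e2 : ∀ ζ, px χ ζ * (Q ζ - Q' ζ) - py χ ζ * (P ζ - P' ζ) =
        a / (2 * π) * k.1 * (gr χ ζ * (deriv z1 ζ / z1 ζ)).re +
          a / (2 * π) * k.2 * (gr χ ζ * (deriv z2 ζ / z2 ζ)).re +
          (px χ ζ * py G ζ - py χ ζ * px G ζ) := fun ζ => by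
      by_cases hζ : ζ ∈ Kd χ
      · rw [mass_gr_re, mass_gr_re, (hf ζ (hK hζ)).1, (hf ζ (hK hζ)).2, (hco ζ (hχ.kd hζ)).1,
          (hco ζ (hχ.kd hζ)).2]
        simp only [px, py]
        ring
      · have h0 : fderiv ℝ χ ζ = 0 := image_eq_zero_of_notMem_tsupport hζ
        rw [mass_gr_re, mass_gr_re]
        simp [px, py, h0]
    have i1 := (hχ.bmp.integrable_gr hΩ hK h.h1.logd.continuousOn).re
    have i2 := (hχ.bmp.integrable_gr hΩ hK h.h2.logd.continuousOn).re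
    have i3 : Integrable fun ζ => px χ ζ * py G ζ - py χ ζ * px G ζ := by
      have i4 := (hχ.bmp.integrable_gr hΩ hK
        (g := fun ζ => ((py G ζ : ℝ) : ℂ) + ((px G ζ : ℝ) : ℂ) * Complex.I)
        ((Complex.continuous_ofReal.comp_continuousOn (mass_sm_d hΩ hG _).continuousOn).add
          ((Complex.continuous_ofReal.comp_continuousOn (mass_sm_d hΩ hG _).continuousOn).mul
            continuousOn_const))).re
      refine i4.congr (Eventually.of_forall fun ζ => ?_)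
      simp [gr]
    simp only [RCLike.re_to_complex] at i1 i2
    simp only [e1, e2] at g
    have i5 : Integrable fun ζ => a / (2 * π) * k.1 * (gr χ ζ * (deriv z1 ζ / z1 ζ)).re +
        a / (2 * π) * k.2 * (gr χ ζ * (deriv z2 ζ / z2 ζ)).re :=
      (i1.const_mul _).add (i2.const_mul _)
    rw [g, integral_add i5 i3,
      integral_add (i1.const_mul _) (i2.const_mul _), integral_const_mul, integral_const_mul,
      jac_zero hχ.bmp hΩ hK hG, wn, wn]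
    field_simp
    ring
  · have cχ := hχ.bmp.sm.continuous
    have hD : {ζ | χ ζ ≠ 0} ⊆ S := by
      refine h.full _ (isOpen_ne_fun cχ continuous_const)
        (hχ.bmp.cpt.isCompact.isBounded.subset (subset_tsupport χ)) fun ζ hζ => ?_
      by_contra hS
      rcases hχ.loc ζ (fun hc => hS (h.sub hc.1)) with h0 | h0
      · obtain ⟨y, hy, hy'⟩ := ((mem_closure_iff_frequently.1 hζ.1).and_eventually h0).exists
        exact hy hy'
      · exact hζ.2 (mem_interior_iff_mem_nhds.2 (h0.mono fun y hy => by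
          change χ y ≠ 0
          rw [hy]
          exact one_ne_zero))
    have g0 : ∫ ζ in S, (px Q' ζ - py P' ζ) = 0 := by
      rw [setIntegral_eq_integral_of_forall_compl_eq_zero, green0 (one sP) (one sQ) cP cQ]
      intro ζ hζ
      have hζ' : ζ ∉ Ω := fun h' => hζ (h.sub h')
      rw [px, py, mass_d_zero tP hζ', mass_d_zero tQ hζ', sub_zero]
    rw [← setIntegral_eq_integral_of_forall_compl_eq_zero (s := S) fun ζ hζ => by
      rw [show χ ζ = 0 from by_contra fun h' => hζ (hD h'), zero_mul]]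
    refine lt_of_le_of_lt (setIntegral_mono (iS (cχ.mul (c1.sub c2))) (iS (c1.sub c2))
      fun ζ => mul_le_of_le_one_left (hnn ζ) (hχ.le ζ)) ?_
    simp only [Pi.sub_apply]
    rw [integral_sub (iS c1) (iS c2), g0, sub_zero]
    exact h.area.trans_lt hA
  · exact (((iS c1).mono_set h.sub).const_mul c⁻¹).congr
      ((ae_restrict_iff' hΩ.measurableSet).2 (Eventually.of_forall hfl))
  · rw [← setIntegral_congr_fun hΩ.measurableSet hfl, integral_const_mul, div_eq_inv_mul]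
    refine mul_le_mul_of_nonneg_left (le_trans ?_ h.area) (inv_nonneg.2 hc.le)
    exact setIntegral_mono_set (iS c1) (Eventually.of_forall fun ζ => (h.pos ζ).le)
      h.sub.eventuallyLE

end Pool.Agent.Lib.MP_7ed551_gt.Cy
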