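import Pool.Agent.Lib.MP_7ed551_gt.Cy.N.Inv

/-! The graph function is smooth. -/

open scoped ContDiff Topology
open Set Filter Metric MeasureTheory Real

noncomputable section

namespace Pool.Agent.Lib.MP_7ed551_gt.Cy

open Pool.Agent.Lib.MP_ccffa6_gt (Form1 dF pb px py JHol dens)

/- Let `F Z = (P (Θ Z)).2`.  If `W` is a graph through `x = (Z, W Z)` then `fderiv (P ∘ Θ) x` is
bijective and maps the tangent plane of the graph onto `ℂ × 0`, so `v ↦ fderiv F x (0, v)` is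
injective. -/
theorem transversal {T : E →L[ℝ] E} (hT : Function.Injective T) {w : ℂ}
    (h : ∀ v : ℂ, (T (v, w * v)).2 = 0) {v : ℂ} (hv : (T (0, v)).2 = 0) : v = 0 := by
  let A : ℂ →ₗ[ℝ] ℂ := (LinearMap.fst ℝ ℂ ℂ).comp
    (T.toLinearMap.comp (LinearMap.id.prod (LinearMap.mulLeft ℝ w)))
  have hA : ∀ u, A u = (T (u, w * u)).1 := fun u => rfl
  have hi : Function.Injective A := by
    rw [injective_iff_map_eq_zero]
    intro u hu
    have h1 : T (u, w * u) = T 0 := by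
      rw [map_zero]
      exact Prod.ext hu (h u)
    exact congrArg Prod.fst (hT h1)
  obtain ⟨u, hu⟩ := (LinearMap.injective_iff_surjective.1 hi) (T (0, v)).1
  have h2 : (u, w * u) = ((0, v) : E) := hT (Prod.ext hu ((h u).trans hv.symm))
  have h3 : u = 0 := congrArg Prod.fst h2
  have h4 : w * u = v := congrArg Prod.snd h2
  rw [← h4, h3, mul_zero]

theorem gr_int_zero {n : ℤ} (h : ‖(2 * π * Complex.I * n : ℂ)‖ < 2) : n = 0 := by
  by_contra hn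
  have h1 : (1 : ℝ) ≤ |(n : ℝ)| := by
    rw [← Int.cast_abs]
    exact_mod_cast Int.one_le_abs hn
  have h2 : ‖(2 * π * Complex.I * n : ℂ)‖ = 2 * π * |(n : ℝ)| := by
    simp [abs_of_pos pi_pos]
  rw [h2] at h
  nlinarith [pi_gt_three]

theorem gr_strip {N : ℝ} {e W : ℂ} (he : e ∈ Strip N) (h : ‖W - e‖ ≤ 1) : W ∈ Strip (N + 1) := by
  have h1 : |(W - e).re| ≤ 1 := (Complex.abs_re_le_norm _).trans h
  have h2 : |e.re| < N := he
  change |W.re| < N + 1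
  rw [Complex.sub_re] at h1
  rw [abs_lt] at h2 ⊢
  rw [abs_le] at h1
  constructor <;> linarith [h1.1, h1.2, h2.1, h2.2]

theorem gr_isOpen_strip (N : ℝ) : IsOpen (Strip N) :=
  isOpen_lt (Complex.continuous_re.abs) continuous_const

theorem gr_inj {J : E → E →L[ℝ] E} {Θ Ψ P : E → E} {N : ℝ} (hF : Fol J Ψ P)
    (hC : Cht J Θ N) {x : E} (hx : x ∈ Box N) :
    Function.Injective (fderiv ℝ (fun y => P (Θ y)) x) := by
  have d1 : DifferentiableAt ℝ Θ x := hC.sm.differentiable (by simp) x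
  have d2 : DifferentiableAt ℝ P (Θ x) := hF.sm'.differentiable (by simp) _
  have d3 : DifferentiableAt ℝ Ψ (P (Θ x)) := hF.sm.differentiable (by simp) _
  have h1 : fderiv ℝ (fun y => P (Θ y)) x = (fderiv ℝ P (Θ x)).comp (fderiv ℝ Θ x) :=
    fderiv_comp x d2 d1
  have h2 : (fderiv ℝ Ψ (P (Θ x))).comp (fderiv ℝ P (Θ x)) = ContinuousLinearMap.id ℝ E := by
    rw [← fderiv_comp _ d3 d2, show Ψ ∘ P = id from funext hF.right, fderiv_id]
  have h3 : Function.Injective (fderiv ℝ P (Θ x)) := fun a b hab => by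
    have h4 := congrArg (fderiv ℝ Ψ (P (Θ x))) hab
    rwa [← ContinuousLinearMap.comp_apply, ← ContinuousLinearMap.comp_apply, h2] at h4
  rw [h1]
  exact h3.comp (hC.imm x hx)

theorem gr_tangent {Q : E → E} (hQ : Differentiable ℝ Q) {W : ℂ → ℂ} {Z c : ℂ}
    (hW : DifferentiableAt ℂ W Z) (hc : ∀ᶠ z in 𝓝 Z, (Q (z, W z)).2 = c) (v : ℂ) :
    (fderiv ℝ Q (Z, W Z) (v, deriv W Z * v)).2 = 0 := by
  have h1 : HasFDerivAt (fun z => ((z, W z) : E)) ((ContinuousLinearMap.id ℝ ℂ).prod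
      ((ContinuousLinearMap.toSpanSingleton ℂ (deriv W Z)).restrictScalars ℝ)) Z :=
    (hasFDerivAt_id Z).prodMk (hW.hasDerivAt.hasFDerivAt.restrictScalars ℝ)
  have h2 := ((hQ (Z, W Z)).hasFDerivAt.comp Z h1).snd
  have h3 : HasFDerivAt (fun z => (Q (z, W z)).2) (0 : ℂ →L[ℝ] ℂ) Z :=
    (hasFDerivAt_const c Z).congr_of_eventuallyEq hc
  have h4 := congrArg (fun L : ℂ →L[ℝ] ℂ => L v) (h2.unique h3)
  simpa [mul_comm] using h4

theorem gr_local {Q : E → E} (hQ : ContDiff ℝ ∞ Q) {y : E}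
    (hy : ∀ v : ℂ, (fderiv ℝ Q y (0, v)).2 = 0 → v = 0) :
    ∃ L : E → ℂ, ContDiffAt ℝ ∞ L (y.1, (Q y).2) ∧ L (y.1, (Q y).2) = y.2 ∧
      ∀ᶠ p in 𝓝 ((y.1, (Q y).2) : E), (Q (p.1, L p)).2 = p.2 := by
  let G : E → E := fun x => (x.1, (Q x).2)
  have hG : ContDiffAt ℝ ∞ G y := (contDiff_fst.prodMk hQ.snd).contDiffAt
  let D : E →L[ℝ] E := (ContinuousLinearMap.fst ℝ ℂ ℂ).prod
    ((ContinuousLinearMap.snd ℝ ℂ ℂ).comp (fderiv ℝ Q y))
  have hD : HasFDerivAt G D y :=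
    hasFDerivAt_fst.prodMk (hQ.differentiable (by simp) y).hasFDerivAt.snd
  have hi : Function.Injective D.toLinearMap := by
    rw [injective_iff_map_eq_zero]
    rintro ⟨u, v⟩ h
    have h1 : u = 0 := congrArg Prod.fst h
    subst h1
    have h2 : v = 0 := hy v (congrArg Prod.snd h)
    rw [h2]
    rfl
  let D' : E ≃L[ℝ] E := (LinearEquiv.ofInjectiveEndo D.toLinearMap hi).toContinuousLinearEquiv
  have hD' : HasFDerivAt G (D' : E →L[ℝ] E) y := hD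
  have hn : (∞ : WithTop ℕ∞) ≠ 0 := by simp
  refine ⟨fun p => (hG.localInverse hD' hn p).2, (hG.to_localInverse hD' hn).snd,
    congrArg Prod.snd (hG.localInverse_apply_image hD' hn), ?_⟩
  filter_upwards [(hG.hasStrictFDerivAt' hD' hn).eventually_right_inverse] with p hp
  have h1 : (hG.localInverse hD' hn p).1 = p.1 := (congrArg Prod.fst hp :)
  have h2 : (Q (hG.localInverse hD' hn p)).2 = p.2 := (congrArg Prod.snd hp :)
  rw [← h1]
  exact h2

/- `h (Z, e)` is the value at `Z` of the chosen graph.  Near `(Z₀, e₀)` it equals the second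
component of the local inverse of `(Z, W) ↦ (Z, F (Z, W))` at `(Z, F (0, e))`: both lie on the
same leaf and differ by less than `2 π`. -/
theorem gr_of {J : E → E →L[ℝ] E} {Θ Ψ P : E → E} {N δ : ℝ} (hF : Fol J Ψ P)
    (hC : Cht J Θ (N + 1)) (hN : 0 < N) (hδ : δ ≤ 1 / 2)
    (ex : ∀ e ∈ Strip N, ∃ W : ℂ → ℂ, DifferentiableOn ℂ W (Strip N) ∧ W 0 = e ∧ ∀ Z ∈ Strip N,
      W (Z + 2 * π * Complex.I) = W Z ∧ ‖W Z - e‖ ≤ δ ∧ (P (Θ (Z, W Z))).2 = (P (Θ (0, e))).2)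
    (un : ∀ e ∈ Strip N, ∀ Z ∈ Strip N, ∀ W ∈ Strip (N + 1), ∀ W' ∈ Strip (N + 1),
      (P (Θ (Z, W))).2 = (P (Θ (0, e))).2 → (P (Θ (Z, W'))).2 = (P (Θ (0, e))).2 →
      ∃ n : ℤ, W' = W + 2 * π * Complex.I * n) : ∃ h : E → ℂ, Gr Θ P h N δ := by
  choose! W hd h0 hW using ex
  have hQ : ContDiff ℝ ∞ fun y => P (Θ y) := hF.sm'.comp hC.sm
  have hz : (0 : ℂ) ∈ Strip N := by simpa [Strip] using hN
  have hs : ∀ e ∈ Strip N, ∀ Z ∈ Strip N, W e Z ∈ Strip (N + 1) := fun e he Z hZ =>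
    gr_strip he ((hW e he Z hZ).2.1.trans (by linarith))
  have hs' : ∀ e ∈ Strip N, e ∈ Strip (N + 1) := fun e he => gr_strip he (by simp)
  have tr : ∀ e ∈ Strip N, ∀ Z ∈ Strip N, ∀ v : ℂ,
      (fderiv ℝ (fun y => P (Θ y)) (Z, W e Z) (0, v)).2 = 0 → v = 0 := by
    intro e he Z hZ v hv
    have hn := (gr_isOpen_strip N).mem_nhds hZ
    refine transversal (gr_inj hF hC (x := (Z, W e Z)) ⟨hs' Z hZ, hs e he Z hZ⟩)
      (gr_tangent (hQ.differentiable (by simp)) ((hd e he).differentiableAt hn)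
        (c := (P (Θ (0, e))).2) ?_) hv
    filter_upwards [hn] with z hz' using (hW e he z hz').2.2
  refine ⟨fun x => W x.2 x.1, ?_, hd, h0, ?_, ?_, fun x hx => (hW _ hx.2 _ hx.1).2.1,
    fun x hx => (hW _ hx.2 _ hx.1).2.2, fun e he e' he' h => ?_, fun e he => ?_⟩
  · rintro ⟨Z₀, e₀⟩ ⟨hZ₀, he₀⟩
    obtain ⟨L, hL, hL0, hL1⟩ := gr_local hQ (tr e₀ he₀ Z₀ hZ₀)
    let φ : E → E := fun x => (x.1, (P (Θ (0, x.2))).2)
    have hφ : ContDiff ℝ ∞ φ :=
      contDiff_fst.prodMk (hQ.comp (contDiff_const.prodMk contDiff_snd)).snd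
    have hφ0 : φ (Z₀, e₀) = (Z₀, (P (Θ (Z₀, W e₀ Z₀))).2) :=
      Prod.ext rfl (hW e₀ he₀ Z₀ hZ₀).2.2.symm
    change ContDiffAt ℝ ∞ L (Z₀, (P (Θ (Z₀, W e₀ Z₀))).2) at hL
    change L (Z₀, (P (Θ (Z₀, W e₀ Z₀))).2) = W e₀ Z₀ at hL0
    change ∀ᶠ p in 𝓝 ((Z₀, (P (Θ (Z₀, W e₀ Z₀))).2) : E), (P (Θ (p.1, L p))).2 = p.2 at hL1
    rw [← hφ0] at hL hL0 hL1
    have hk : ContDiffAt ℝ ∞ (fun x => L (φ x)) (Z₀, e₀) := hL.comp _ hφ.contDiffAt
    refine (hk.congr_of_eventuallyEq ?_).contDiffWithinAt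
    have e1 := hφ.continuous.continuousAt.tendsto.eventually hL1
    have e2 : ∀ᶠ x : E in 𝓝 (Z₀, e₀), ‖L (φ x) - x.2‖ < 1 := by
      refine ((hk.continuousAt.sub continuousAt_snd).norm).eventually_lt continuousAt_const ?_
      change ‖L (φ (Z₀, e₀)) - e₀‖ < 1
      rw [hL0]
      exact (hW e₀ he₀ Z₀ hZ₀).2.1.trans_lt (by linarith)
    have e3 : ∀ᶠ x : E in 𝓝 (Z₀, e₀), x.1 ∈ Strip N :=
      continuousAt_fst.eventually ((gr_isOpen_strip N).mem_nhds hZ₀)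
    have e4 : ∀ᶠ x : E in 𝓝 (Z₀, e₀), x.2 ∈ Strip N :=
      continuousAt_snd.eventually ((gr_isOpen_strip N).mem_nhds he₀)
    filter_upwards [e1, e2, e3, e4] with x x1 x2 x3 x4
    obtain ⟨n, hn⟩ := un _ x4 _ x3 _ (gr_strip x4 x2.le) _ (hs _ x4 _ x3) x1 (hW _ x4 _ x3).2.2
    have h1 : n = 0 := by
      refine gr_int_zero ?_
      have h2 : (2 * π * Complex.I * n : ℂ) = (W x.2 x.1 - x.2) - (L (φ x) - x.2) := by
        rw [hn]
        ring
      rw [h2]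
      have h3 := (hW _ x4 _ x3).2.1
      exact (norm_sub_le _ _).trans_lt (by linarith)
    rw [hn, h1]
    simp
  · rintro ⟨Z, e⟩ ⟨hZ, he⟩
    simpa using (hW e he Z hZ).1
  · rintro ⟨Z, e⟩ ⟨hZ, he⟩
    have he' : e + 2 * π * Complex.I ∈ Strip N := by simpa [Strip] using he
    have h1 : Θ (0, e + 2 * π * Complex.I) = Θ (0, e) := by simpa using hC.per2 (0, e)
    obtain ⟨n, hn⟩ := un e he Z hZ _ (hs e he Z hZ) _ (hs _ he' Z hZ) (hW e he Z hZ).2.2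
      ((hW _ he' Z hZ).2.2.trans (by rw [h1]))
    have h2 : n - 1 = 0 := by
      refine gr_int_zero ?_
      have h3 : (2 * π * Complex.I * (n - 1 : ℤ) : ℂ) =
          (W (e + 2 * π * Complex.I) Z - (e + 2 * π * Complex.I)) - (W e Z - e) := by
        rw [hn]
        push_cast
        ring
      rw [h3]
      have h4 := (hW e he Z hZ).2.1
      have h5 := (hW _ he' Z hZ).2.1
      exact (norm_sub_le _ _).trans_lt (by linarith)
    have h3 : n = 1 := by omega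
    simpa [h3] using hn
  · exact un e he 0 hz e (hs' e he) e' (hs' e' he') rfl h.symm
  · have h1 : HasFDerivAt (fun e : ℂ => (P (Θ (0, e))).2) ((ContinuousLinearMap.snd ℝ ℂ ℂ).comp
        ((fderiv ℝ (fun y => P (Θ y)) (0, e)).comp (ContinuousLinearMap.inr ℝ ℂ ℂ))) e :=
      ((hQ.differentiable (by simp) (0, e)).hasFDerivAt.comp e (hasFDerivAt_prodMk_right 0 e)).snd
    rw [h1.fderiv, injective_iff_map_eq_zero]
    intro v hv
    refine tr e he 0 hz v ?_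
    rw [h0 e he]
    exact hv

end Pool.Agent.Lib.MP_7ed551_gt.Cy
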