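import Pool.Agent.Lib.MP_7ed551_gt.Cy.N.Nest

/-! The leaf is a graph in the core. -/

open scoped ContDiff Topology
open Set Filter Metric MeasureTheory Real

noncomputable section

namespace Pool.Agent.Lib.MP_7ed551_gt.Cy

open Pool.Agent.Lib.MP_ccffa6_gt (Form1 dF pb px py JHol dens)

theorem strip_isOpen (L : ℝ) : IsOpen (Strip L) :=
  isOpen_lt (Complex.continuous_re.abs) continuous_const

theorem strip_convex (L : ℝ) : Convex ℝ (Strip L) := by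
  have : Strip L = {z : ℂ | -L < z.re} ∩ {z : ℂ | z.re < L} := by
    ext z
    exact abs_lt (a := z.re) (b := L)
  rw [this]
  exact (convex_halfSpace_re_gt _).inter (convex_halfSpace_re_lt _)

theorem strip_exists_log {F : ℂ → ℂ} {L : ℝ} {e : ℂ} (hF : HolN (Strip L) F) (L0 : 0 < L)
    (h0 : F 0 = Complex.exp e) : ∃ W : ℂ → ℂ,
      (∀ Z ∈ Strip L, HasDerivAt W (deriv F Z / F Z) Z) ∧ W 0 = e ∧
      ∀ Z ∈ Strip L, Complex.exp (W Z) = F Z := by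
  obtain ⟨H, hH⟩ := (strip_convex L).exists_forall_hasDerivWithinAt hF.logd
  have hW : ∀ Z ∈ Strip L, HasDerivAt (fun Y => H Y - H 0 + e) (deriv F Z / F Z) Z := fun Z hZ =>
    (((hH Z hZ).hasDerivAt ((strip_isOpen L).mem_nhds hZ)).sub_const _).add_const _
  have z0 : (0 : ℂ) ∈ Strip L := by
    show |(0 : ℂ).re| < L
    simpa using L0
  refine ⟨fun Y => H Y - H 0 + e, hW, by simp, fun Z hZ => ?_⟩
  have hd : ∀ Y ∈ Strip L,
      HasDerivAt (fun Y => F Y * Complex.exp (-(H Y - H 0 + e))) 0 Y := by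
    intro Y hY
    have a : HasDerivAt F (deriv F Y) Y :=
      (hF.hol.differentiableAt ((strip_isOpen L).mem_nhds hY)).hasDerivAt
    have b := a.fun_mul (hW Y hY).fun_neg.cexp
    refine b.congr_deriv ?_
    have := hF.ne Y hY
    field_simp
    ring
  have hc := (strip_convex L).norm_image_sub_le_of_norm_hasDerivWithin_le
    (f := fun Y => F Y * Complex.exp (-(H Y - H 0 + e))) (f' := fun _ => 0) (C := 0)
    (fun Y hY => (hd Y hY).hasDerivWithinAt) (fun Y _ => by simp) z0 hZ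
  rw [zero_mul, norm_le_zero_iff, sub_eq_zero, h0, sub_self, zero_add, ← Complex.exp_add,
    add_neg_cancel, Complex.exp_zero, Complex.exp_neg,
    mul_inv_eq_one₀ (Complex.exp_ne_zero _)] at hc
  exact hc.symm

theorem strip_deriv_le {W : ℂ → ℂ} {L T : ℝ} {e : ℂ} (hW : DifferentiableOn ℂ W (Strip L))
    (hb : ∀ Z ∈ Strip L, |(W Z - e).re| ≤ T) (T0 : 0 < T) (L0 : 0 < L) {Z : ℂ}
    (hZ : |Z.re| < L / 2) : ‖deriv W Z‖ ≤ 30 * T / L := by
  have sub : closedBall Z (L / 4) ⊆ Strip L := by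
    intro Y hY
    have a : ‖Y - Z‖ ≤ L / 4 := by rwa [mem_closedBall, dist_eq_norm] at hY
    have b := abs_le.1 ((Complex.abs_re_le_norm (Y - Z)).trans a)
    have c := abs_lt.1 hZ
    rw [Complex.sub_re] at b
    show |Y.re| < L
    exact abs_lt.2 ⟨by linarith, by linarith⟩
  have L4 : 0 < L / 4 := by linarith
  have hZL : Z ∈ Strip L := sub (mem_closedBall_self L4.le)
  have nr : ∀ Y, ‖Complex.exp ((W Y - e) / T)‖ = Real.exp ((W Y - e).re / T) := fun Y => by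
    rw [Complex.norm_exp, Complex.div_ofReal_re]
  have dg : DifferentiableOn ℂ (fun Y => Complex.exp ((W Y - e) / T)) (Strip L) :=
    ((hW.sub_const e).div_const _).cexp
  have dc : DiffContOnCl ℂ (fun Y => Complex.exp ((W Y - e) / T)) (ball Z (L / 4)) :=
    (dg.mono (by rw [closure_ball Z L4.ne']; exact sub)).diffContOnCl
  have ce := Complex.norm_deriv_le_of_forall_mem_sphere_norm_le (C := Real.exp 1) L4 dc
    (fun Y hY => by
      rw [nr, Real.exp_le_exp, div_le_one T0]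
      exact (abs_le.1 (hb Y (sub (sphere_subset_closedBall hY)))).2)
  have a : HasDerivAt W (deriv W Z) Z :=
    (hW.differentiableAt ((strip_isOpen L).mem_nhds hZL)).hasDerivAt
  have b := ((a.sub_const e).div_const (T : ℂ)).cexp
  rw [b.deriv, norm_mul, nr, norm_div, Complex.norm_real, Real.norm_eq_abs, abs_of_pos T0] at ce
  have lo : Real.exp (-1) ≤ Real.exp ((W Z - e).re / T) := by
    rw [Real.exp_le_exp, le_div_iff₀ T0]
    linarith [(abs_le.1 (hb Z hZL)).1]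
  have e1 : Real.exp (-1) * (‖deriv W Z‖ / T) ≤ Real.exp 1 / (L / 4) :=
    (mul_le_mul_of_nonneg_right lo (by positivity)).trans ce
  have x0 := Real.exp_pos 1
  have x1 := Real.exp_one_lt_d9
  rw [Real.exp_neg, inv_mul_le_iff₀ x0, div_le_iff₀ T0] at e1
  refine e1.trans ?_
  have : Real.exp 1 * (Real.exp 1 / (L / 4)) * T = 4 * (Real.exp 1 * Real.exp 1) * T / L := by
    field_simp
  rw [this]
  have x2 : 4 * (Real.exp 1 * Real.exp 1) ≤ 30 := by nlinarith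
  gcongr

/-- Adapted coordinates `z`, `w`. -/
structure Adp (Ω : Set ℂ) (z1 z2 z w : ℂ → ℂ) (N L T : ℝ) (k : ℤ × ℤ) : Prop where
  hz : HolN Ω z
  hw : HolN Ω w
  wz : ∀ χ, Mas Ω z1 z2 N k χ → wn χ z = 1
  ww : ∀ χ, Mas Ω z1 z2 N k χ → wn χ w = 0
  sub : ∀ ζ ∈ Ω, |xi z ζ| ≤ L → |xi w ζ| ≤ L → ζ ∈ Core Ω z1 z2 (N / 8)
  ring : ∀ p ∈ Core Ω z1 z2 (N / 8), ∃ C D, MRing Ω z1 z2 N k C D ∧ p ∈ C ∧
    ∀ ζ ∈ C, |xi z ζ - xi z p| ≤ T ∧ |xi w ζ - xi w p| ≤ T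
  T0 : 0 < T
  TL : 8 * T ≤ L

variable {Ω : Set ℂ} {z1 z2 z w : ℂ → ℂ} {μ : ℂ → ℝ} {N a B L T : ℝ} {k : ℤ × ℤ}

/- `xi_mul_zpow`, `wn_mul`, `wn_zpow`; `xi z1 = m.1 xi z - k.2 xi w`, `xi z2 = m.2 xi z + k.1 xi w`. -/
theorem Lm.adp (h : Lm Ω z1 z2 μ N a B k) {m : ℤ × ℤ} (hm : Cls Ω z1 z2 N k m) {b ρ : ℝ}
    (b1 : |(k.1 : ℝ)| ≤ b) (b2 : |(k.2 : ℝ)| ≤ b) (b3 : |(m.1 : ℝ)| ≤ b) (b4 : |(m.2 : ℝ)| ≤ b)
    (hr : ∀ p ∈ Core Ω z1 z2 (N / 8), ∃ C D, MRing Ω z1 z2 N k C D ∧ p ∈ C ∧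
      C ⊆ Cell Ω z1 z2 p ρ) (hT : 2 * b * ρ ≤ T) (T0 : 0 < T) (TL : 8 * T ≤ L)
    (hL : 16 * b * L < N) :
    Adp Ω z1 z2 (fun ζ => z1 ζ ^ k.1 * z2 ζ ^ k.2) (fun ζ => z1 ζ ^ (-m.2) * z2 ζ ^ m.1)
      N L T k := by
  have b0 : 0 ≤ b := (abs_nonneg _).trans b1
  have L0 : 0 ≤ L := by linarith
  have hk : ∀ χ, Mas Ω z1 z2 N k χ → Kd χ ⊆ Ω := fun χ hχ ζ hζ => (hχ.1.kd hζ).1
  have hkm : (k.1 : ℝ) * m.1 + k.2 * m.2 = 1 := by exact_mod_cast hm.1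
  have two : ∀ {u v x y r : ℝ}, |u| ≤ b → |v| ≤ b → |x| ≤ r → |y| ≤ r →
      |u * x + v * y| ≤ 2 * b * r := by
    intro u v x y r hu hv hx hy
    have e1 : |u * x| ≤ b * r := by
      rw [abs_mul]; exact mul_le_mul hu hx (abs_nonneg _) b0
    have e2 : |v * y| ≤ b * r := by
      rw [abs_mul]; exact mul_le_mul hv hy (abs_nonneg _) b0
    have := abs_add_le (u * x) (v * y)
    linarith
  refine ⟨(h.h1.zpow _).mul (h.h2.zpow _), (h.h1.zpow _).mul (h.h2.zpow _), ?_, ?_, ?_, ?_, T0, TL⟩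
  · intro χ hχ
    rw [wn_mul hχ.1.bmp (h.h1.zpow _) (h.h2.zpow _) (hk χ hχ), wn_zpow h.h1 (hk χ hχ),
      wn_zpow h.h2 (hk χ hχ)]
    exact hχ.2
  · intro χ hχ
    rw [wn_mul hχ.1.bmp (h.h1.zpow _) (h.h2.zpow _) (hk χ hχ), wn_zpow h.h1 (hk χ hχ),
      wn_zpow h.h2 (hk χ hχ), (hm.2 χ hχ).1, (hm.2 χ hχ).2]
    push_cast
    ring
  · intro ζ hζ e1 e2
    rw [xi_mul_zpow h.h1 h.h2 _ _ hζ] at e1 e2
    have nk : |(-k.2 : ℝ)| ≤ b := by rwa [abs_neg]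
    have s1 := two b3 nk e1 e2
    have s2 := two b4 b1 e1 e2
    have q1 : (m.1 : ℝ) * (k.1 * xi z1 ζ + k.2 * xi z2 ζ) +
        (-k.2 : ℝ) * (((-m.2 : ℤ) : ℝ) * xi z1 ζ + m.1 * xi z2 ζ) = xi z1 ζ := by
      push_cast
      linear_combination xi z1 ζ * hkm
    have q2 : (m.2 : ℝ) * (k.1 * xi z1 ζ + k.2 * xi z2 ζ) +
        (k.1 : ℝ) * (((-m.2 : ℤ) : ℝ) * xi z1 ζ + m.1 * xi z2 ζ) = xi z2 ζ := by
      push_cast
      linear_combination xi z2 ζ * hkm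
    rw [q1] at s1
    rw [q2] at s2
    exact ⟨hζ, by linarith, by linarith⟩
  · intro p hp
    obtain ⟨C, D, r, hpC, hC⟩ := hr p hp
    refine ⟨C, D, r, hpC, fun ζ hζ => ?_⟩
    obtain ⟨hΩ, c1, c2⟩ := hC hζ
    rw [xi_mul_zpow h.h1 h.h2 _ _ hΩ, xi_mul_zpow h.h1 h.h2 _ _ hΩ,
      xi_mul_zpow h.h1 h.h2 _ _ hp.1, xi_mul_zpow h.h1 h.h2 _ _ hp.1]
    have nm : |(-m.2 : ℝ)| ≤ b := by rwa [abs_neg]
    have s1 := two b1 b2 c1 c2
    have s2 := two nm b3 c1 c2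
    constructor
    · refine le_trans (le_of_eq ?_) (s1.trans hT)
      congr 1
      ring
    · refine le_trans (le_of_eq ?_) (s2.trans hT)
      congr 1
      push_cast
      ring

/- Otherwise the rings are separated by the mean value: `Lm.nest`, `Lm.up`, `Lm.down` for `w`. -/
theorem Adp.side (h : Lm Ω z1 z2 μ N a B k) (d : Adp Ω z1 z2 z w N L T k) {p q : ℂ}
    (hp : p ∈ Core Ω z1 z2 (N / 8)) (hq : q ∈ Core Ω z1 z2 (N / 8)) :
    |xi w p - xi w q| ≤ 2 * T := by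
  have key : ∀ {p q : ℂ}, p ∈ Core Ω z1 z2 (N / 8) → q ∈ Core Ω z1 z2 (N / 8) →
      xi w p - xi w q ≤ 2 * T := by
    intro p q hp hq
    by_contra hlt
    rw [not_le] at hlt
    obtain ⟨C, D, r, -, hC⟩ := d.ring p hp
    obtain ⟨C', D', r', -, hC'⟩ := d.ring q hq
    have a : ∀ ζ ∈ C', xi w ζ < (xi w p + xi w q) / 2 := fun ζ hζ => by
      have := (abs_le.1 (hC' ζ hζ).2).2
      linarith
    have b : ∀ ζ ∈ C, (xi w p + xi w q) / 2 < xi w ζ := fun ζ hζ => by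
      have := (abs_le.1 (hC ζ hζ).2).1
      linarith
    have hd : Disjoint C C' :=
      Set.disjoint_left.2 fun ζ h1 h2 => lt_asymm (a ζ h2) (b ζ h1)
    rcases h.nest r r' hd with hs | hs
    · have := h.up r r' hs d.hw d.ww a b
      linarith
    · have := h.down r' r hs d.hw d.ww b a
      linarith
  have e1 := key hp hq
  have e2 := key hq hp
  exact abs_le.2 ⟨by linarith, e1⟩

theorem Adp.order (h : Lm Ω z1 z2 μ N a B k) (d : Adp Ω z1 z2 z w N L T k) {C D C' D' : Set ℂ}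
    (r : MRing Ω z1 z2 N k C D) (r' : MRing Ω z1 z2 N k C' D') {s : ℝ}
    (a : ∀ ζ ∈ C', xi z ζ < s) (b : ∀ ζ ∈ C, s < xi z ζ) : C' ∪ D' ⊆ D := by
  have hd : Disjoint C C' :=
    Set.disjoint_left.2 fun ζ h1 h2 => lt_asymm (a ζ h2) (b ζ h1)
  rcases h.nest r r' hd with hs | hs
  · exact hs
  · have := h.down r' r hs d.hz d.wz b a
    linarith

/- `G = {|xi z| < L, |xi w| < L}` has its closure in the compact set with `≤`; on the frontier
`|xi z| = L` by `side`; `xi_mem_Icc`. -/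
theorem Adp.ends (h : Lm Ω z1 z2 μ N a B k) (d : Adp Ω z1 z2 z w N L T k) {p : ℂ} (hp : p ∈ Ω)
    (h1 : |xi z p| < L) (h2 : |xi w p| ≤ L / 2) :
    (∃ q ∈ Core Ω z1 z2 (N / 8), xi z q = L) ∧ ∃ q ∈ Core Ω z1 z2 (N / 8), xi z q = -L := by
  have T0 := d.T0
  have TL := d.TL
  have N0 := h.N0
  have cz : ContinuousOn (fun ζ => |xi z ζ|) Ω := d.hz.contDiffOn_xi.continuousOn.abs
  have cw : ContinuousOn (fun ζ => |xi w ζ|) Ω := d.hw.contDiffOn_xi.continuousOn.abs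
  have hpc : p ∈ Core Ω z1 z2 (N / 8) := d.sub p hp h1.le (by linarith)
  set G : Set ℂ := (Ω ∩ (fun ζ => |xi z ζ|) ⁻¹' Iio L) ∩ (Ω ∩ (fun ζ => |xi w ζ|) ⁻¹' Iio L)
    with hG
  have oG : IsOpen G := (cz.isOpen_inter_preimage d.hz.op isOpen_Iio).inter
    (cw.isOpen_inter_preimage d.hz.op isOpen_Iio)
  set P : Set ℂ := {ζ | ζ ∈ Ω ∧ |xi z1 ζ| ≤ N / 2 ∧ |xi z2 ζ| ≤ N / 2} with hP
  have cP : IsCompact P := h.prop
  have PΩ : P ⊆ Ω := fun ζ hζ => hζ.1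
  set K : Set ℂ := (P ∩ (fun ζ => |xi z ζ|) ⁻¹' Iic L) ∩ (P ∩ (fun ζ => |xi w ζ|) ⁻¹' Iic L)
    with hK
  have clK : IsClosed K :=
    ((cz.mono PΩ).preimage_isClosed_of_isClosed cP.isClosed isClosed_Iic).inter
      ((cw.mono PΩ).preimage_isClosed_of_isClosed cP.isClosed isClosed_Iic)
  have GK : G ⊆ K := by
    rintro ζ ⟨⟨hζ, e1⟩, -, e2⟩
    have e1' : |xi z ζ| ≤ L := le_of_lt e1
    have e2' : |xi w ζ| ≤ L := le_of_lt e2
    obtain ⟨-, c1, c2⟩ := d.sub ζ hζ e1' e2'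
    have hζP : ζ ∈ P := ⟨hζ, by linarith, by linarith⟩
    exact ⟨⟨hζP, e1'⟩, hζP, e2'⟩
  have clG : closure G ⊆ K := closure_minimal GK clK
  have bG : Bornology.IsBounded G := cP.isBounded.subset fun ζ hζ => (GK hζ).1.1
  have clΩ : closure G ⊆ Ω := fun ζ hζ => (clG hζ).1.1.1
  have pG : p ∈ G := ⟨⟨hp, h1⟩, hp, show |xi w p| < L by linarith⟩
  have fr : ∀ ζ ∈ frontier G, ζ ∈ Core Ω z1 z2 (N / 8) ∧ |xi z ζ| = L := by
    intro ζ hζ
    rw [oG.frontier_eq] at hζ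
    obtain ⟨⟨hζP, e1⟩, -, e2⟩ := clG hζ.1
    have hc := d.sub ζ hζP.1 e1 e2
    refine ⟨hc, ?_⟩
    by_contra hne
    have e1' : |xi z ζ| < L := lt_of_le_of_ne e1 hne
    have s := abs_le.1 (d.side h hc hpc)
    have s' := abs_le.1 h2
    have e2' : |xi w ζ| < L := abs_lt.2 ⟨by linarith, by linarith⟩
    exact hζ.2 ⟨⟨hζP.1, e1'⟩, hζP.1, e2'⟩
  have L0 : 0 ≤ L := by linarith
  have h1' := abs_lt.1 h1
  constructor
  · by_contra hn
    have := xi_mem_Icc d.hz bG clΩ (b := -L) (b' := -L) (fun ζ hζ => by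
      rcases (abs_eq L0).1 (fr ζ hζ).2 with e | e
      · exact absurd ⟨ζ, (fr ζ hζ).1, e⟩ hn
      · exact ⟨e.ge, e.le⟩) p (subset_closure pG)
    linarith [this.2]
  · by_contra hn
    have := xi_mem_Icc d.hz bG clΩ (b := L) (b' := L) (fun ζ hζ => by
      rcases (abs_eq L0).1 (fr ζ hζ).2 with e | e
      · exact ⟨e.ge, e.le⟩
      · exact absurd ⟨ζ, (fr ζ hζ).1, e⟩ hn) p (subset_closure pG)
    linarith [this.1]

/- Rings at the two ends, `order`, `Lm.count`; `xi_mem_Icc` on `D \ (C' ∪ D')` for `w`;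
uniqueness through the ring of the second point. -/
theorem Adp.point (h : Lm Ω z1 z2 μ N a B k) (d : Adp Ω z1 z2 z w N L T k) {p : ℂ} (hp : p ∈ Ω)
    (h1 : |xi z p| < L) (h2 : |xi w p| ≤ L / 2) {Z : ℂ} (hZ : Z ∈ Strip (L / 2)) :
    ∃ ζ ∈ Ω, z ζ = Complex.exp Z ∧ deriv z ζ ≠ 0 ∧ |xi w ζ - xi w p| ≤ 3 * T ∧
      ∀ ζ' ∈ Ω, |xi w ζ'| ≤ L → z ζ' = Complex.exp Z → ζ' = ζ := by
  have T0 := d.T0
  have TL := d.TL
  have hpc : p ∈ Core Ω z1 z2 (N / 8) := d.sub p hp h1.le (by linarith)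
  obtain ⟨⟨q, hq, eq⟩, q', hq', eq'⟩ := d.ends h hp h1 h2
  obtain ⟨C, D, r, -, hC⟩ := d.ring q hq
  obtain ⟨C', D', r', -, hC'⟩ := d.ring q' hq'
  have hZ' : -(L / 2) < Z.re ∧ Z.re < L / 2 := abs_lt.1 hZ
  have up : ∀ ζ ∈ C, 3 * L / 4 < xi z ζ := fun ζ hζ => by
    have := (abs_le.1 (hC ζ hζ).1).1
    linarith
  have lo : ∀ ζ ∈ C', xi z ζ < -(3 * L / 4) := fun ζ hζ => by
    have := (abs_le.1 (hC' ζ hζ).1).2
    linarith
  have hl : Real.log ‖Complex.exp Z‖ = Z.re := by rw [Complex.norm_exp, Real.log_exp]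
  have a : ∀ ζ ∈ C', xi z ζ < Z.re := fun ζ hζ => by linarith [lo ζ hζ]
  have b : ∀ ζ ∈ C, Z.re < xi z ζ := fun ζ hζ => by linarith [up ζ hζ]
  have hs : C' ∪ D' ⊆ D := d.order h r r' a b
  have hb : D \ D' ⊆ Ω := h.between r r'
  obtain ⟨ζ, hζ, e1, e2, e3⟩ := h.count r r' hs d.hz d.wz (Complex.exp_ne_zero Z)
    (by rw [hl]; exact a) (by rw [hl]; exact b)
  have hζΩ : ζ ∈ Ω := hb ⟨hζ.1, fun hd => hζ.2 (Or.inr hd)⟩
  refine ⟨ζ, hζΩ, e1, e2, ?_, ?_⟩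
  · have oG : IsOpen (D \ (C' ∪ D')) := r.ring.op.sdiff r'.ring.isCompact.isClosed
    have cl : closure (D \ (C' ∪ D')) ⊆ (C ∪ D) \ D' :=
      closure_minimal (fun x hx => ⟨Or.inr hx.1, fun hd => hx.2 (Or.inr hd)⟩)
        (r.ring.isCompact.isClosed.sdiff r'.ring.op)
    have clΩ : closure (D \ (C' ∪ D')) ⊆ Ω := by
      intro x hx
      rcases cl hx with ⟨hx1 | hx1, hx2⟩
      · exact (r.sub hx1).1
      · exact hb ⟨hx1, hx2⟩
    have s1 := abs_le.1 (d.side h hq hpc)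
    have s2 := abs_le.1 (d.side h hq' hpc)
    have := xi_mem_Icc d.hw (r.ring.bdd.subset sdiff_subset) clΩ (b := xi w p - 3 * T)
      (b' := xi w p + 3 * T) (fun x hx => by
        rw [oG.frontier_eq] at hx
        obtain ⟨hx1, hx2⟩ := cl hx.1
        by_cases hxC : x ∈ C
        · have := abs_le.1 (hC x hxC).2
          exact ⟨by linarith, by linarith⟩
        · have hxD : x ∈ D := hx1.resolve_left hxC
          have hxC' : x ∈ C' := by
            by_contra hn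
            exact hx.2 ⟨hxD, fun hu => hu.elim hn hx2⟩
          have := abs_le.1 (hC' x hxC').2
          exact ⟨by linarith, by linarith⟩) ζ (subset_closure hζ)
    exact abs_le.2 ⟨by linarith [this.1], by linarith [this.2]⟩
  · intro ζ' hζ' hw' hz'
    have ex : xi z ζ' = Z.re := by rw [xi, hz', hl]
    have hc : ζ' ∈ Core Ω z1 z2 (N / 8) :=
      d.sub ζ' hζ' (by rw [ex]; exact abs_le.2 ⟨by linarith, by linarith⟩) hw'
    obtain ⟨C'', D'', r'', hm, hC''⟩ := d.ring ζ' hc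
    have o1 : C'' ∪ D'' ⊆ D := d.order h r r'' (s := 3 * L / 4) (fun x hx => by
      have := (abs_le.1 (hC'' x hx).1).2
      linarith) up
    have o2 : C' ∪ D' ⊆ D'' := d.order h r'' r' (s := -(3 * L / 4)) lo (fun x hx => by
      have := (abs_le.1 (hC'' x hx).1).1
      linarith)
    exact e3 ζ' ⟨o1 (Or.inl hm), fun hd => Set.disjoint_left.1 r''.ring.dis hm (o2 (Or.inr hd))⟩ hz'

/- `σ` by choice; near `Z` it is the local inverse of `z` composed with `exp`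
(`HasStrictDerivAt.localInverse`, uniqueness). -/
theorem Adp.graph (h : Lm Ω z1 z2 μ N a B k) (d : Adp Ω z1 z2 z w N L T k) {p : ℂ} (hp : p ∈ Ω)
    (h1 : |xi z p| < L) (h2 : |xi w p| ≤ L / 2) :
    ∃ σ : ℂ → ℂ, DifferentiableOn ℂ σ (Strip (L / 2)) ∧ ∀ Z ∈ Strip (L / 2), σ Z ∈ Ω ∧
      z (σ Z) = Complex.exp Z ∧ |xi w (σ Z) - xi w p| ≤ 3 * T ∧
      ∀ ζ' ∈ Ω, |xi w ζ'| ≤ L → z ζ' = Complex.exp Z → ζ' = σ Z := by
  have T0 := d.T0
  have TL := d.TL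
  have hp' := fun Z (hZ : Z ∈ Strip (L / 2)) => d.point h hp h1 h2 hZ
  choose! σ s1 s2 s3 s4 s5 using hp'
  refine ⟨σ, fun Z hZ => ?_, fun Z hZ => ⟨s1 Z hZ, s2 Z hZ, s4 Z hZ, s5 Z hZ⟩⟩
  apply DifferentiableAt.differentiableWithinAt
  have hΩ : Ω ∈ 𝓝 (σ Z) := d.hz.op.mem_nhds (s1 Z hZ)
  have hs : HasStrictDerivAt z (deriv z (σ Z)) (σ Z) :=
    (d.hz.hol.analyticAt hΩ).hasStrictDerivAt
  set g := hs.localInverse z (deriv z (σ Z)) (σ Z) (s3 Z hZ) with hg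
  have g1 : HasStrictDerivAt g (deriv z (σ Z))⁻¹ (z (σ Z)) := hs.to_localInverse (s3 Z hZ)
  have g2 : ∀ᶠ y in 𝓝 (z (σ Z)), z (g y) = y := hs.eventually_right_inverse (s3 Z hZ)
  have g3 : g (z (σ Z)) = σ Z := (hs.eventually_left_inverse (s3 Z hZ)).self_of_nhds
  rw [s2 Z hZ] at g1 g2 g3
  have dg : DifferentiableAt ℂ (fun Y => g (Complex.exp Y)) Z :=
    g1.hasDerivAt.differentiableAt.comp Z Complex.differentiableAt_exp
  have tg : Tendsto (fun Y => g (Complex.exp Y)) (𝓝 Z) (𝓝 (σ Z)) := by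
    have := dg.continuousAt.tendsto
    rwa [g3] at this
  have cw : ContinuousAt (fun ζ => |xi w ζ|) (σ Z) :=
    (d.hw.contDiffOn_xi.continuousOn.continuousAt hΩ).abs
  have lt : |xi w (σ Z)| < L := by
    have a := abs_le.1 (s4 Z hZ)
    have b := abs_le.1 h2
    exact abs_lt.2 ⟨by linarith, by linarith⟩
  have e1 : ∀ᶠ ζ in 𝓝 (σ Z), |xi w ζ| < L := cw.eventually (gt_mem_nhds lt)
  have e2 : ∀ᶠ Y in 𝓝 Z, Y ∈ Strip (L / 2) := (strip_isOpen _).mem_nhds hZ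
  have e3 : ∀ᶠ Y in 𝓝 Z, z (g (Complex.exp Y)) = Complex.exp Y :=
    Complex.continuous_exp.continuousAt.eventually g2
  refine dg.congr_of_eventuallyEq ?_
  filter_upwards [tg.eventually e1, tg.eventually hΩ, e2, e3] with Y a b c e
  exact (s5 Y c _ b a.le e).symm

/- Primitive of `F' / F` on the convex strip (`Convex.exists_forall_hasDerivWithinAt`);
`exp ((W - e) / T)` has norm in `[1 / exp 1, exp 1]`, Cauchy's estimate on discs of radius `L / 4`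
gives `‖W'‖ ≤ 30 T / L` on `Strip (L / 2)`; the period is in `2 π i ℤ` and small. -/
theorem strip_log {F : ℂ → ℂ} {L T N δ : ℝ} {e : ℂ} (hF : HolN (Strip L) F)
    (hp : ∀ Z ∈ Strip L, F (Z + 2 * π * Complex.I) = F Z) (h0 : F 0 = Complex.exp e)
    (hb : ∀ Z ∈ Strip L, |xi F Z - e.re| ≤ T) (T0 : 0 < T) (N0 : 0 < N) (hN : 2 * N ≤ L)
    (hδ : δ ≤ 1) (hT : 30 * T * (N + 7) ≤ δ * L) :
    ∃ W : ℂ → ℂ, DifferentiableOn ℂ W (Strip N) ∧ W 0 = e ∧ ∀ Z ∈ Strip N,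
      Complex.exp (W Z) = F Z ∧ W (Z + 2 * π * Complex.I) = W Z ∧ ‖W Z - e‖ ≤ δ := by
  have L0 : 0 < L := by linarith
  obtain ⟨W, hW, W0, eW⟩ := strip_exists_log hF L0 h0
  have sub : Strip N ⊆ Strip L := fun Z hZ =>
    lt_of_lt_of_le (show |Z.re| < N from hZ) (show N ≤ L by linarith)
  have dW : DifferentiableOn ℂ W (Strip L) := fun Z hZ =>
    (hW Z hZ).differentiableAt.differentiableWithinAt
  have re : ∀ Z ∈ Strip L, |(W Z - e).re| ≤ T := fun Z hZ => by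
    have := hb Z hZ
    rwa [xi, ← eW Z hZ, Complex.norm_exp, Real.log_exp, ← Complex.sub_re] at this
  have bd : ∀ Z ∈ Strip N, ‖deriv W Z‖ ≤ 30 * T / L := fun Z hZ =>
    strip_deriv_le dW re T0 L0 (lt_of_lt_of_le (show |Z.re| < N from hZ) (by linarith))
  have mv : ∀ Z ∈ Strip N, ∀ Z' ∈ Strip N, ‖W Z' - W Z‖ ≤ 30 * T / L * ‖Z' - Z‖ :=
    fun Z hZ Z' hZ' => (strip_convex N).norm_image_sub_le_of_norm_deriv_le
      (fun Y hY => (hW Y (sub hY)).differentiableAt) bd hZ hZ'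
  have c0 : 0 ≤ 30 * T / L := by positivity
  have c1 : 30 * T / L * (N + 7) ≤ δ := by
    rw [div_mul_eq_mul_div, div_le_iff₀ L0]
    exact hT
  have c2 : 30 * T / L < 1 := by nlinarith
  have sh : ∀ Z ∈ Strip N, Z + 2 * π * Complex.I ∈ Strip N := fun Z hZ => by
    have : (Z + 2 * π * Complex.I).re = Z.re := by simp
    show |(Z + 2 * π * Complex.I).re| < N
    rw [this]
    exact hZ
  have n2 : ‖(2 * π * Complex.I : ℂ)‖ = 2 * π := by simp [abs_of_pos Real.pi_pos]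
  have per : ∀ Z ∈ Strip N, W (Z + 2 * π * Complex.I) = W Z := by
    intro Z hZ
    have e1 : Complex.exp (W (Z + 2 * π * Complex.I)) = Complex.exp (W Z) := by
      rw [eW _ (sub (sh Z hZ)), eW _ (sub hZ), hp Z (sub hZ)]
    obtain ⟨n, hn⟩ := Complex.exp_eq_exp_iff_exists_int.1 e1
    have e2 := mv Z hZ _ (sh Z hZ)
    rw [hn, add_sub_cancel_left, add_sub_cancel_left, norm_mul, n2, Complex.norm_intCast] at e2
    have e3 : |(n : ℝ)| < 1 := by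
      have := Real.pi_pos
      nlinarith
    have e4 : |n| < 1 := by exact_mod_cast e3
    have e5 : n = 0 := Int.abs_lt_one_iff.1 e4
    rw [hn, e5]
    simp
  refine ⟨W, dW.mono sub, W0, fun Z hZ => ⟨eW Z (sub hZ), per Z hZ, ?_⟩⟩
  have mem : ∀ t : ℝ, (Z.re : ℂ) + t * Complex.I ∈ Strip N := fun t => by
    have : ((Z.re : ℂ) + t * Complex.I).re = Z.re := by simp
    show |((Z.re : ℂ) + t * Complex.I).re| < N
    rw [this]
    exact hZ
  have pr : Function.Periodic (fun t : ℝ => W ((Z.re : ℂ) + t * Complex.I)) (2 * π) := by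
    intro t
    have := per _ (mem t)
    show W ((Z.re : ℂ) + ((t + 2 * π : ℝ) : ℂ) * Complex.I) = W ((Z.re : ℂ) + t * Complex.I)
    rw [← this]
    congr 1
    push_cast
    ring
  obtain ⟨t, ht, et⟩ := pr.exists_mem_Ico₀ Real.two_pi_pos Z.im
  have et' : W Z = W ((Z.re : ℂ) + t * Complex.I) := by
    have : W ((Z.re : ℂ) + Z.im * Complex.I) = W ((Z.re : ℂ) + t * Complex.I) := et
    rwa [Complex.re_add_im] at this
  have z0 : (0 : ℂ) ∈ Strip N := by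
    show |(0 : ℂ).re| < N
    simpa using N0
  have e2 := mv 0 z0 _ (mem t)
  rw [W0, sub_zero] at e2
  have e3 : ‖(Z.re : ℂ) + t * Complex.I‖ ≤ N + 7 := by
    have a := norm_add_le (Z.re : ℂ) (t * Complex.I)
    have b : ‖(Z.re : ℂ)‖ = |Z.re| := by simp
    have c : ‖(t : ℂ) * Complex.I‖ = t := by simp [abs_of_nonneg ht.1]
    have hZ' : |Z.re| < N := hZ
    have := Real.pi_lt_d2
    linarith [ht.2]
  rw [et']
  exact e2.trans ((mul_le_mul_of_nonneg_left e3 c0).trans c1)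

end Pool.Agent.Lib.MP_7ed551_gt.Cy
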