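import Pool.Agent.Lib.MP_7ed551_gt.Cy.N.Const
import Pool.Agent.Lib.MP_7ed551_gt.Cy.N.Graph
import Pool.Agent.Lib.MP_7ed551_gt.Cy.N.Gr
import Pool.Agent.Lib.MP_7ed551_gt.Cy.Iface

/-! The neck theorem. -/

open scoped ContDiff Topology
open Set Filter Metric MeasureTheory Real

noncomputable section

namespace Pool.Agent.Lib.MP_7ed551_gt.Cy

open Pool.Agent.Lib.MP_ccffa6_gt (Form1 dF pb px py JHol dens)

theorem Gr.mono {Θ P : E → E} {h : E → ℂ} {N δ δ' : ℝ} (g : Gr Θ P h N δ) (hδ : δ ≤ δ') :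
    Gr Θ P h N δ' :=
  ⟨g.sm, g.hol, g.zero, g.per1, g.per2, fun x hx => (g.small x hx).trans hδ, g.leaf, g.inj, g.imm⟩

theorem isOpen_strip (L : ℝ) : IsOpen (Strip L) :=
  isOpen_lt (continuous_abs.comp Complex.continuous_re) continuous_const

theorem Adp.exists_W {Ω : Set ℂ} {z1 z2 z w : ℂ → ℂ} {μ : ℂ → ℝ} {N a B L T N1 δ : ℝ}
    {k : ℤ × ℤ} (h : Lm Ω z1 z2 μ N a B k) (d : Adp Ω z1 z2 z w N L T k) {p e : ℂ} (hp : p ∈ Ω)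
    (h1 : z p = Complex.exp 0) (h2 : w p = Complex.exp e) (he : e ∈ Strip N1) (N0 : 0 < N1)
    (hN : 2 * N1 + 2 ≤ L / 2) (hδ : δ ≤ 1) (hT : 30 * (3 * T) * (N1 + 7) ≤ δ * (L / 2)) :
    (∃ W : ℂ → ℂ, DifferentiableOn ℂ W (Strip N1) ∧ W 0 = e ∧ ∀ Z ∈ Strip N1,
      W (Z + 2 * π * Complex.I) = W Z ∧ ‖W Z - e‖ ≤ δ ∧
        ∃ ζ ∈ Ω, z ζ = Complex.exp Z ∧ w ζ = Complex.exp (W Z)) ∧
    ∀ Z ∈ Strip N1, ∀ ζ ∈ Ω, ∀ ζ' ∈ Ω, |xi w ζ| ≤ L → |xi w ζ'| ≤ L → z ζ = Complex.exp Z →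
      z ζ' = Complex.exp Z → ζ' = ζ := by
  have T0 := d.T0
  have TL := d.TL
  have x1 : xi z p = 0 := by simp [xi, h1]
  have x2 : xi w p = e.re := by simp [xi, h2, Complex.norm_exp]
  have he' : |e.re| < N1 := he
  obtain ⟨σ, s1, s2⟩ := d.graph h hp (by rw [x1, abs_zero]; linarith) (by rw [x2]; linarith)
  have hs : Strip N1 ⊆ Strip (L / 2) := fun Z (hZ : |Z.re| < N1) =>
    hZ.trans_le (by linarith)
  have hb : ∀ Z ∈ Strip (L / 2), |xi w (σ Z)| ≤ L := fun Z hZ => by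
    have := (s2 Z hZ).2.2.1
    rw [x2] at this
    have := abs_sub_abs_le_abs_sub (xi w (σ Z)) e.re
    linarith
  have h0 : (0 : ℂ) ∈ Strip (L / 2) := hs (by simpa [Strip] using N0)
  refine ⟨?_, fun Z hZ ζ a1 ζ' a2 a3 a4 a5 a6 => ?_⟩
  · have hF : HolN (Strip (L / 2)) fun Z => w (σ Z) :=
      ⟨isOpen_strip _, d.hw.hol.comp s1 fun Z hZ => (s2 Z hZ).1,
        fun Z hZ => d.hw.ne _ (s2 Z hZ).1⟩
    obtain ⟨W, w1, w2, w3⟩ := strip_log (e := e) (T := 3 * T) (N := N1) (δ := δ) hF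
      (fun Z hZ => by
        have hZ' : Z + 2 * π * Complex.I ∈ Strip (L / 2) := by simpa [Strip] using hZ
        rw [(s2 Z hZ).2.2.2 _ (s2 _ hZ').1 (hb _ hZ')
          (by rw [(s2 _ hZ').2.1, Complex.exp_add, Complex.exp_two_pi_mul_I, mul_one])])
      (by rw [← (s2 0 h0).2.2.2 p hp (by rw [x2]; linarith) h1, h2])
      (fun Z hZ => x2 ▸ (s2 Z hZ).2.2.1) (by linarith) N0 (by linarith) hδ hT
    exact ⟨W, w1, w2, fun Z hZ => ⟨(w3 Z hZ).2.1, (w3 Z hZ).2.2, σ Z, (s2 Z (hs hZ)).1,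
      (s2 Z (hs hZ)).2.1, (w3 Z hZ).1.symm⟩⟩
  · rw [(s2 Z (hs hZ)).2.2.2 ζ a1 a3 a5, (s2 Z (hs hZ)).2.2.2 ζ' a2 a4 a6]

theorem neck_core {A : ℝ} (A0 : 0 < A) (k : ℤ × ℤ) : ∃ κ : ℝ, 0 < κ ∧ ∀ N1 δ Nm : ℝ, 0 < N1 →
    0 < δ → ∃ N : ℝ, Nm ≤ N ∧ 0 < N ∧ ∀ (Λ : Form1 E) (J : E → E →L[ℝ] E) (Θ Ψ P X : E → E) (a c : ℝ),
      ContDiff ℝ ∞ Λ → 0 < c → Cht J Θ N → Can Λ Θ N c a k → Fol J Ψ P → Inv J Θ N X →
      (∀ l, ∃ μ, Lm (Om Θ Ψ N l) (fun ζ => (X (Ψ (ζ, l))).1) (fun ζ => (X (Ψ (ζ, l))).2)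
        μ N a (A * N) k) →
      ∃ (p q r s : ℤ) (h : E → ℂ), p * s - q * r = 1 ∧
        Cht J (fun Z => Θ (lin p q r s Z)) (N1 + 1) ∧
        Slope Λ (fun Z => Θ (lin p q r s Z)) (N1 + 1) κ ∧
        Gr (fun Z => Θ (lin p q r s Z)) P h N1 δ := by
  obtain ⟨M, M0, hM⟩ := cls_bound
  obtain ⟨c₀, c0, hc₀⟩ := exists_ring
  obtain ⟨b, b1, b2, b3, b4⟩ : ∃ b : ℝ, 1 ≤ b ∧ M * A ≤ b ∧ |(k.1 : ℝ)| ≤ b ∧ |(k.2 : ℝ)| ≤ b :=
    ⟨max (max 1 (M * A)) (max |(k.1 : ℝ)| |(k.2 : ℝ)|),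
      (le_max_left _ _).trans (le_max_left _ _), (le_max_right _ _).trans (le_max_left _ _),
      (le_max_left _ _).trans (le_max_right _ _), (le_max_right _ _).trans (le_max_right _ _)⟩
  have b0 : 0 < b := by linarith
  refine ⟨1 / (100 * b ^ 2), by positivity, fun N1 δ Nm n0 d0 => ?_⟩
  obtain ⟨N, ρ, Nm0, N0, ρ0, q1, q2, q3, q4, q5⟩ := exists_consts (N1 := N1) Nm A0 c0 b1
    (lt_min d0 one_half_pos)
  refine ⟨N, Nm0, N0, fun Λ J Θ Ψ P X a c hΛ hc0 hC hc hF hX hL => ?_⟩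
  have hr := fun l p hp => (hL l).elim fun μ hμ => hc₀ _ _ _ μ N a _ k p ρ hμ hp ρ0 q2 q1
  obtain ⟨m, hm⟩ := exists_cls_const hF hX hC.sm.continuous N0 hL fun l p hp =>
    (hr l p hp).imp fun C h => h.imp fun D h => h.1
  have h0 : (0 : E) ∈ Box (N / 8) := by
    constructor <;> simp [N0]
  have hd := (hm 0 h0).1
  obtain ⟨b5, b6⟩ : |(m.1 : ℝ)| ≤ b ∧ |(m.2 : ℝ)| ≤ b := by
    have hp := hX.base_core hF (by linarith) h0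
    obtain ⟨μ, hμ⟩ := hL (P (Θ 0)).2
    obtain ⟨C, D, a1, -, a2⟩ := hr _ _ hp
    have a3 := hM _ _ _ μ N a _ k m C D hμ a1 (a2.trans (hμ.cell hp q2).2) (hm 0 h0)
    have a4 : M * (A * N) / N = M * A := by field_simp
    rw [a4] at a3
    exact ⟨a3.1.trans b2, a3.2.trans b2⟩
  have b7 : |((-k.2 : ℤ) : ℝ)| ≤ b := by rwa [Int.cast_neg, abs_neg]
  have q6 : 2 * b * (N1 + 1) < N / 8 := by
    rw [le_div_iff₀ (by positivity), le_div_iff₀ (by positivity)] at q4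
    linarith
  have l8 : ∀ Z ∈ Box (N1 + 1), lin m.1 (-k.2) m.2 k.1 Z ∈ Box (N / 8) := fun Z hZ =>
    lin_mem_box b5 b7 b6 b3 q6 hZ
  have l1 : ∀ Z ∈ Box (N1 + 1), lin m.1 (-k.2) m.2 k.1 Z ∈ Box N := fun Z hZ =>
    box_mono (by linarith) (l8 Z hZ)
  have hdet : m.1 * k.1 - -k.2 * m.2 = 1 := by linear_combination hd
  have hC' := hC.lin hdet l1
  have key := fun (e' : ℂ) (he : e' ∈ Strip N1) => by
    have z0 : ((0 : ℂ), e') ∈ Box (N1 + 1) :=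
      ⟨by simpa using by linarith, lt_trans he (by linarith)⟩
    have hμ := (hL (P (Θ (lin m.1 (-k.2) m.2 k.1 (0, e')))).2).choose_spec
    have d := hμ.adp (hm _ (l8 _ z0)) b3 b4 b5 b6 (hr _) le_rfl (by positivity) q3
      (by field_simp; linarith)
    have a := hX.adp_base hF hd (l1 _ z0) rfl
    exact d.exists_W hμ a.1 a.2.1 a.2.2 he n0 q4 ((min_le_right _ _).trans (by norm_num)) q5
  obtain ⟨h, hh⟩ := gr_of hF hC' n0 (min_le_right δ _) (fun e' he => by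
      obtain ⟨W, w1, w2, w3⟩ := (key e' he).1
      refine ⟨W, w1, w2, fun Z hZ => ⟨(w3 Z hZ).1, (w3 Z hZ).2.1, ?_⟩⟩
      obtain ⟨ζ, a1, a2, a3⟩ := (w3 Z hZ).2.2
      rw [hX.adp_point hC hd (Z := (Z, W Z)) a1 a2 a3, hF.left])
    (fun e' he Z hZ W hW W' hW' a1 a2 => by
      have hZ' : |Z.re| < N1 + 1 := lt_trans hZ (by linarith)
      have c1 := hX.adp_base hF hd (l1 (Z, W) ⟨hZ', hW⟩) rfl
      have c2 := hX.adp_base hF hd (l1 (Z, W') ⟨hZ', hW'⟩) rfl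
      rw [a1] at c1
      rw [a2] at c2
      have hW1 : |W.re| < N1 + 1 := hW
      have hW2 : |W'.re| < N1 + 1 := hW'
      have c3 := (key e' he).2 Z hZ _ c1.1 _ c2.1
        (by simp only [xi, c1.2.2, Complex.norm_exp, Real.log_exp]; linarith)
        (by simp only [xi, c2.2.2, Complex.norm_exp, Real.log_exp]; linarith) c1.2.1 c2.2.1
      have c4 := c2.2.2
      simp only at c3 c4
      rw [c3, c1.2.2] at c4
      obtain ⟨n, hn⟩ := Complex.exp_eq_exp_iff_exists_int.mp c4.symm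
      exact ⟨n, by rw [hn]; ring⟩)
  exact ⟨m.1, -k.2, m.2, k.1, h, hdet, hC',
    hc.slope hΛ hC.sm hc0 hdet b5 b7 b6 b3 l1, hh.mono (min_le_left _ _)⟩

theorem neck : NeckStmt := by
  intro a e R0 k a0 e0 r0 r1
  obtain ⟨R1, r2, r3⟩ : ∃ R1 : ℝ, R0 < R1 ∧ π * R1 ^ 2 < 2 * a := by
    have h2 : ∀ᶠ R in 𝓝[>] R0, π * R ^ 2 < 2 * a := nhdsWithin_le_nhds
      ((by fun_prop : Continuous fun R : ℝ => π * R ^ 2).continuousAt.eventually_lt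
        continuousAt_const r1)
    obtain ⟨R, a1, a2⟩ := (h2.and self_mem_nhdsWithin).exists
    exact ⟨R, a2, a1⟩
  have A0 : 0 < π * R1 ^ 2 / e := by
    have : 0 < R1 := r0.trans r2
    positivity
  obtain ⟨κ, k0, hκ⟩ := neck_core A0 k
  refine ⟨κ, k0, fun N1 δ n0 d0 => ?_⟩
  obtain ⟨N, -, N0, hN⟩ := hκ N1 δ 0 n0 d0
  refine ⟨N, N0, fun Λ J K Θ Ψ P hA hK hC hc hb hF => ?_⟩
  obtain ⟨X, hX⟩ := hC.exists_inv
  refine hN Λ J Θ Ψ P X a _ hA.smΛ (div_pos e0 N0) hC hc hF hX fun l => ?_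
  have hB : π * R1 ^ 2 / (e / N) = π * R1 ^ 2 / e * N := by field_simp
  obtain ⟨S, p, q, h⟩ := exists_lf hA hK hC hc hb hF hX r0 r2 l
  exact hB ▸ h.exists_lm N0 (div_pos e0 N0) a0 r3

end Pool.Agent.Lib.MP_7ed551_gt.Cy
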