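import Pool.Agent.Lib.MP_7ed551_gt.Cy.N.Wn1
import Pool.Agent.Lib.MP_7ed551_gt.Cy.B.CT

/-! Logarithms near a compact set with connected complement. -/

open scoped ContDiff Topology
open Set Filter Metric MeasureTheory Real

noncomputable section

namespace Pool.Agent.Lib.MP_7ed551_gt.Cy

open Pool.Agent.Lib.MP_ccffa6_gt (Form1 dF pb px py JHol dens)

/-- `h` has a primitive near `X`. -/
def Prim (X : Set ℂ) (h : ℂ → ℂ) : Prop :=
  ∃ (V : Set ℂ) (H : ℂ → ℂ), IsOpen V ∧ X ⊆ V ∧ ∀ ζ ∈ V, HasDerivAt H (h ζ) ζ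

theorem Prim.add {X : Set ℂ} {h h' : ℂ → ℂ} (a : Prim X h) (b : Prim X h') :
    Prim X fun ζ => h ζ + h' ζ := by
  obtain ⟨V, H, h1, h2, h3⟩ := a
  obtain ⟨V', H', h1', h2', h3'⟩ := b
  exact ⟨V ∩ V', H + H', h1.inter h1', subset_inter h2 h2',
    fun ζ hζ => (h3 ζ hζ.1).add (h3' ζ hζ.2)⟩

theorem Prim.const_mul {X : Set ℂ} {h : ℂ → ℂ} (a : Prim X h) (c : ℂ) :
    Prim X fun ζ => c * h ζ := by
  obtain ⟨V, H, h1, h2, h3⟩ := a
  exact ⟨V, fun ζ => c * H ζ, h1, h2, fun ζ hζ => (h3 ζ hζ).const_mul c⟩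

theorem Prim.congr {X V : Set ℂ} {h h' : ℂ → ℂ} (a : Prim X h) (hV : IsOpen V) (hX : X ⊆ V)
    (he : EqOn h' h V) : Prim X h' := by
  obtain ⟨V', H, h1, h2, h3⟩ := a
  exact ⟨V' ∩ V, H, h1.inter hV, subset_inter h2 hX, fun ζ hζ => he hζ.2 ▸ h3 ζ hζ.1⟩

theorem log_slit {s s' ζ : ℂ} (h : ‖s' - s‖ < ‖ζ - s‖) :
    1 - (s' - s) / (ζ - s) ∈ Complex.slitPlane := by
  rw [sub_eq_add_neg]
  refine Complex.mem_slitPlane_of_norm_lt_one ?_
  rwa [norm_neg, norm_div, div_lt_one ((norm_nonneg _).trans_lt h)]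

theorem log_deriv {s s' ζ : ℂ} (h : ‖s' - s‖ < ‖ζ - s‖) :
    HasDerivAt (fun ζ => Complex.log (1 - (s' - s) / (ζ - s))) ((ζ - s')⁻¹ - (ζ - s)⁻¹) ζ := by
  have h0 : ζ - s ≠ 0 := norm_pos_iff.1 ((norm_nonneg _).trans_lt h)
  have h1 : ζ - s' ≠ 0 := fun e => h.ne (by rw [sub_eq_zero.1 e])
  refine ((((hasDerivAt_const ζ (s' - s)).div ((hasDerivAt_id ζ).sub_const s) h0).const_sub
    1).clog (log_slit h)).congr_deriv ?_
  have h2 : 1 - (s' - s) / (ζ - s) = (ζ - s') / (ζ - s) := by field_simp; ring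
  simp only [Pi.div_apply, id, h2]
  field_simp
  ring

theorem log_prim_sub {X : Set ℂ} {s s' : ℂ} (h : ∀ ζ ∈ X, ‖s' - s‖ < ‖ζ - s‖) :
    Prim X fun ζ => (ζ - s')⁻¹ - (ζ - s)⁻¹ :=
  ⟨{ζ | ‖s' - s‖ < ‖ζ - s‖}, _, isOpen_lt continuous_const (by fun_prop), h,
    fun _ hζ => log_deriv hζ⟩

/- Locally constant in `s`: `log (1 - (s' - s) / (ζ - s))` has derivative
`(ζ - s')⁻¹ - (ζ - s)⁻¹` where `‖s' - s‖ < ‖ζ - s‖`; true for large `s` by `log (1 - ζ / s)`;
`IsPreconnected.induction₂'` or `isClopen`. -/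
theorem prim_inv {X : Set ℂ} (hX : IsCompact X) (hc : IsPreconnected Xᶜ) {s : ℂ} (hs : s ∉ X) :
    Prim X fun ζ => (ζ - s)⁻¹ := by
  obtain ⟨R, hR, h1⟩ := hX.isBounded.subset_ball_lt 0 0
  have h0 : (R : ℂ) ≠ 0 := Complex.ofReal_ne_zero.2 hR.ne'
  have hn : ‖(R : ℂ)‖ = R := by rw [Complex.norm_real, Real.norm_of_nonneg hR.le]
  have h2 : (R : ℂ) ∈ Xᶜ := fun h => by simpa [hR.le, abs_of_pos hR] using h1 h
  have h3 : Prim X fun ζ => (ζ - R)⁻¹ := by
    refine ⟨ball 0 R, fun ζ => Complex.log (1 + -(ζ / R)), isOpen_ball, h1, fun ζ hζ => ?_⟩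
    have h4 := mem_ball_zero_iff.1 hζ
    have h5 : ζ - R ≠ 0 := fun e => h4.ne (by rw [sub_eq_zero.1 e, hn])
    refine ((((hasDerivAt_id ζ).div_const (R : ℂ)).neg.const_add 1).clog
      (Complex.mem_slitPlane_of_norm_lt_one ?_)).congr_deriv ?_
    · rwa [Pi.neg_apply, id, norm_neg, norm_div, hn, div_lt_one hR]
    · have h6 : 1 + -(ζ / R) = -(ζ - R) / R := by field_simp; ring
      simp only [Pi.neg_apply, id, h6]
      field_simp
  refine hc.induction₂' (fun s s' => (Prim X fun ζ => (ζ - s)⁻¹) → Prim X fun ζ => (ζ - s')⁻¹)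
    (fun x hx => ?_) (fun _ _ _ _ _ _ a b => b ∘ a) h2 hs h3
  obtain ⟨ε, hε, h4⟩ := Metric.isOpen_iff.1 hX.isClosed.isOpen_compl x hx
  refine mem_nhdsWithin_of_mem_nhds (mem_of_superset (ball_mem_nhds x hε) fun y hy => ?_)
  have h5 := log_prim_sub (X := X) (s := x) (s' := y) fun ζ hζ =>
    (mem_ball_iff_norm.1 hy).trans_le (not_lt.1 fun h => h4 (mem_ball_iff_norm.2 h) hζ)
  exact ⟨fun h => by simpa using h5.add h, fun h => by simpa using (h5.const_mul (-1)).add h⟩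

/- Differentiate `∫ s in T, φ s * log (1 - (s - s₀) / (ζ - s₀))` under the integral on
`{ζ | 2 r < ‖ζ - s₀‖}`. -/
theorem prim_ball {X : Set ℂ} (hX : IsCompact X) (hc : IsPreconnected Xᶜ) {s₀ : ℂ} {r : ℝ}
    (hr : 0 < r) (hd : Disjoint (closedBall s₀ (2 * r)) X) {φ : ℂ → ℂ} (hφ : Integrable φ)
    {T : Set ℂ} (hT : MeasurableSet T) (hs : T ⊆ ball s₀ r) :
    Prim X fun ζ => ∫ s in T, (ζ - s)⁻¹ * φ s := by
  set U := (closedBall s₀ (2 * r))ᶜ
  have hU : IsOpen U := isClosed_closedBall.isOpen_compl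
  have hX' : X ⊆ U := hd.subset_compl_left
  have h1 : ∀ ζ ∈ U, 2 * r < ‖ζ - s₀‖ := fun ζ hζ =>
    not_le.1 fun h => hζ (mem_closedBall_iff_norm.2 h)
  have h2 : ∀ ζ ∈ U, ∀ s ∈ closedBall s₀ r, ‖s - s₀‖ < ‖ζ - s₀‖ := fun ζ hζ s hs => by
    linarith [h1 ζ hζ, mem_closedBall_iff_norm.1 hs]
  have h3 : ∀ ζ ∈ U, ∀ s ∈ closedBall s₀ r, r ≤ ‖ζ - s‖ := fun ζ hζ s hs => by
    linarith [h1 ζ hζ, mem_closedBall_iff_norm.1 hs, norm_sub_le_norm_sub_add_norm_sub ζ s s₀]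
  have hs' := hs.trans ball_subset_closedBall
  have i1 : ∀ ζ ∈ U, IntegrableOn (fun s => (ζ - s)⁻¹ * φ s) T := fun ζ hζ =>
    hφ.integrableOn.continuousOn_mul_of_subset ((continuousOn_const.sub continuousOn_id).inv₀
      fun s hs => norm_pos_iff.1 (hr.trans_le (h3 ζ hζ s hs))) (isCompact_closedBall s₀ r) hT hs'
  have i2 : ∀ ζ ∈ U, IntegrableOn (fun s => Complex.log (1 - (s - s₀) / (ζ - s₀)) * φ s) T :=
    fun ζ hζ => hφ.integrableOn.continuousOn_mul_of_subset (ContinuousOn.clog (by fun_prop)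
      fun s hs => log_slit (h2 ζ hζ s hs)) (isCompact_closedBall s₀ r) hT hs'
  have i3 : ∀ ζ, IntegrableOn (fun s => (ζ - s₀)⁻¹ * φ s) T := fun ζ =>
    hφ.integrableOn.const_mul _
  have h4 : Prim X fun ζ => ∫ s in T, ((ζ - s)⁻¹ * φ s - (ζ - s₀)⁻¹ * φ s) := by
    refine ⟨U, fun ζ => ∫ s in T, Complex.log (1 - (s - s₀) / (ζ - s₀)) * φ s, hU, hX',
      fun ζ hζ => (hasDerivAt_integral_of_dominated_loc_of_deriv_le (hU.mem_nhds hζ)
        (F' := fun ζ s => (ζ - s)⁻¹ * φ s - (ζ - s₀)⁻¹ * φ s) (bound := fun s => 2 * r⁻¹ * ‖φ s‖)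
        (mem_of_superset (hU.mem_nhds hζ) fun x hx => (i2 x hx).aestronglyMeasurable) (i2 ζ hζ)
        ((i1 ζ hζ).sub (i3 ζ)).aestronglyMeasurable ?_ (hφ.integrableOn.norm.const_mul _) ?_).2⟩
    · refine (ae_restrict_iff' hT).2 (Eventually.of_forall fun s hs x hx => ?_)
      rw [← sub_mul, norm_mul]
      refine mul_le_mul_of_nonneg_right ((norm_sub_le _ _).trans ?_) (norm_nonneg _)
      rw [norm_inv, norm_inv]
      linarith [inv_anti₀ hr (h3 x hx s (hs' hs)), inv_anti₀ hr (h3 x hx s₀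
        (mem_closedBall_self hr.le))]
    · refine (ae_restrict_iff' hT).2 (Eventually.of_forall fun s hs x hx => ?_)
      rw [← sub_mul]
      exact (log_deriv (h2 x hx s (hs' hs))).mul_const _
  refine (h4.add ((prim_inv hX hc (s := s₀) fun h =>
    hX' h (mem_closedBall_self (by linarith))).const_mul (∫ s in T, φ s))).congr hU hX'
    fun ζ hζ => ?_
  simp only [integral_sub (i1 ζ hζ) (i3 ζ), integral_const_mul]
  ring

/- `IsCompact.induction_on` with the property: the set lies in a measurable set `S'` at positive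
distance from `X` such that the claim holds for all measurable `T ⊆ S'`. -/
theorem prim_cpt {X K : Set ℂ} (hX : IsCompact X) (hc : IsPreconnected Xᶜ) (hK : IsCompact K)
    (hd : Disjoint K X) {φ : ℂ → ℂ} (hφ : Integrable φ) :
    Prim X fun ζ => ∫ s in K, (ζ - s)⁻¹ * φ s := by
  obtain ⟨S, -, h1, h2⟩ := hK.induction_on (p := fun S => ∃ S', MeasurableSet S' ∧ S ⊆ S' ∧
      ∀ T ⊆ S', T ⊆ K → MeasurableSet T → Prim X fun ζ => ∫ s in T, (ζ - s)⁻¹ * φ s)
    ⟨∅, MeasurableSet.empty, Subset.rfl, fun T h _ _ => ⟨univ, fun _ => 0, isOpen_univ,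
      subset_univ _, fun ζ _ => by simpa [subset_empty_iff.1 h] using hasDerivAt_const ζ (0 : ℂ)⟩⟩
    (fun _ _ h ⟨S, a, b, c⟩ => ⟨S, a, h.trans b, c⟩)
    (fun _ _ ⟨S, a, b, c⟩ ⟨S', a', b', c'⟩ => ⟨S ∪ S', a.union a', union_subset_union b b',
      fun T h1 h2 h3 => ((c (T ∩ S) inter_subset_right (inter_subset_left.trans h2)
        (h3.inter a)).add (c' (T \ S) (sdiff_subset_iff.2 h1) (sdiff_subset.trans h2)
        (h3.diff a))).congr hK.isClosed.isOpen_compl hd.subset_compl_left fun ζ hζ =>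
        (integral_inter_add_sdiff a (hφ.integrableOn.continuousOn_mul_of_subset
          ((continuousOn_const.sub continuousOn_id).inv₀
            fun s hs (e : ζ - s = 0) => hζ (sub_eq_zero.1 e ▸ hs)) hK h3 h2)).symm⟩)
    (fun x hx => by
      obtain ⟨ε, hε, h⟩ := Metric.isOpen_iff.1 hX.isClosed.isOpen_compl x
        (hd.subset_compl_right hx)
      exact ⟨ball x (ε / 3), mem_nhdsWithin_of_mem_nhds (ball_mem_nhds x (by linarith)), _,
        measurableSet_ball, Subset.rfl, fun T h1 _ h3 => prim_ball hX hc (by linarith)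
          (subset_compl_iff_disjoint_right.1 ((closedBall_subset_ball (by linarith)).trans h))
          hφ h3 h1⟩)
  exact h2 K h1 Subset.rfl hK.measurableSet

theorem log_prim_hol {X V : Set ℂ} (hX : IsCompact X) (hc : IsPreconnected Xᶜ) {h : ℂ → ℂ}
    (ho : IsOpen V) (hh : DifferentiableOn ℂ h V) (hV : X ⊆ V) : Prim X h := by
  obtain ⟨R, h1⟩ := hX.isBounded.subset_ball 0
  obtain ⟨χ, h2, h3, -⟩ := exists_contMDiffMap_zero_one_nhds_of_isClosed (n := 1)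
    (modelWithCornersSelf ℝ ℂ) (ho.inter isOpen_ball).isClosed_compl hX.isClosed
    (disjoint_compl_left_iff_subset.2 (subset_inter hV h1))
  have hχ : ContDiff ℝ 1 χ := χ.contMDiff.contDiff
  set q : ℂ → ℂ := fun ζ => (χ ζ : ℂ) * h ζ with hq
  have h4 : ∀ ζ, ζ ∉ V ∩ ball 0 R → q =ᶠ[𝓝 ζ] 0 := fun ζ hζ =>
    (h2.filter_mono (nhds_le_nhdsSet hζ)).mono fun w hw => by simp [hq, hw]
  have h5 : tsupport q ⊆ V ∩ ball 0 R := fun ζ hζ => by
    by_contra hn
    exact notMem_tsupport_iff_eventuallyEq.2 (h4 ζ hn) hζ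
  have h6 : HasCompactSupport q := (isCompact_closedBall 0 R).of_isClosed_subset isClosed_closure
    (h5.trans (inter_subset_right.trans ball_subset_closedBall))
  have h7 : ContDiff ℝ 1 q := contDiff_iff_contDiffAt.2 fun ζ => by
    by_cases hζ : ζ ∈ V
    · exact (Complex.ofRealCLM.contDiff.comp hχ).contDiffAt.mul
        (((hh.analyticAt (ho.mem_nhds hζ)).contDiffAt (n := 1)).restrict_scalars ℝ)
    · exact contDiffAt_const.congr_of_eventuallyEq (h4 ζ fun e => hζ e.1)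
  obtain ⟨W, hW, h8, h9⟩ := mem_nhdsSet_iff_exists.1 (h3.and (ho.mem_nhdsSet.2 hV))
  have h10 : EqOn h q W := fun ζ hζ => by simp [hq, (h9 hζ).1]
  have h11 : ∀ s, s ∉ tsupport q \ W → dbar q s = 0 := fun s hs => by
    refine dbar_of_differentiableAt ?_
    by_cases h : s ∈ W
    · exact (hh.differentiableAt (ho.mem_nhds (h9 h).2)).congr_of_eventuallyEq
        (h10.symm.eventuallyEq_of_mem (hW.mem_nhds h))
    · exact (differentiableAt_const 0).congr_of_eventuallyEq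
        (notMem_tsupport_iff_eventuallyEq.1 fun e => hs ⟨e, h⟩)
  have h12 : Continuous (dbar q) := by
    have := h7.continuous_fderiv one_ne_zero
    unfold dbar px py
    fun_prop
  have h13 : Integrable (dbar q) := h12.integrable_of_hasCompactSupport
    (HasCompactSupport.intro h6 fun s hs => h11 s fun e => hs e.1)
  refine ((prim_cpt hX hc (h6.diff hW) (disjoint_sdiff_left.mono_right h8) h13).const_mul
    (π : ℂ)⁻¹).congr hW h8 fun ζ hζ => ?_
  rw [h10 hζ, ← cT_dbar h7 h6, cT_eq]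
  beta_reduce
  rw [setIntegral_eq_integral_of_forall_compl_eq_zero fun s hs => by rw [h11 s hs, mul_zero],
    ← integral_const_mul]
  simp only [mul_inv, mul_assoc]

/- `χ = 1` near `X`, supported in `V`; `q = χ f' / f`; `cT_dbar`, `cT_eq`; `dbar q` vanishes off the
compact set `Kd χ`.  With a primitive `H`, `f exp (-H)` is locally constant and
`L = H + log (f exp (-H))`. -/
theorem exists_log_near {X V : Set ℂ} (hX : IsCompact X) (hc : IsPreconnected Xᶜ) {f : ℂ → ℂ}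
    (hf : HolN V f) (hV : X ⊆ V) : ∃ (V' : Set ℂ) (L : ℂ → ℂ), IsOpen V' ∧ X ⊆ V' ∧ V' ⊆ V ∧
      DifferentiableOn ℂ L V' ∧ ∀ ζ ∈ V', f ζ = Complex.exp (L ζ) := by
  obtain ⟨W, H, h1, h2, h3⟩ := log_prim_hol hX hc hf.op hf.logd hV
  have ho := h1.inter hf.op
  have h4 : ∀ ζ ∈ W ∩ V, HasDerivAt (fun ζ => f ζ * Complex.exp (-H ζ)) 0 ζ := fun ζ hζ => by
    refine (((hf.hol.differentiableAt (hf.op.mem_nhds hζ.2)).hasDerivAt).mul
      (h3 ζ hζ.1).neg.cexp).congr_deriv ?_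
    have := hf.ne ζ hζ.2
    simp only [Pi.neg_apply]
    field_simp
    ring
  refine ⟨W ∩ V, fun ζ => H ζ + Complex.log (f ζ * Complex.exp (-H ζ)), ho, subset_inter h2 hV,
    inter_subset_right, fun ζ hζ => DifferentiableAt.differentiableWithinAt ?_, fun ζ hζ => ?_⟩
  · obtain ⟨ε, hε, h5⟩ := Metric.isOpen_iff.1 ho ζ hζ
    refine ((h3 ζ hζ.1).differentiableAt.add_const
      (Complex.log (f ζ * Complex.exp (-H ζ)))).congr_of_eventuallyEq
      (mem_of_superset (ball_mem_nhds ζ hε) fun w hw => ?_)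
    exact congrArg (fun u => H w + Complex.log u) (isOpen_ball.is_const_of_deriv_eq_zero
      (convex_ball ζ ε).isPreconnected
      (fun u hu => (h4 u (h5 hu)).differentiableAt.differentiableWithinAt)
      (fun u hu => (h4 u (h5 hu)).deriv) hw (mem_ball_self hε))
  · rw [Complex.exp_add, Complex.exp_log (mul_ne_zero (hf.ne ζ hζ.2) (Complex.exp_ne_zero _)),
      mul_left_comm, ← Complex.exp_add, add_neg_cancel, Complex.exp_zero, mul_one]

end Pool.Agent.Lib.MP_7ed551_gt.Cy
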