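import Pool.Agent.Lib.MP_7ed551_gt.Cy.N.Wn2

/-! The argument principle and the monotonicity inequality. -/

open scoped ContDiff Topology
open Set Filter Metric MeasureTheory Real

noncomputable section

namespace Pool.Agent.Lib.MP_7ed551_gt.Cy

open Pool.Agent.Lib.MP_ccffa6_gt (Form1 dF pb px py JHol dens)

variable {χ : ℂ → ℝ} {f g : ℂ → ℂ} {U : Set ℂ}

/- `ap_vec` with `g = 0`. -/
theorem ap0 (h : Bmp χ) (h0 : ∀ ζ, 0 ≤ χ ζ) (hU : IsOpen U) (hK : tsupport χ ⊆ U)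
    (hf : DifferentiableOn ℂ f U) (hn : ∀ ζ ∈ Kd χ, f ζ ≠ 0) : 0 ≤ wn χ f := by
  have h1 := ap_vec (g := fun _ => (0 : ℂ)) h h0 hU hK hf (differentiableOn_const 0)
    (fun ζ hζ => Or.inl (hn ζ hζ))
  have e : ∀ ζ, (deriv f ζ * (starRingEnd ℂ) (f ζ) +
      deriv (fun _ : ℂ => (0 : ℂ)) ζ * (starRingEnd ℂ) 0) /
      ((‖f ζ‖ ^ 2 + ‖(0 : ℂ)‖ ^ 2 : ℝ) : ℂ) = deriv f ζ / f ζ := fun ζ => by
    rw [map_zero, mul_zero, add_zero, norm_zero, div_eq_mul_inv (deriv f ζ), Complex.inv_def,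
      Complex.normSq_eq_norm_sq]
    push_cast
    ring
  simp only [e] at h1
  unfold wn
  have : 0 < (2 * π)⁻¹ := by positivity
  nlinarith

theorem Wn3_fac (f : ℂ → ℂ) (p ζ : ℂ) : f ζ - f p = (ζ - p) * dslope f p ζ := by
  rw [← sub_smul_dslope, smul_eq_mul]

theorem Wn3_split (h : Bmp χ) (hU : IsOpen U) (hK : tsupport χ ⊆ U)
    (hf : DifferentiableOn ℂ f U) (hn : ∀ ζ ∈ Kd χ, f ζ ≠ 0) {p : ℂ} (hp : p ∈ U)
    (hz : f p = 0) : DifferentiableOn ℂ (dslope f p) U ∧ (∀ ζ ∈ Kd χ, dslope f p ζ ≠ 0) ∧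
      wn χ f = χ p + wn χ (dslope f p) := by
  have hF : DifferentiableOn ℂ (dslope f p) U :=
    (Complex.differentiableOn_dslope (hU.mem_nhds hp)).2 hf
  have e : ∀ ζ, f ζ = (ζ - p) * dslope f p ζ := fun ζ => by rw [← Wn3_fac, hz, sub_zero]
  have hV : IsOpen (U ∩ f ⁻¹' {0}ᶜ) :=
    hf.continuousOn.isOpen_inter_preimage hU isOpen_compl_singleton
  have hKV : Kd χ ⊆ U ∩ f ⁻¹' {0}ᶜ := fun ζ hζ => ⟨hK (kd_subset hζ), hn ζ hζ⟩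
  have a1 : HolN (U ∩ f ⁻¹' {0}ᶜ) fun ζ => ζ - p :=
    ⟨hV, by fun_prop, fun ζ hζ h0 => hζ.2 (by
      show f ζ = 0
      rw [e, h0, zero_mul])⟩
  have a2 : HolN (U ∩ f ⁻¹' {0}ᶜ) (dslope f p) :=
    ⟨hV, hF.mono inter_subset_left, fun ζ hζ h0 => hζ.2 (by
      show f ζ = 0
      rw [e, h0, mul_zero])⟩
  refine ⟨hF, fun ζ hζ => a2.ne ζ (hKV hζ), ?_⟩
  rw [← wn_lin h p, ← wn_mul h a1 a2 hKV]
  exact congrArg (wn χ) (funext e)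

/- `f = (ζ - p) * dslope f p`, `wn_mul` on the open set `U ∩ {f ≠ 0}`, `wn_lin`, `ap0`. -/
theorem ap1 (h : Bmp χ) (h0 : ∀ ζ, 0 ≤ χ ζ) (hU : IsOpen U) (hK : tsupport χ ⊆ U)
    (hf : DifferentiableOn ℂ f U) (hn : ∀ ζ ∈ Kd χ, f ζ ≠ 0) {p : ℂ} (hp : p ∈ U)
    (hz : f p = 0) : χ p ≤ wn χ f := by
  obtain ⟨h1, h2, h3⟩ := Wn3_split h hU hK hf hn hp hz
  have := ap0 h h0 hU hK h1 h2
  linarith

/- The same with `ap1` for `dslope f p`, which vanishes at `q`. -/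
theorem ap2 (h : Bmp χ) (h0 : ∀ ζ, 0 ≤ χ ζ) (hU : IsOpen U) (hK : tsupport χ ⊆ U)
    (hf : DifferentiableOn ℂ f U) (hn : ∀ ζ ∈ Kd χ, f ζ ≠ 0) {p q : ℂ} (hp : p ∈ U) (hq : q ∈ U)
    (hz : f p = 0) (hz' : f q = 0) (hpq : p = q → deriv f p = 0) : χ p + χ q ≤ wn χ f := by
  obtain ⟨h1, h2, h3⟩ := Wn3_split h hU hK hf hn hp hz
  have h4 : dslope f p q = 0 := by
    by_cases e : p = q
    · rw [← e, dslope_same, hpq e]
    · have := Wn3_fac f p q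
      rw [hz, hz', sub_zero] at this
      exact (mul_eq_zero.1 this.symm).resolve_left (sub_ne_zero.2 (Ne.symm e))
  have := ap1 h h0 hU hK h1 h2 hq h4
  linarith

theorem Wn3_b : ∃ (b : ℝ → ℝ) (M : ℝ), 0 < M ∧ ContDiff ℝ ∞ b ∧ (∀ t, 0 ≤ b t) ∧
    (∀ t, t ≤ 1 / 4 → b t = 1) ∧ (∀ t, 1 ≤ t → b t = 0) ∧
    ∀ t ∈ Icc (0 : ℝ) 1, |deriv b t| ≤ M := by
  have hb : ContDiff ℝ ∞ fun t : ℝ => Real.smoothTransition (3 / 2 - 2 * t) :=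
    Real.smoothTransition.contDiff.comp (by fun_prop)
  obtain ⟨M, hM⟩ := (isCompact_Icc (a := (0 : ℝ)) (b := 1)).exists_bound_of_continuousOn
    (hb.continuous_deriv (by simp)).continuousOn
  refine ⟨_, |M| + 1, by positivity, hb, fun t => Real.smoothTransition.nonneg _,
    fun t ht => Real.smoothTransition.one_of_one_le (by linarith),
    fun t ht => Real.smoothTransition.zero_of_nonpos (by linarith), fun t ht => ?_⟩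
  have := hM t ht
  rw [Real.norm_eq_abs] at this
  linarith [le_abs_self M]

theorem Wn3_deriv (hU : IsOpen U) (hf : DifferentiableOn ℂ f U) {p ζ : ℂ} (hp : p ∈ U)
    (hz : ζ ∈ U) : deriv f ζ = dslope f p ζ + (ζ - p) * deriv (dslope f p) ζ := by
  have hF : DifferentiableOn ℂ (dslope f p) U :=
    (Complex.differentiableOn_dslope (hU.mem_nhds hp)).2 hf
  have h1 := (((hasDerivAt_id ζ).sub_const p).mul
    (hF.differentiableAt (hU.mem_nhds hz)).hasDerivAt).add_const (f p)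
  have e : f = fun y => (y - p) * dslope f p y + f p := funext fun y => by
    rw [← Wn3_fac]
    ring
  have h2 : HasDerivAt f (1 * dslope f p ζ + (ζ - p) * deriv (dslope f p) ζ) ζ := by
    conv => arg 1; rw [e]
    exact h1
  rw [h2.deriv, one_mul]

theorem Wn3_field {z F G F' G' a b a' b' : ℂ} (h1 : a' = F + z * F') (h2 : b' = G + z * G')
    (h3 : a = z * F) (h4 : b = z * G) (hz : z ≠ 0) (hn : ‖F‖ ^ 2 + ‖G‖ ^ 2 ≠ 0) :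
    1 / z + (F' * (starRingEnd ℂ) F + G' * (starRingEnd ℂ) G) / ((‖F‖ ^ 2 + ‖G‖ ^ 2 : ℝ) : ℂ) =
      (a' * (starRingEnd ℂ) a + b' * (starRingEnd ℂ) b) / ((‖a‖ ^ 2 + ‖b‖ ^ 2 : ℝ) : ℂ) := by
  have hn' : ((‖F‖ ^ 2 + ‖G‖ ^ 2 : ℝ) : ℂ) ≠ 0 := Complex.ofReal_ne_zero.2 hn
  have hz' : (starRingEnd ℂ) z ≠ 0 := (map_ne_zero _).2 hz
  have e : ∀ w : ℂ, ((‖w‖ : ℝ) : ℂ) ^ 2 = w * (starRingEnd ℂ) w := fun w => by
    rw [Complex.mul_conj, Complex.normSq_eq_norm_sq]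
    push_cast
    rfl
  subst h1 h2 h3 h4
  push_cast at hn' ⊢
  rw [e, e] at hn'
  rw [e, e, e, e, map_mul, map_mul,
    show z * F * ((starRingEnd ℂ) z * (starRingEnd ℂ) F) +
      z * G * ((starRingEnd ℂ) z * (starRingEnd ℂ) G) =
      z * (starRingEnd ℂ) z * (F * (starRingEnd ℂ) F + G * (starRingEnd ℂ) G) by ring,
    div_add_div _ _ hz hn', div_eq_div_iff (mul_ne_zero hz hn')
      (mul_ne_zero (mul_ne_zero hz hz') hn')]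
  ring

theorem Wn3_cs {w a b a' b' : ℂ} {M r : ℝ} (hM : 0 ≤ M) (hr : 0 < r)
    (hs : 0 < ‖a‖ ^ 2 + ‖b‖ ^ 2) (hw : ‖w‖ ≤ 4 * M / r * (‖a‖ * ‖a'‖ + ‖b‖ * ‖b'‖)) :
    ‖w * ((a' * (starRingEnd ℂ) a + b' * (starRingEnd ℂ) b) / ((‖a‖ ^ 2 + ‖b‖ ^ 2 : ℝ) : ℂ))‖ ≤
      4 * M / r * (‖a'‖ ^ 2 + ‖b'‖ ^ 2) := by
  have h1 : ‖a' * (starRingEnd ℂ) a + b' * (starRingEnd ℂ) b‖ ≤ ‖a‖ * ‖a'‖ + ‖b‖ * ‖b'‖ := by
    refine (norm_add_le _ _).trans (le_of_eq ?_)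
    rw [norm_mul, norm_mul, Complex.norm_conj, Complex.norm_conj]
    ring
  have h2 : (‖a‖ * ‖a'‖ + ‖b‖ * ‖b'‖) * (‖a‖ * ‖a'‖ + ‖b‖ * ‖b'‖) ≤
      (‖a'‖ ^ 2 + ‖b'‖ ^ 2) * (‖a‖ ^ 2 + ‖b‖ ^ 2) := by
    nlinarith [sq_nonneg (‖a‖ * ‖b'‖ - ‖b‖ * ‖a'‖)]
  have hc : 0 ≤ 4 * M / r := by positivity
  rw [norm_mul, norm_div, Complex.norm_real, Real.norm_of_nonneg hs.le, ← mul_div_assoc,
    div_le_iff₀ hs]
  calc ‖w‖ * ‖a' * (starRingEnd ℂ) a + b' * (starRingEnd ℂ) b‖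
      ≤ (4 * M / r * (‖a‖ * ‖a'‖ + ‖b‖ * ‖b'‖)) * (‖a‖ * ‖a'‖ + ‖b‖ * ‖b'‖) :=
        mul_le_mul hw h1 (norm_nonneg _) (by positivity)
    _ = 4 * M / r * ((‖a‖ * ‖a'‖ + ‖b‖ * ‖b'‖) * (‖a‖ * ‖a'‖ + ‖b‖ * ‖b'‖)) := by ring
    _ ≤ 4 * M / r * ((‖a'‖ ^ 2 + ‖b'‖ ^ 2) * (‖a‖ ^ 2 + ‖b‖ ^ 2)) :=
        mul_le_mul_of_nonneg_left h2 hc
    _ = _ := by ring

theorem Wn3_gr {b : ℝ → ℝ} (hb : ContDiff ℝ ∞ b) {r M : ℝ} (hr : 0 < r) {ζ f' g' c d : ℂ}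
    (df : HasDerivAt f f' ζ) (dg : HasDerivAt g g' ζ)
    (loc : χ =ᶠ[𝓝 ζ] fun y => b ((‖f y - c‖ ^ 2 + ‖g y - d‖ ^ 2) / r))
    (hd : |deriv b ((‖f ζ - c‖ ^ 2 + ‖g ζ - d‖ ^ 2) / r)| ≤ M) :
    ‖gr χ ζ‖ ≤ 4 * M / r * (‖f ζ - c‖ * ‖f'‖ + ‖g ζ - d‖ * ‖g'‖) := by
  have hM : 0 ≤ M := (abs_nonneg _).trans hd
  have a1 := ((df.sub_const c).hasFDerivAt.restrictScalars ℝ).norm_sq
  have a2 := ((dg.sub_const d).hasFDerivAt.restrictScalars ℝ).norm_sq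
  have a3 := (a1.add a2).mul_const r⁻¹
  have a4 : HasDerivAt b (deriv b ((‖f ζ - c‖ ^ 2 + ‖g ζ - d‖ ^ 2) / r))
      ((‖f ζ - c‖ ^ 2 + ‖g ζ - d‖ ^ 2) * r⁻¹) :=
    (hb.differentiable (by simp) _).hasDerivAt
  have a5 := (a4.comp_hasFDerivAt ζ a3).congr_of_eventuallyEq loc
  have key : ∀ v : ℂ, ‖v‖ = 1 → |fderiv ℝ χ ζ v| ≤
      2 * M / r * (‖f ζ - c‖ * ‖f'‖ + ‖g ζ - d‖ * ‖g'‖) := fun v hv => by
    have e : fderiv ℝ χ ζ v = deriv b ((‖f ζ - c‖ ^ 2 + ‖g ζ - d‖ ^ 2) / r) *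
        (r⁻¹ * (2 * inner ℝ (f ζ - c) (v * f') + 2 * inner ℝ (g ζ - d) (v * g'))) := by
      rw [a5.fderiv]
      simp
      ring
    have b1 := abs_real_inner_le_norm (f ζ - c) (v * f')
    have b2 := abs_real_inner_le_norm (g ζ - d) (v * g')
    rw [norm_mul, hv, one_mul] at b1 b2
    have b3 : |2 * inner ℝ (f ζ - c) (v * f') + 2 * inner ℝ (g ζ - d) (v * g')| ≤
        2 * (‖f ζ - c‖ * ‖f'‖ + ‖g ζ - d‖ * ‖g'‖) := by
      rw [abs_le] at b1 b2 ⊢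
      constructor <;> linarith [b1.1, b1.2, b2.1, b2.2]
    rw [e, abs_mul, abs_mul, abs_of_pos (inv_pos.2 hr)]
    calc _ ≤ M * (r⁻¹ * (2 * (‖f ζ - c‖ * ‖f'‖ + ‖g ζ - d‖ * ‖g'‖))) :=
          mul_le_mul hd (mul_le_mul_of_nonneg_left b3 (inv_pos.2 hr).le) (by positivity) hM
      _ = _ := by ring
  have k1 := key 1 norm_one
  have k2 := key Complex.I Complex.norm_I
  unfold gr
  refine (norm_add_le _ _).trans ?_
  rw [norm_mul, Complex.norm_I, one_mul, Complex.norm_real, Complex.norm_real, Real.norm_eq_abs,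
    Real.norm_eq_abs]
  have e : 4 * M / r * (‖f ζ - c‖ * ‖f'‖ + ‖g ζ - d‖ * ‖g'‖) =
      2 * M / r * (‖f ζ - c‖ * ‖f'‖ + ‖g ζ - d‖ * ‖g'‖) +
        2 * M / r * (‖f ζ - c‖ * ‖f'‖ + ‖g ζ - d‖ * ‖g'‖) := by ring
  rw [e]
  exact add_le_add k1 k2

/- Let `s = ‖f - f p‖ ^ 2 + ‖g - g p‖ ^ 2`, `χ = b (s / ρ ^ 2)` on `U` (zero elsewhere), `b` a fixed
smooth function, `b = 1` on `(-∞, 1/4]`, `b = 0` on `[3/4, ∞)`, `‖b'‖ ≤ M`.  With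
`f - f p = (ζ - p) F`, `g - g p = (ζ - p) G` the field `w = (f' conj (f - f p) + ...) / s` equals
`1 / (ζ - p)` plus the field of `(F, G)` on `Kd χ`; `wn_lin` and `ap_vec` give
`2 π ≤ -∫ re (gr χ * w)`, and `‖gr χ * w‖ ≤ 2 M (‖f'‖ ^ 2 + ‖g'‖ ^ 2) / ρ ^ 2`. -/
theorem mon : ∃ c₀ : ℝ, 0 < c₀ ∧ ∀ (U : Set ℂ) (f g : ℂ → ℂ) (p : ℂ) (ρ : ℝ), IsOpen U →
    DifferentiableOn ℂ f U → DifferentiableOn ℂ g U → p ∈ U → 0 < ρ →
    IsCompact {ζ | ζ ∈ U ∧ ‖f ζ - f p‖ ^ 2 + ‖g ζ - g p‖ ^ 2 ≤ ρ ^ 2} →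
    IntegrableOn (fun ζ => ‖deriv f ζ‖ ^ 2 + ‖deriv g ζ‖ ^ 2) U →
    c₀ * ρ ^ 2 ≤ ∫ ζ in U, (‖deriv f ζ‖ ^ 2 + ‖deriv g ζ‖ ^ 2) := by
  obtain ⟨b, M, hM, hb, hb0, hb1, hb2, hb3⟩ := Wn3_b
  refine ⟨2 * π / (4 * M), by positivity, ?_⟩
  intro U f g p ρ hU hf hg hp hρ hKc hI
  have hρ2 : 0 < ρ ^ 2 := by positivity
  set s : ℂ → ℝ := fun ζ => ‖f ζ - f p‖ ^ 2 + ‖g ζ - g p‖ ^ 2 with hs
  have s0 : ∀ ζ, 0 ≤ s ζ := fun ζ => by positivity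
  have hsm : ContDiffOn ℝ ∞ s U := by
    have a1 : ContDiffOn ℝ ∞ f U := (hf.contDiffOn hU).restrict_scalars ℝ
    have a2 : ContDiffOn ℝ ∞ g U := (hg.contDiffOn hU).restrict_scalars ℝ
    exact ((a1.sub contDiffOn_const).norm_sq ℝ).add ((a2.sub contDiffOn_const).norm_sq ℝ)
  set χ : ℂ → ℝ := U.indicator fun ζ => b (s ζ / ρ ^ 2) with hχ
  have loc : ∀ ζ ∈ U, χ =ᶠ[𝓝 ζ] fun ζ => b (s ζ / ρ ^ 2) := fun ζ hζ => by
    filter_upwards [hU.mem_nhds hζ] with y hy using indicator_of_mem hy _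
  have off : ∀ ζ, ζ ∉ {ζ | ζ ∈ U ∧ s ζ ≤ ρ ^ 2} → χ ζ = 0 := fun ζ hζ => by
    by_cases hz : ζ ∈ U
    · rw [hχ, indicator_of_mem hz]
      have : ρ ^ 2 < s ζ := lt_of_not_ge fun h => hζ ⟨hz, h⟩
      exact hb2 _ ((one_le_div hρ2).2 this.le)
    · exact indicator_of_notMem hz _
  have hts : tsupport χ ⊆ {ζ | ζ ∈ U ∧ s ζ ≤ ρ ^ 2} :=
    closure_minimal (fun ζ hζ => by_contra fun h => hζ (off ζ h)) hKc.isClosed
  have hK : tsupport χ ⊆ U := fun ζ hζ => (hts hζ).1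
  have hB : Bmp χ := by
    refine ⟨contDiff_iff_contDiffAt.2 fun ζ => ?_, HasCompactSupport.intro hKc off⟩
    by_cases hz : ζ ∈ U
    · exact (hb.contDiffAt.comp ζ
        ((hsm.contDiffAt (hU.mem_nhds hz)).div_const _)).congr_of_eventuallyEq (loc ζ hz)
    · have : χ =ᶠ[𝓝 ζ] fun _ => 0 := notMem_tsupport_iff_eventuallyEq.1 fun h => hz (hK h)
      exact contDiffAt_const.congr_of_eventuallyEq this
  have h0 : ∀ ζ, 0 ≤ χ ζ := fun ζ => indicator_nonneg (fun y _ => hb0 _) ζ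
  have hp1 : χ p = 1 := by
    rw [hχ, indicator_of_mem hp]
    apply hb1
    simp [hs]
  have hpos : ∀ ζ ∈ Kd χ, 0 < s ζ := fun ζ hζ => by
    have hz := hK (kd_subset hζ)
    by_contra hh
    have h1 : s ζ < ρ ^ 2 / 4 := by linarith
    have h2 : ∀ᶠ y in 𝓝 ζ, s y < ρ ^ 2 / 4 :=
      (hsm.continuousOn.continuousAt (hU.mem_nhds hz)).eventually_lt continuousAt_const h1
    refine notMem_kd (c := 1) ?_ hζ
    filter_upwards [h2, loc ζ hz] with y hy hy'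
    rw [hy']
    apply hb1
    rw [div_le_iff₀ hρ2]
    linarith
  have hF : DifferentiableOn ℂ (dslope f p) U :=
    (Complex.differentiableOn_dslope (hU.mem_nhds hp)).2 hf
  have hG : DifferentiableOn ℂ (dslope g p) U :=
    (Complex.differentiableOn_dslope (hU.mem_nhds hp)).2 hg
  set n : ℂ → ℝ := fun ζ => ‖dslope f p ζ‖ ^ 2 + ‖dslope g p ζ‖ ^ 2 with hn
  have hsn : ∀ ζ, s ζ = ‖ζ - p‖ ^ 2 * n ζ := fun ζ => by
    simp only [hs, hn]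
    rw [Wn3_fac f, Wn3_fac g, norm_mul, norm_mul]
    ring
  have hV : IsOpen (U ∩ s ⁻¹' Ioi 0) := hsm.continuousOn.isOpen_inter_preimage hU isOpen_Ioi
  have hKV : Kd χ ⊆ U ∩ s ⁻¹' Ioi 0 := fun ζ hζ => ⟨hK (kd_subset hζ), hpos ζ hζ⟩
  have hne : ∀ ζ ∈ U ∩ s ⁻¹' Ioi 0, ζ - p ≠ 0 ∧ n ζ ≠ 0 := fun ζ hζ => by
    have : 0 < s ζ := hζ.2
    rw [hsn] at this
    constructor
    · intro e
      simp [e] at this
    · intro e
      simp [e] at this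
  set W : ℂ → ℂ := fun ζ => (deriv (dslope f p) ζ * (starRingEnd ℂ) (dslope f p ζ) +
    deriv (dslope g p) ζ * (starRingEnd ℂ) (dslope g p ζ)) / ((n ζ : ℝ) : ℂ) with hW
  have i1 : Integrable fun ζ => gr χ ζ * (1 / (ζ - p)) :=
    hB.integrable_gr hV hKV
      (continuousOn_const.div (by fun_prop) fun ζ hζ => (hne ζ hζ).1)
  have i2 : Integrable fun ζ => gr χ ζ * W ζ := by
    refine hB.integrable_gr hV hKV ?_
    have c1 := hF.continuousOn.mono (inter_subset_left (t := s ⁻¹' Ioi 0))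
    have c2 := hG.continuousOn.mono (inter_subset_left (t := s ⁻¹' Ioi 0))
    have c3 := (hF.deriv hU).continuousOn.mono (inter_subset_left (t := s ⁻¹' Ioi 0))
    have c4 := (hG.deriv hU).continuousOn.mono (inter_subset_left (t := s ⁻¹' Ioi 0))
    refine ((c3.mul (Complex.continuous_conj.comp_continuousOn c1)).add
      (c4.mul (Complex.continuous_conj.comp_continuousOn c2))).div
      (Complex.continuous_ofReal.comp_continuousOn ((c1.norm.pow 2).add (c2.norm.pow 2))) ?_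
    exact fun ζ hζ => Complex.ofReal_ne_zero.2 (hne ζ hζ).2
  have e1 : ∫ ζ, (gr χ ζ * (1 / (ζ - p))).re = -(2 * π) := by
    have h1 := wn_lin hB p
    rw [hp1] at h1
    unfold wn at h1
    simp only [deriv_sub_const, deriv_id''] at h1
    have h2 : (2 * π) ≠ 0 := by positivity
    rw [neg_mul, neg_eq_iff_eq_neg, inv_mul_eq_iff_eq_mul₀ h2] at h1
    rw [h1, mul_neg_one]
  have e2 : ∫ ζ, (gr χ ζ * W ζ).re ≤ 0 :=
    ap_vec hB h0 hU hK hF hG fun ζ hζ => by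
      by_contra hh
      push Not at hh
      exact (hne ζ (hKV hζ)).2 (by simp [hn, hh.1, hh.2])
  have bound : ∀ ζ, -((gr χ ζ * (1 / (ζ - p))).re + (gr χ ζ * W ζ).re) ≤
      U.indicator (fun ζ => 4 * M / ρ ^ 2 * (‖deriv f ζ‖ ^ 2 + ‖deriv g ζ‖ ^ 2)) ζ := by
    intro ζ
    by_cases hζ : ζ ∈ Kd χ
    · have hz := hK (kd_subset hζ)
      have hle : s ζ ≤ ρ ^ 2 := (hts (kd_subset hζ)).2
      have hd : |deriv b (s ζ / ρ ^ 2)| ≤ M :=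
        hb3 _ ⟨div_nonneg (s0 ζ) hρ2.le, (div_le_one hρ2).2 hle⟩
      have df := (hf.differentiableAt (hU.mem_nhds hz)).hasDerivAt
      have dg := (hg.differentiableAt (hU.mem_nhds hz)).hasDerivAt
      have g1 := Wn3_gr hb hρ2 df dg (loc ζ hz) hd
      rw [indicator_of_mem hz, ← Complex.add_re, ← mul_add,
        Wn3_field (Wn3_deriv hU hf hp hz) (Wn3_deriv hU hg hp hz) (Wn3_fac f p ζ) (Wn3_fac g p ζ)
          (hne ζ (hKV hζ)).1 (hne ζ (hKV hζ)).2]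
      exact (neg_le_abs _).trans ((Complex.abs_re_le_norm _).trans
        (Wn3_cs hM.le hρ2 (hpos ζ hζ) g1))
    · rw [gr_eq_zero hζ]
      simp only [zero_mul, Complex.zero_re, add_zero, neg_zero]
      exact indicator_nonneg (fun y _ => by positivity) ζ
  have i3 : Integrable
      (U.indicator fun ζ => 4 * M / ρ ^ 2 * (‖deriv f ζ‖ ^ 2 + ‖deriv g ζ‖ ^ 2)) :=
    (integrable_indicator_iff hU.measurableSet).2 (hI.const_mul _)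
  have fin := integral_mono (i1.re.add i2.re).neg i3 bound
  rw [integral_indicator hU.measurableSet, integral_const_mul] at fin
  have e3 : ∫ ζ, (-((fun ζ => RCLike.re (gr χ ζ * (1 / (ζ - p)))) +
      fun ζ => RCLike.re (gr χ ζ * W ζ))) ζ =
      -((∫ ζ, (gr χ ζ * (1 / (ζ - p))).re) + ∫ ζ, (gr χ ζ * W ζ).re) := by
    have := integral_add i1.re i2.re
    exact (integral_neg _).trans (congrArg Neg.neg this)
  rw [e3, e1] at fin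
  have fin2 : 2 * π ≤ 4 * M / ρ ^ 2 * ∫ ζ in U, (‖deriv f ζ‖ ^ 2 + ‖deriv g ζ‖ ^ 2) := by
    linarith
  rw [div_mul_eq_mul_div, le_div_iff₀ hρ2] at fin2
  rw [div_mul_eq_mul_div, div_le_iff₀ (by positivity)]
  linarith

end Pool.Agent.Lib.MP_7ed551_gt.Cy
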