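import Pool.Agent.Lib.MP_7ed551_gt.Cy.N.Mas
import Pool.Agent.Lib.MP_7ed551_gt.Cy.N.Log
import Pool.Agent.Lib.MP_7ed551_gt.Cy.N.Wn3

/-! Every point of the core lies on a ring around the mass. -/

open scoped ContDiff Topology
open Set Filter Metric MeasureTheory Real

noncomputable section

namespace Pool.Agent.Lib.MP_7ed551_gt.Cy

open Pool.Agent.Lib.MP_ccffa6_gt (Form1 dF pb px py JHol dens)

variable {Ω : Set ℂ} {z1 z2 : ℂ → ℂ} {μ : ℂ → ℝ} {N a B : ℝ} {k : ℤ × ℤ}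

theorem ring_cpt {K S : Set ℂ} {Y : Type} [TopologicalSpace Y] {f : ℂ → Y} {t : Set Y}
    (hK : IsCompact K) (hf : ContinuousOn f K) (ht : IsClosed t) (h1 : S ⊆ K)
    (h2 : ∀ ζ ∈ K, ζ ∈ S ↔ f ζ ∈ t) : IsCompact S := by
  have e : S = K ∩ f ⁻¹' t :=
    Set.ext fun ζ => ⟨fun hζ => ⟨h1 hζ, (h2 ζ (h1 hζ)).1 hζ⟩, fun hζ => (h2 ζ hζ.1).2 hζ.2⟩
  exact hK.of_isClosed_subset (e ▸ hf.preimage_isClosed_of_isClosed hK.isClosed ht) h1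

theorem Lm.cell (h : Lm Ω z1 z2 μ N a B k) {p : ℂ} (hp : p ∈ Core Ω z1 z2 (N / 8)) {ρ : ℝ}
    (hρ : ρ ≤ N / 16) : IsCompact (Cell Ω z1 z2 p ρ) ∧ Cell Ω z1 z2 p ρ ⊆ Core Ω z1 z2 (N / 5) := by
  have hN := h.N0
  have hs : Cell Ω z1 z2 p ρ ⊆ Core Ω z1 z2 (N / 5) := fun ζ hζ =>
    ⟨hζ.1, by linarith [abs_sub_abs_le_abs_sub (xi z1 ζ) (xi z1 p), hζ.2.1, hp.2.1],
      by linarith [abs_sub_abs_le_abs_sub (xi z2 ζ) (xi z2 p), hζ.2.2, hp.2.2]⟩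
  refine ⟨?_, hs⟩
  have hc : ContinuousOn (fun ζ => (xi z1 ζ, xi z2 ζ)) Ω :=
    h.h1.contDiffOn_xi.continuousOn.prodMk h.h2.contDiffOn_xi.continuousOn
  refine ring_cpt h.prop (hc.mono fun _ hζ => hζ.1)
    (t := {y : ℝ × ℝ | |y.1 - xi z1 p| ≤ ρ ∧ |y.2 - xi z2 p| ≤ ρ})
    (IsClosed.and (isClosed_le (by fun_prop) continuous_const)
      (isClosed_le (by fun_prop) continuous_const))
    (fun ζ hζ => ⟨hζ.1, by linarith [(hs hζ).2.1], by linarith [(hs hζ).2.2]⟩)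
    fun ζ hζ => and_iff_right hζ.1

theorem ring_log {V : Set ℂ} {f L : ℂ → ℂ} (hV : IsOpen V) (hL : DifferentiableOn ℂ L V)
    (he : ∀ ζ ∈ V, f ζ = Complex.exp (L ζ)) {ζ : ℂ} (hζ : ζ ∈ V) :
    xi f ζ = (L ζ).re ∧ deriv f ζ / f ζ = deriv L ζ := by
  have hn := hV.mem_nhds hζ
  refine ⟨by rw [xi, he ζ hζ, Complex.norm_exp, Real.log_exp], ?_⟩
  rw [Filter.EventuallyEq.deriv_eq (eventually_of_mem hn he),
    (hL.differentiableAt hn).hasDerivAt.cexp.deriv, he ζ hζ,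
    mul_div_cancel_left₀ _ (Complex.exp_ne_zero _)]

theorem ring_re {x y : ℂ} {t ρ : ℝ} (hρ : 0 < ρ) (ht : 0 ≤ t) (h : ‖x - y‖ ^ 2 + t ≤ ρ ^ 2) :
    |x.re - y.re| ≤ ρ :=
  (Complex.abs_re_le_norm (x - y)).trans (le_of_sq_le_sq (by linarith) hρ.le)

/- `C` = component of `p` in `Cell`, `D` from `exists_fill`.  If `D = ∅` then `Cᶜ` is preconnected:
`exists_log_near` twice, `exists_clopen_nhd`, `mon` on `U` (real parts of the logarithms are `xi`,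
the derivatives are `z' / z`), contradiction with `flat`.  So `D` is nonempty.  If a `CutD` has
`χ μ = 0` then `μ = 0` on `D`, so `closure D ⊆ Ω`, `xi_mem_Icc` gives `D ⊆ Cell`,
`Ring.eq_empty`. -/
theorem exists_ring : ∃ c₀ : ℝ, 0 < c₀ ∧ ∀ (Ω : Set ℂ) (z1 z2 : ℂ → ℂ) (μ : ℂ → ℝ) (N a B : ℝ)
    (k : ℤ × ℤ) (p : ℂ) (ρ : ℝ), Lm Ω z1 z2 μ N a B k → p ∈ Core Ω z1 z2 (N / 8) → 0 < ρ →
    ρ ≤ N / 16 → B < c₀ * ρ ^ 2 →
    ∃ C D, MRing Ω z1 z2 N k C D ∧ p ∈ C ∧ C ⊆ Cell Ω z1 z2 p ρ := by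
  obtain ⟨c₀, hc₀, H⟩ := mon
  refine ⟨c₀, hc₀, fun Ω z1 z2 μ N a B k p ρ h hp hρ hρ' hB => ?_⟩
  obtain ⟨hA, hA'⟩ := h.cell hp hρ'
  have hN := h.N0
  have hpA : p ∈ Cell Ω z1 z2 p ρ := ⟨hp.1, by simpa using hρ.le, by simpa using hρ.le⟩
  have hC := isCompact_component hA p
  have hCA := connectedComponentIn_subset (Cell Ω z1 z2 p ρ) p
  have hpC := mem_connectedComponentIn hpA
  have hΩ : connectedComponentIn (Cell Ω z1 z2 p ρ) p ⊆ Ω := fun _ hζ => (hCA hζ).1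
  obtain ⟨D, hD⟩ := exists_fill hC isPreconnected_connectedComponentIn ⟨p, hpC⟩
  have hne : D ≠ ∅ := by
    rintro rfl
    have hc := hD.out
    rw [union_empty] at hc
    obtain ⟨V1, L1, o1, s1, t1, d1, e1⟩ := exists_log_near hC hc h.h1 hΩ
    obtain ⟨V2, L2, o2, s2, -, d2, e2⟩ := exists_log_near hC hc h.h2 hΩ
    obtain ⟨U, oU, sU, pU, cU⟩ := exists_clopen_nhd hA hpA (o1.inter o2) (subset_inter s1 s2)
    have u1 : U ⊆ V1 := sU.trans inter_subset_left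
    have u2 : U ⊆ V2 := sU.trans inter_subset_right
    have l1 (ζ : ℂ) (hζ : ζ ∈ U) := ring_log o1 d1 e1 (u1 hζ)
    have l2 (ζ : ℂ) (hζ : ζ ∈ U) := ring_log o2 d2 e2 (u2 hζ)
    have he : EqOn (fl z1 z2) (fun ζ => ‖deriv L1 ζ‖ ^ 2 + ‖deriv L2 ζ‖ ^ 2) U := fun ζ hζ => by
      rw [fl, (l1 ζ hζ).2, (l2 ζ hζ).2]
    have hF : ContinuousOn (fun ζ => ‖L1 ζ - L1 p‖ ^ 2 + ‖L2 ζ - L2 p‖ ^ 2) U :=
      (((d1.continuousOn.mono u1).sub continuousOn_const).norm.pow 2).add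
        (((d2.continuousOn.mono u2).sub continuousOn_const).norm.pow 2)
    have := H U L1 L2 p ρ oU (d1.mono u1) (d2.mono u2) pU hρ
      (ring_cpt cU (hF.mono inter_subset_right) (isClosed_Iic (a := ρ ^ 2))
        (fun ζ hζ => ⟨⟨t1 (u1 hζ.1), ?_, ?_⟩, hζ.1⟩) fun ζ hζ => and_iff_right hζ.2)
      ((h.int.mono_set (u1.trans t1)).congr_fun he oU.measurableSet)
    · rw [← setIntegral_congr_fun oU.measurableSet he] at this
      have k := setIntegral_mono_set h.int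
        (Eventually.of_forall fun ζ => (by unfold fl; positivity : 0 ≤ fl z1 z2 ζ))
        (u1.trans t1).eventuallyLE
      linarith [h.flat]
    · rw [(l1 ζ hζ.1).1, (l1 p pU).1]
      exact ring_re hρ (sq_nonneg _) hζ.2
    · rw [(l2 ζ hζ.1).1, (l2 p pU).1]
      exact ring_re hρ (sq_nonneg _) ((add_comm _ _).trans_le hζ.2)
  refine ⟨_, D, ⟨hD, fun ζ hζ => ?_, fun W χ _ _ hW hχ => ?_⟩, hpC, hCA⟩
  · have := hA' (hCA hζ)
    exact ⟨this.1, by linarith [this.2.1], by linarith [this.2.2]⟩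
  refine (h.zero_or_mas (hχ.cut.mono hW)).resolve_left fun h0 => hne (hD.eq_empty rfl ?_)
  have hcl : closure D ⊆ Ω := by
    rw [closure_eq_self_union_frontier]
    refine union_subset (fun ζ hζ => h.sub ζ ?_) (hD.fr.trans hΩ)
    by_cases hw : ζ ∈ W
    · exact h.zero ζ (hW hw)
    · simpa [(hχ.one ζ hζ hw).eq_of_nhds] using h0 ζ
  have k (z : ℂ → ℂ) (hz : HolN Ω z) (hf : ∀ ζ ∈ frontier D, |xi z ζ - xi z p| ≤ ρ) (ζ : ℂ)
      (hζ : ζ ∈ D) : |xi z ζ - xi z p| ≤ ρ := by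
    have := xi_mem_Icc hz hD.bdd hcl (b := xi z p - ρ) (b' := xi z p + ρ)
      (fun w hw => ⟨by linarith [(abs_le.1 (hf w hw)).1], by linarith [(abs_le.1 (hf w hw)).2]⟩)
      ζ (subset_closure hζ)
    exact abs_le.2 ⟨by linarith [this.1], by linarith [this.2]⟩
  exact fun ζ hζ => ⟨hcl (subset_closure hζ), k z1 h.h1 (fun w hw => (hCA (hD.fr hw)).2.1) ζ hζ,
    k z2 h.h2 (fun w hw => (hCA (hD.fr hw)).2.2) ζ hζ⟩

end Pool.Agent.Lib.MP_7ed551_gt.Cy
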