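import Pool.Agent.Lib.MP_7ed551_gt.Cy.N.Leaf
import Pool.Agent.Lib.MP_7ed551_gt.Cy.N.Ring

/-! The class of a leaf does not depend on the leaf. -/

open scoped ContDiff Topology
open Set Filter Metric MeasureTheory Real

noncomputable section

namespace Pool.Agent.Lib.MP_7ed551_gt.Cy

open Pool.Agent.Lib.MP_ccffa6_gt (Form1 dF pb px py JHol dens)

variable {J : E → E →L[ℝ] E} {Θ Ψ P X : E → E} {N a B : ℝ} {k m : ℤ × ℤ}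

theorem box_mono {t N : ℝ} (h : t ≤ N) : Box t ⊆ Box N :=
  fun _ hZ => ⟨hZ.1.trans_le h, hZ.2.trans_le h⟩

theorem convex_box (N : ℝ) : Convex ℝ (Box N) := by
  have h : ∀ φ : E →ₗ[ℝ] ℝ, Convex ℝ {Z | |φ Z| < N} := fun φ => by
    have : {Z | |φ Z| < N} = φ ⁻¹' Ioo (-N) N := by
      ext Z
      simp [abs_lt]
    rw [this]
    exact (convex_Ioo _ _).linear_preimage φ
  exact (h (Complex.reLm.comp (LinearMap.fst ℝ ℂ ℂ))).inter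
    (h (Complex.reLm.comp (LinearMap.snd ℝ ℂ ℂ)))

theorem Inv.base (hX : Inv J Θ N X) (hF : Fol J Ψ P) {Z : E} (hZ : Z ∈ Box N) :
    (P (Θ Z)).1 ∈ Om Θ Ψ N (P (Θ Z)).2 ∧
      X (Ψ ((P (Θ Z)).1, (P (Θ Z)).2)) = (Complex.exp Z.1, Complex.exp Z.2) := by
  have e : Ψ ((P (Θ Z)).1, (P (Θ Z)).2) = Θ Z := hF.right _
  refine ⟨?_, by rw [e, hX.eq Z hZ]⟩
  show Ψ _ ∈ Θ '' Box N
  rw [e]
  exact mem_image_of_mem _ hZ

theorem Inv.base_core (hX : Inv J Θ N X) (hF : Fol J Ψ P) {t : ℝ} (ht : t ≤ N) {Z : E}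
    (hZ : Z ∈ Box t) : (P (Θ Z)).1 ∈ Core (Om Θ Ψ N (P (Θ Z)).2)
      (fun ζ => (X (Ψ (ζ, (P (Θ Z)).2))).1) (fun ζ => (X (Ψ (ζ, (P (Θ Z)).2))).2) t := by
  obtain ⟨h1, h2⟩ := hX.base hF (box_mono ht hZ)
  refine ⟨h1, ?_, ?_⟩ <;> simp only [xi, h2, Complex.norm_exp, Real.log_exp]
  exacts [hZ.1, hZ.2]

theorem MRing.exists_mas {Ω : Set ℂ} {z1 z2 : ℂ → ℂ} {C D : Set ℂ} (h1 : HolN Ω z1)
    (h2 : HolN Ω z2) (r : MRing Ω z1 z2 N k C D) : ∃ χ, Mas Ω z1 z2 N k χ := by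
  obtain ⟨χ, hχ⟩ := r.ring.exists_cut (isOpen_core h1 h2 _) r.sub
  exact ⟨χ, r.mas _ χ (isOpen_core h1 h2 _) r.sub subset_rfl hχ⟩

theorem exists_cls_const (hF : Fol J Ψ P) (hX : Inv J Θ N X) (hΘ : Continuous Θ) (hN : 0 < N)
    (hL : ∀ l, ∃ μ, Lm (Om Θ Ψ N l) (fun ζ => (X (Ψ (ζ, l))).1) (fun ζ => (X (Ψ (ζ, l))).2)
      μ N a B k)
    (hr : ∀ l, ∀ p ∈ Core (Om Θ Ψ N l) (fun ζ => (X (Ψ (ζ, l))).1) (fun ζ => (X (Ψ (ζ, l))).2)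
      (N / 8), ∃ C D, MRing (Om Θ Ψ N l) (fun ζ => (X (Ψ (ζ, l))).1) (fun ζ => (X (Ψ (ζ, l))).2)
        N k C D) :
    ∃ m : ℤ × ℤ, ∀ Z ∈ Box (N / 8), Cls (Om Θ Ψ N (P (Θ Z)).2)
      (fun ζ => (X (Ψ (ζ, (P (Θ Z)).2))).1) (fun ζ => (X (Ψ (ζ, (P (Θ Z)).2))).2) N k m := by
  have h8 : N / 8 ≤ N := by linarith
  have hχ : ∀ Z ∈ Box (N / 8), ∃ χ, Mas (Om Θ Ψ N (P (Θ Z)).2)
      (fun ζ => (X (Ψ (ζ, (P (Θ Z)).2))).1) (fun ζ => (X (Ψ (ζ, (P (Θ Z)).2))).2) N k χ :=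
    fun Z hZ => by
      obtain ⟨C, D, r⟩ := hr _ _ (hX.base_core hF h8 hZ)
      exact r.exists_mas (hX.holN hF _).1 (hX.holN hF _).2
  have hm : ∀ Z : Box (N / 8), ∃ m : ℤ × ℤ, Cls (Om Θ Ψ N (P (Θ Z)).2)
      (fun ζ => (X (Ψ (ζ, (P (Θ Z)).2))).1) (fun ζ => (X (Ψ (ζ, (P (Θ Z)).2))).2) N k m :=
    fun Z => by
      obtain ⟨χ, h⟩ := hχ Z Z.2
      obtain ⟨μ, hμ⟩ := hL (P (Θ Z)).2
      exact hμ.exists_cls h
  choose m hm using hm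
  have hc : IsLocallyConstant m := by
    rw [IsLocallyConstant.iff_eventually_eq]
    intro Z₀
    obtain ⟨χ, h⟩ := hχ Z₀ Z₀.2
    have c1 : Continuous fun Z : Box (N / 8) => (P (Θ Z)).2 :=
      (hF.sm'.continuous.comp (hΘ.comp continuous_subtype_val)).snd
    filter_upwards [c1.continuousAt.eventually (mas_near hF hX h.1)] with Z ⟨a1, a2, a3⟩
    have b1 := (hm Z).2 χ ⟨a1, by rw [a2, a3]; exact h.2⟩
    have b2 := (hm Z₀).2 χ h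
    refine Prod.ext ?_ ?_
    · exact_mod_cast b1.1.symm.trans (a2.trans b2.1)
    · exact_mod_cast b1.2.symm.trans (a3.trans b2.2)
  have : PreconnectedSpace (Box (N / 8)) :=
    isPreconnected_iff_preconnectedSpace.mp (convex_box _).isPreconnected
  have h0 : (0 : E) ∈ Box (N / 8) := by
    constructor <;> simp [hN]
  refine ⟨m ⟨0, h0⟩, fun Z hZ => ?_⟩
  rw [hc.apply_eq_of_preconnectedSpace ⟨0, h0⟩ ⟨Z, hZ⟩]
  exact hm ⟨Z, hZ⟩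

theorem Inv.adp_base (hX : Inv J Θ N X) (hF : Fol J Ψ P) (hd : k.1 * m.1 + k.2 * m.2 = 1) {Z : E}
    (hZ : lin m.1 (-k.2) m.2 k.1 Z ∈ Box N) {ζ l : ℂ}
    (h : P (Θ (lin m.1 (-k.2) m.2 k.1 Z)) = (ζ, l)) :
    ζ ∈ Om Θ Ψ N l ∧ (X (Ψ (ζ, l))).1 ^ k.1 * (X (Ψ (ζ, l))).2 ^ k.2 = Complex.exp Z.1 ∧
      (X (Ψ (ζ, l))).1 ^ (-m.2) * (X (Ψ (ζ, l))).2 ^ m.1 = Complex.exp Z.2 := by
  have hd' : (k.1 : ℂ) * m.1 + k.2 * m.2 = 1 := by exact_mod_cast hd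
  obtain ⟨h1, h2⟩ := hX.base hF hZ
  rw [h] at h1 h2
  refine ⟨h1, ?_, ?_⟩ <;>
    simp only [h2, lin, ← Complex.exp_int_mul, ← Complex.exp_add] <;> congr 1 <;> push_cast
  · linear_combination Z.1 * hd'
  · linear_combination Z.2 * hd'

theorem Inv.adp_point (hX : Inv J Θ N X) (hC : Cht J Θ N) (hd : k.1 * m.1 + k.2 * m.2 = 1)
    {Z : E} {ζ l : ℂ} (h : ζ ∈ Om Θ Ψ N l)
    (h1 : (X (Ψ (ζ, l))).1 ^ k.1 * (X (Ψ (ζ, l))).2 ^ k.2 = Complex.exp Z.1)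
    (h2 : (X (Ψ (ζ, l))).1 ^ (-m.2) * (X (Ψ (ζ, l))).2 ^ m.1 = Complex.exp Z.2) :
    Θ (lin m.1 (-k.2) m.2 k.1 Z) = Ψ (ζ, l) := by
  have hd' : (k.1 : ℂ) * m.1 + k.2 * m.2 = 1 := by exact_mod_cast hd
  obtain ⟨Y, hY, e⟩ := h
  rw [← e, hX.eq Y hY] at h1 h2
  simp only [← Complex.exp_int_mul, ← Complex.exp_add] at h1 h2
  obtain ⟨n, hn⟩ := Complex.exp_eq_exp_iff_exists_int.mp h1.symm
  obtain ⟨n', hn'⟩ := Complex.exp_eq_exp_iff_exists_int.mp h2.symm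
  rw [← e, ← hC.per Y (m.1 * n - k.2 * n') (m.2 * n + k.1 * n')]
  congr 1
  refine Prod.ext ?_ ?_ <;> simp only [lin, hn, hn', Prod.fst_add, Prod.snd_add] <;> push_cast
  · linear_combination Y.1 * hd'
  · linear_combination Y.2 * hd'

theorem exists_consts {A c₀ b N1 δ : ℝ} (Nm : ℝ) (hA : 0 < A) (hc : 0 < c₀) (hb : 1 ≤ b)
    (hδ : 0 < δ) : ∃ N ρ : ℝ, Nm ≤ N ∧ 0 < N ∧ 0 < ρ ∧ A * N < c₀ * ρ ^ 2 ∧ ρ ≤ N / 16 ∧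
      8 * (2 * b * ρ) ≤ N / (32 * b) ∧ 2 * N1 + 2 ≤ N / (32 * b) / 2 ∧
      30 * (3 * (2 * b * ρ)) * (N1 + 7) ≤ δ * (N / (32 * b) / 2) := by
  obtain ⟨s, s0, hs⟩ : ∃ s : ℝ, 1 ≤ s ∧ A < c₀ * s ^ 2 := by
    refine ⟨A / c₀ + 1, by have := div_pos hA hc; linarith, ?_⟩
    have h1 := div_pos hA hc
    have h2 : c₀ * (A / c₀) = A := mul_div_cancel₀ _ hc.ne'
    nlinarith [mul_pos hc (mul_pos h1 h1)]
  have b0 : 0 < b := by linarith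
  obtain ⟨t, t1, t2, t3, t5⟩ := ((eventually_ge_atTop (512 * b ^ 2 * s)).and
    ((eventually_ge_atTop (64 * b * (2 * N1 + 2))).and
      ((eventually_ge_atTop (11520 * b ^ 2 * s * (N1 + 7) / δ)).and
        (eventually_ge_atTop Nm)))).exists
  have b2 : 1 ≤ b ^ 2 := one_le_pow₀ hb
  have t4 : 16 * s ≤ t := by nlinarith
  have t0 : 1 ≤ t := by linarith
  rw [div_le_iff₀ hδ] at t3
  refine ⟨t ^ 2, s * t, by nlinarith, by positivity, by positivity, ?_, ?_, ?_, ?_, ?_⟩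
  · have : 0 < t ^ 2 := by positivity
    nlinarith
  · nlinarith
  · rw [le_div_iff₀ (by positivity)]
    nlinarith
  · rw [le_div_iff₀ (by positivity), le_div_iff₀ (by positivity)]
    nlinarith
  · rw [div_div, ← mul_div_assoc, le_div_iff₀ (by positivity)]
    nlinarith

end Pool.Agent.Lib.MP_7ed551_gt.Cy
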