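import Pool.Agent.Lib.MP_7ed551_gt.Cy.Defs

/-! Block N: definitions. -/

open scoped ContDiff Topology
open Set Filter Metric MeasureTheory Real

noncomputable section

namespace Pool.Agent.Lib.MP_7ed551_gt.Cy

open Pool.Agent.Lib.MP_ccffa6_gt (Form1 dF pb px py JHol dens)

/-- `χ_x + i χ_y`. -/
def gr (χ : ℂ → ℝ) (ζ : ℂ) : ℂ := ((px χ ζ : ℝ) : ℂ) + Complex.I * ((py χ ζ : ℝ) : ℂ)

/-- The winding number of `f` along the cycle dual to `dχ`. -/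
def wn (χ : ℂ → ℝ) (f : ℂ → ℂ) : ℝ := -(2 * π)⁻¹ * ∫ ζ, (gr χ ζ * (deriv f ζ / f ζ)).re

/-- The closed set where `χ` is not locally constant. -/
def Kd (χ : ℂ → ℝ) : Set ℂ := tsupport (fderiv ℝ χ)

/-- A smooth compactly supported function. -/
structure Bmp (χ : ℂ → ℝ) : Prop where
  sm : ContDiff ℝ ∞ χ
  cpt : HasCompactSupport χ

/-- A holomorphic function without zeros on an open set. -/
structure HolN (U : Set ℂ) (f : ℂ → ℂ) : Prop where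
  op : IsOpen U
  hol : DifferentiableOn ℂ f U
  ne : ∀ ζ ∈ U, f ζ ≠ 0

/-- A cut-off function which is locally `0` or `1` off `V`. -/
structure Cut (V : Set ℂ) (χ : ℂ → ℝ) : Prop where
  bmp : Bmp χ
  nn : ∀ ζ, 0 ≤ χ ζ
  le : ∀ ζ, χ ζ ≤ 1
  loc : ∀ ζ, ζ ∉ V → χ =ᶠ[𝓝 ζ] (fun _ => 0) ∨ χ =ᶠ[𝓝 ζ] fun _ => 1

/-- A cut-off function of `D`: supported in `D`, locally `1` on `D \ W`. -/
structure CutD (D W : Set ℂ) (χ : ℂ → ℝ) : Prop where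
  cut : Cut W χ
  supp : tsupport χ ⊆ D
  one : ∀ ζ ∈ D, ζ ∉ W → χ =ᶠ[𝓝 ζ] fun _ => 1

/-- `log ‖f‖`. -/
def xi (f : ℂ → ℂ) (ζ : ℂ) : ℝ := Real.log ‖f ζ‖

/-- The flat area density. -/
def fl (z1 z2 : ℂ → ℂ) (ζ : ℂ) : ℝ := ‖deriv z1 ζ / z1 ζ‖ ^ 2 + ‖deriv z2 ζ / z2 ζ‖ ^ 2

/-- The preimage of an open square. -/
def Core (Ω : Set ℂ) (z1 z2 : ℂ → ℂ) (t : ℝ) : Set ℂ :=
  {ζ | ζ ∈ Ω ∧ |xi z1 ζ| < t ∧ |xi z2 ζ| < t}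

/-- The preimage of a closed square with centre `ξ (p)`. -/
def Cell (Ω : Set ℂ) (z1 z2 : ℂ → ℂ) (p : ℂ) (ρ : ℝ) : Set ℂ :=
  {ζ | ζ ∈ Ω ∧ |xi z1 ζ - xi z1 p| ≤ ρ ∧ |xi z2 ζ - xi z2 p| ≤ ρ}

/-- A leaf seen from the plane: `P dx + Q dy` is the pulled back primitive. -/
structure Lf (S Ω : Set ℂ) (P Q : ℂ → ℝ) (z1 z2 : ℂ → ℂ) (N c a A : ℝ) (k : ℤ × ℤ) : Prop where
  opS : IsOpen S
  bdS : Bornology.IsBounded S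
  full : ∀ D : Set ℂ, IsOpen D → Bornology.IsBounded D → frontier D ⊆ S → D ⊆ S
  sub : Ω ⊆ S
  smP : ContDiff ℝ ∞ P
  smQ : ContDiff ℝ ∞ Q
  pos : ∀ ζ, 0 < px Q ζ - py P ζ
  area : ∫ ζ in S, (px Q ζ - py P ζ) ≤ A
  h1 : HolN Ω z1
  h2 : HolN Ω z2
  prop : ∀ t < N, IsCompact {ζ | ζ ∈ Ω ∧ |xi z1 ζ| ≤ t ∧ |xi z2 ζ| ≤ t}
  form : ∃ G : ℂ → ℝ, ContDiffOn ℝ ∞ G Ω ∧ ∀ ζ ∈ Ω, ∀ v : ℂ, P ζ * v.re + Q ζ * v.im =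
    (c * xi z1 ζ + a / (2 * π) * k.1) * (deriv z1 ζ / z1 ζ * v).im +
      (c * xi z2 ζ + a / (2 * π) * k.2) * (deriv z2 ζ / z2 ζ * v).im + fderiv ℝ G ζ v

/-- The same data after the form has been made closed on the core. -/
structure Lm (Ω : Set ℂ) (z1 z2 : ℂ → ℂ) (μ : ℂ → ℝ) (N a B : ℝ) (k : ℤ × ℤ) : Prop where
  N0 : 0 < N
  a0 : 0 < a
  h1 : HolN Ω z1
  h2 : HolN Ω z2
  prop : IsCompact {ζ | ζ ∈ Ω ∧ |xi z1 ζ| ≤ N / 2 ∧ |xi z2 ζ| ≤ N / 2}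
  cμ : Continuous μ
  nn : ∀ ζ, 0 ≤ μ ζ
  zero : ∀ ζ ∈ Core Ω z1 z2 (N / 4), μ ζ = 0
  sub : ∀ ζ, μ ζ = 0 → ζ ∈ Ω
  mass : ∀ χ, Cut (Core Ω z1 z2 (N / 4)) χ →
    ∫ ζ, χ ζ * μ ζ = a * (k.1 * wn χ z1 + k.2 * wn χ z2) ∧ ∫ ζ, χ ζ * μ ζ < 2 * a
  int : IntegrableOn (fl z1 z2) Ω
  flat : ∫ ζ in Ω, fl z1 z2 ζ ≤ B

/-- A cut-off function which carries the mass. -/
def Mas (Ω : Set ℂ) (z1 z2 : ℂ → ℂ) (N : ℝ) (k : ℤ × ℤ) (χ : ℂ → ℝ) : Prop :=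
  Cut (Core Ω z1 z2 (N / 4)) χ ∧ k.1 * wn χ z1 + k.2 * wn χ z2 = 1

/-- A continuum `C` with the union `D` of the bounded components of its complement. -/
structure Ring (C D : Set ℂ) : Prop where
  cpt : IsCompact C
  con : IsPreconnected C
  ne : C.Nonempty
  op : IsOpen D
  bdd : Bornology.IsBounded D
  dis : Disjoint C D
  fr : frontier D ⊆ C
  out : IsPreconnected (C ∪ D)ᶜ

/-- A ring in the core around the mass. -/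
structure MRing (Ω : Set ℂ) (z1 z2 : ℂ → ℂ) (N : ℝ) (k : ℤ × ℤ) (C D : Set ℂ) : Prop where
  ring : Ring C D
  sub : C ⊆ Core Ω z1 z2 (N / 4)
  mas : ∀ W χ, IsOpen W → C ⊆ W → W ⊆ Core Ω z1 z2 (N / 4) → CutD D W χ → Mas Ω z1 z2 N k χ

/-- The class of the leaf. -/
def Cls (Ω : Set ℂ) (z1 z2 : ℂ → ℂ) (N : ℝ) (k m : ℤ × ℤ) : Prop :=
  k.1 * m.1 + k.2 * m.2 = 1 ∧ ∀ χ, Mas Ω z1 z2 N k χ → wn χ z1 = m.1 ∧ wn χ z2 = m.2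

/-- `X = (exp Z.1, exp Z.2)` on the image of the box. -/
structure Inv (J : E → E →L[ℝ] E) (Θ : E → E) (N : ℝ) (X : E → E) : Prop where
  op : IsOpen (Θ '' Box N)
  sm : ContDiffOn ℝ ∞ X (Θ '' Box N)
  eq : ∀ Z ∈ Box N, X (Θ Z) = (Complex.exp Z.1, Complex.exp Z.2)
  hol : ∀ y ∈ Θ '' Box N, ∀ v, fderiv ℝ X y (J y v) = Complex.I • fderiv ℝ X y v

/-- The part of the leaf `c` in the chart. -/
def Om (Θ Ψ : E → E) (N : ℝ) (c : ℂ) : Set ℂ := {ζ | Ψ (ζ, c) ∈ Θ '' Box N}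

end Pool.Agent.Lib.MP_7ed551_gt.Cy
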