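import Pool.Agent.Lib.MP_7ed551_gt.Cy.N.Wn1
import Pool.Agent.Lib.MP_ccffa6_gt.T.Base0

/-! Winding numbers are integers. -/

open scoped ContDiff Topology
open Set Filter Metric MeasureTheory Real

noncomputable section

namespace Pool.Agent.Lib.MP_7ed551_gt.Cy

open Pool.Agent.Lib.MP_ccffa6_gt (Form1 dF pb px py JHol dens)
open Pool.Agent.Lib.MP_ccffa6_gt (Rect green Base0_mem Base0_int convex_rect measurableSet_rect
  cr_of_hasDerivAt)

theorem nint_shift {A : Type} [AddCommGroup A] (I : Finset (ℤ × ℤ)) (H : ℤ × ℤ → A) (e : ℤ × ℤ)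
    (h : ∀ y, ¬ (y ∈ I ↔ y - e ∈ I) → H y = 0) : ∑ x ∈ I, H (x + e) = ∑ x ∈ I, H x := by
  have hm : ∀ y, y ∈ I.map (Equiv.addRight e).toEmbedding ↔ y - e ∈ I := by
    intro y
    rw [Finset.mem_map_equiv, sub_eq_add_neg]
    rfl
  have e1 : ∑ x ∈ I, H (x + e) = ∑ y ∈ I.map (Equiv.addRight e).toEmbedding, H y := by
    rw [Finset.sum_map]
    rfl
  rw [e1]
  refine Finset.sum_congr_of_eq_on_inter (fun y h1 h2 => h y fun h3 => h2 (h3.2 ((hm y).1 h1)))
    (fun y h1 h2 => h y fun h3 => h2 ((hm y).2 (h3.1 h1))) fun _ _ _ => rfl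

/- Reindex: the coefficient of `H (i, j)` is `1_I (i, j) - 1_I (i, j - 1)`. -/
theorem edge_sum {A : Type} [AddCommGroup A] (I : Finset (ℤ × ℤ)) (H V : ℤ × ℤ → A)
    (hH : ∀ i j, ¬ ((i, j) ∈ I ↔ (i, j - 1) ∈ I) → H (i, j) = 0)
    (hV : ∀ i j, ¬ ((i, j) ∈ I ↔ (i - 1, j) ∈ I) → V (i, j) = 0) :
    ∑ x ∈ I, (H x - H (x.1, x.2 + 1) + V (x.1 + 1, x.2) - V x) = 0 := by
  have h1 := nint_shift I H (0, 1) fun y hy => hH y.1 y.2 (by
    have e : y - (0, 1) = (y.1, y.2 - 1) := by ext <;> simp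
    rwa [e] at hy)
  have h2 := nint_shift I V (1, 0) fun y hy => hV y.1 y.2 (by
    have e : y - (1, 0) = (y.1 - 1, y.2) := by ext <;> simp
    rwa [e] at hy)
  have e1 : ∀ x : ℤ × ℤ, x + (0, 1) = (x.1, x.2 + 1) := fun x => by ext <;> simp
  have e2 : ∀ x : ℤ × ℤ, x + (1, 0) = (x.1 + 1, x.2) := fun x => by ext <;> simp
  simp only [e1] at h1
  simp only [e2] at h2
  simp only [Finset.sum_sub_distrib, Finset.sum_add_distrib, h1, h2]
  abel

theorem nint_cont {U : Set ℂ} {f : ℂ → ℂ} (hf : HolN U f) (a v : ℂ) :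
    ContinuousOn (fun t : ℝ => deriv f (a + t * v) / f (a + t * v) * v) {t : ℝ | a + t * v ∈ U} :=
  (hf.logd.continuousOn.comp (f := fun t : ℝ => a + t * v) (by fun_prop)
    fun _ ht => ht).mul continuousOn_const

/- `t ↦ f (a + t v) * exp (-∫ s in 0..t, f' / f * v)` is constant. -/
theorem exp_integral_logd {U : Set ℂ} {f : ℂ → ℂ} (hf : HolN U f) (a v : ℂ) {t₀ t₁ : ℝ}
    (ht : t₀ ≤ t₁) (h : ∀ t ∈ Icc t₀ t₁, a + t * v ∈ U) :
    f (a + t₁ * v) = f (a + t₀ * v) *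
      Complex.exp (∫ t in t₀..t₁, deriv f (a + t * v) / f (a + t * v) * v) := by
  have hW : IsOpen {t : ℝ | a + t * v ∈ U} := hf.op.preimage (by fun_prop)
  have hk := nint_cont hf a v
  have hd : ∀ t ∈ Icc t₀ t₁, HasDerivAt (fun t : ℝ => f (a + t * v) *
      Complex.exp (-∫ s in t₀..t, deriv f (a + s * v) / f (a + s * v) * v)) 0 t := by
    intro t ht'
    have h1 : HasDerivAt (fun t : ℝ => f (a + t * v)) (deriv f (a + t * v) * v) t := by
      have h2 : HasDerivAt (fun z : ℂ => a + z * v) v (t : ℂ) := by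
        simpa using ((hasDerivAt_id (t : ℂ)).mul_const v).const_add a
      exact (((hf.hol _ (h t ht')).differentiableAt (hf.op.mem_nhds (h t ht'))).hasDerivAt.comp
        (t : ℂ) h2).comp_ofReal
    have h2 := intervalIntegral.integral_hasDerivAt_right (a := t₀)
      ((hk.mono fun s hs => h s (Icc_subset_Icc_right ht'.2 hs)).intervalIntegrable_of_Icc ht'.1)
      (hk.stronglyMeasurableAtFilter hW t (h t ht')) (hk.continuousAt (hW.mem_nhds (h t ht')))
    refine (h1.mul h2.neg.cexp).congr_deriv ?_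
    have := hf.ne _ (h t ht')
    field_simp
    ring
  have h3 := constant_of_has_deriv_right_zero
    (fun t ht' => (hd t ht').continuousAt.continuousWithinAt)
    (fun t ht' => (hd t (Ico_subset_Icc_self ht')).hasDerivWithinAt) t₁ (right_mem_Icc.2 ht)
  simp only [intervalIntegral.integral_same, neg_zero, Complex.exp_zero, mul_one] at h3
  rw [← h3, mul_assoc, ← Complex.exp_add, neg_add_cancel, Complex.exp_zero, mul_one]

theorem nint_edge {U : Set ℂ} {f : ℂ → ℂ} (hf : HolN U f) (a v : ℂ) {t₀ t₁ : ℝ} (ht : t₀ ≤ t₁)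
    {k : ℝ → ℝ} (h : ∀ t ∈ Icc t₀ t₁, a + t * v ∈ U ∧
      k t = (deriv f (a + t * v) / f (a + t * v) * v).im) :
    ((∫ t in t₀..t₁, k t : ℝ) : Real.Angle) -
      ((f (a + t₁ * v)).arg - (f (a + t₀ * v)).arg) = 0 := by
  have e : ∫ t in t₀..t₁, k t =
      (∫ t in t₀..t₁, deriv f (a + t * v) / f (a + t * v) * v).im := by
    rw [intervalIntegral.integral_congr fun t ht' => (h t (by rwa [uIcc_of_le ht] at ht')).2]
    exact Complex.imCLM.intervalIntegral_comp_comm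
      (((nint_cont hf a v).mono fun s hs => (h s hs).1).intervalIntegrable_of_Icc ht)
  rw [e, exp_integral_logd hf a v ht fun t ht' => (h t ht').1,
    Complex.arg_mul_coe_angle (hf.ne _ (h t₀ (left_mem_Icc.2 ht)).1) (Complex.exp_ne_zero _),
    Complex.arg_exp, Real.Angle.coe_toIocMod]
  abel

/-- A square of the grid. -/
def nintSq (d : ℝ) (x : ℤ × ℤ) : Set ℂ :=
  Rect (x.1 * d) ((x.1 + 1 : ℤ) * d) (x.2 * d) ((x.2 + 1 : ℤ) * d)

theorem nint_le {d : ℝ} (hd : 0 < d) (i : ℤ) : (i : ℝ) * d ≤ (i + 1 : ℤ) * d := by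
  push_cast
  linarith

theorem nint_floor {d : ℝ} (hd : 0 < d) (t : ℝ) :
    t ∈ Icc ((⌊t / d⌋ : ℝ) * d) ((⌊t / d⌋ + 1 : ℤ) * d) := by
  refine ⟨(le_div_iff₀ hd).1 (Int.floor_le _), (div_le_iff₀ hd).1 ?_⟩
  push_cast
  exact (Int.lt_floor_add_one _).le

theorem nint_Ioo {d : ℝ} (hd : 0 < d) {i j : ℤ} {t : ℝ} (hi : t ∈ Ioo ((i : ℝ) * d) ((i + 1 : ℤ) * d))
    (hj : t ∈ Ioo ((j : ℝ) * d) ((j + 1 : ℤ) * d)) : i = j := by
  have h1 := Int.cast_lt.1 (lt_of_mul_lt_mul_right (hi.1.trans hj.2) hd.le)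
  have h2 := Int.cast_lt.1 (lt_of_mul_lt_mul_right (hj.1.trans hi.2) hd.le)
  omega

theorem nint_split {d : ℝ} (hd : 0 < d) {F : ℂ → ℝ} (hF : Integrable F) (I : Finset (ℤ × ℤ))
    (h : ∀ x, x ∉ I → ∀ z ∈ nintSq d x, F z = 0) : ∫ z, F z = ∑ x ∈ I, ∫ z in nintSq d x, F z := by
  have hU : ⋃ x, nintSq d x = univ := eq_univ_of_forall fun z =>
    mem_iUnion.2 ⟨(⌊z.re / d⌋, ⌊z.im / d⌋), nint_floor hd _, nint_floor hd _⟩
  have hi : ∀ x, nintSq d x =ᵐ[volume] interior (nintSq d x) := fun x =>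
    (interior_ae_eq_of_null_frontier ((convex_rect ..).addHaar_frontier volume)).symm
  have h1 := hasSum_integral_iUnion_ae (f := F) (μ := volume) (s := nintSq d)
    (fun x => (measurableSet_rect ..).nullMeasurableSet)
    (fun x y hxy => AEDisjoint.congr (Disjoint.aedisjoint (disjoint_left.2 fun z hx hy => by
      rw [nintSq, Base0_int] at hx hy
      exact hxy (Prod.ext (nint_Ioo hd hx.1 hy.1) (nint_Ioo hd hx.2 hy.2)))) (hi x) (hi y))
    hF.integrableOn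
  rw [hU, Measure.restrict_univ] at h1
  exact h1.unique (hasSum_sum_of_ne_finset_zero fun x hx =>
    setIntegral_eq_zero_of_forall_eq_zero (h x hx))

theorem nint_dist {d : ℝ} {x : ℤ × ℤ} {z w : ℂ} (hz : z ∈ nintSq d x) (hw : w ∈ nintSq d x) :
    dist z w ≤ 2 * d := by
  obtain ⟨⟨a1, a2⟩, a3, a4⟩ := hz
  obtain ⟨⟨b1, b2⟩, b3, b4⟩ := hw
  push_cast at a2 a4 b2 b4
  have h1 : |(z - w).re| ≤ d := abs_le.2 ⟨by simp; linarith, by simp; linarith⟩
  have h2 : |(z - w).im| ≤ d := abs_le.2 ⟨by simp; linarith, by simp; linarith⟩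
  rw [dist_eq_norm]
  linarith [Complex.norm_le_abs_re_add_abs_im (z - w)]

theorem nint_bd {d R : ℝ} (hd : 0 < d) {i : ℤ} {t : ℝ} (ht : |t| ≤ R)
    (hi : t ∈ Icc ((i : ℝ) * d) ((i + 1 : ℤ) * d)) : i ∈ Icc (⌈-R / d⌉ - 1) ⌊R / d⌋ := by
  obtain ⟨h1, h2⟩ := abs_le.1 ht
  refine ⟨sub_le_iff_le_add.2 (Int.ceil_le.2 ((div_le_iff₀ hd).2 (h1.trans hi.2))),
    Int.le_floor.2 ((le_div_iff₀ hd).2 (hi.1.trans h2))⟩

theorem nint_fin {d : ℝ} (hd : 0 < d) {K : Set ℂ} (hK : IsCompact K) :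
    {x | (nintSq d x ∩ K).Nonempty}.Finite := by
  obtain ⟨R, hR⟩ := hK.isBounded.exists_norm_le
  refine ((finite_Icc (⌈-R / d⌉ - 1) ⌊R / d⌋).prod (finite_Icc (⌈-R / d⌉ - 1) ⌊R / d⌋)).subset ?_
  rintro x ⟨z, hz, hz'⟩
  exact ⟨nint_bd hd ((Complex.abs_re_le_norm z).trans (hR z hz')) hz.1,
    nint_bd hd ((Complex.abs_im_le_norm z).trans (hR z hz')) hz.2⟩

theorem nint_form {V : Set ℂ} {χ : ℂ → ℝ} {g : ℂ → ℂ} (h : Bmp χ) (hV : IsOpen V)
    (hg : DifferentiableOn ℂ g V) {z : ℂ} (hz : z ∈ V ∨ χ =ᶠ[𝓝 z] fun _ => 1) :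
    ContDiffAt ℝ 1 (fun z => (1 - χ z) * (g z).im) z ∧
      ContDiffAt ℝ 1 (fun z => (1 - χ z) * (g z).re) z ∧
      px (fun z => (1 - χ z) * (g z).re) z - py (fun z => (1 - χ z) * (g z).im) z =
        -(gr χ z * g z).re := by
  rcases hz with hz | hz
  · have h1 : ContDiffAt ℝ 1 χ z := (h.sm.of_le (by exact_mod_cast le_top)).contDiffAt
    have h2 : ContDiffAt ℝ 1 g z :=
      ((hg.contDiffOn hV).contDiffAt (hV.mem_nhds hz)).restrict_scalars ℝ
    have h3 := (hasFDerivAt_const (1 : ℝ) z).sub (h1.differentiableAt one_ne_zero).hasFDerivAt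
    have h4 := (h2.differentiableAt one_ne_zero).hasFDerivAt
    have h5 := h3.mul (Complex.reCLM.hasFDerivAt.comp z h4)
    have h6 := h3.mul (Complex.imCLM.hasFDerivAt.comp z h4)
    obtain ⟨c1, c2⟩ := cr_of_hasDerivAt (hg.differentiableAt (hV.mem_nhds hz)).hasDerivAt
    refine ⟨(contDiffAt_const.sub h1).mul (Complex.imCLM.contDiff.contDiffAt.comp z h2),
      (contDiffAt_const.sub h1).mul (Complex.reCLM.contDiff.contDiffAt.comp z h2), ?_⟩
    rw [px, py] at *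
    erw [h5.fderiv, h6.fderiv]
    simp [gr, px, py, c1, c2]
    ring
  · have e : ∀ k : ℂ → ℝ, (fun z => (1 - χ z) * k z) =ᶠ[𝓝 z] fun _ => 0 := fun k =>
      hz.mono fun w hw => by simp [show χ w = 1 from hw]
    refine ⟨contDiffAt_const.congr_of_eventuallyEq (e _),
      contDiffAt_const.congr_of_eventuallyEq (e _), ?_⟩
    rw [px, py, (e _).fderiv_eq, (e _).fderiv_eq, gr_eq_zero (notMem_kd hz)]
    simp

/- The open set `D = V ∪ {ζ | χ =ᶠ[𝓝 ζ] 1}` contains `tsupport χ`.  `I` = the squares of a grid of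
mesh `d` which meet `tsupport χ`, all inside `D`.  `w = (1 - χ) f' / f` is smooth on `D`;
`green` (T/Base0) on each square with `P = im w`, `Q = re w`; on `D` the integrand is
`-(gr χ * (f' / f)).re`.  On an edge between a square of `I` and another one `χ = 0`, the edge lies
in `V`, and the edge integral is `arg f (end) - arg f (start)` in `ℝ ⧸ zmultiples (2 π)`
(`Real.Angle`); `edge_sum` for the difference, the rest telescopes. -/
theorem wn_int {V : Set ℂ} {χ : ℂ → ℝ} {f : ℂ → ℂ} (h : Cut V χ) (hf : HolN V f) :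
    ∃ m : ℤ, wn χ f = m := by
  have hD : IsOpen {z | z ∈ V ∨ χ =ᶠ[𝓝 z] fun _ => 1} :=
    hf.op.union isOpen_setOfPred_eventually_nhds
  have hK : IsCompact (tsupport χ) := h.bmp.cpt
  obtain ⟨δ, hδ, hs⟩ := hK.exists_cthickening_subset_open hD fun z hz => by
    by_cases hV : z ∈ V
    · exact Or.inl hV
    · exact Or.inr ((h.loc z hV).resolve_left fun h0 => notMem_tsupport_iff_eventuallyEq.2 h0 hz)
  obtain ⟨d, hd, rfl⟩ : ∃ d : ℝ, 0 < d ∧ δ = 2 * d := ⟨δ / 2, by positivity, by ring⟩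
  obtain ⟨I, hI⟩ := (nint_fin hd hK).exists_finset
  have hin : ∀ x ∈ I, ∀ z ∈ nintSq d x, z ∈ V ∨ χ =ᶠ[𝓝 z] fun _ => 1 := fun x hx z hz => by
    obtain ⟨w, hw, hw'⟩ := (hI x).1 hx
    exact hs (mem_cthickening_of_dist_le z w _ _ hw' (nint_dist hz hw))
  have hout : ∀ x, x ∉ I → ∀ z ∈ nintSq d x, z ∉ tsupport χ := fun x hx z hz hz' =>
    hx ((hI x).2 ⟨z, hz, hz'⟩)
  have hed : ∀ x y z, ¬ (x ∈ I ↔ y ∈ I) → z ∈ nintSq d x → z ∈ nintSq d y → z ∈ V ∧ χ z = 0 := by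
    have key : ∀ x y z, x ∈ I → y ∉ I → z ∈ nintSq d x → z ∈ nintSq d y → z ∈ V ∧ χ z = 0 := by
      intro x y z hx hy h1 h2
      have h0 := image_eq_zero_of_notMem_tsupport (hout y hy z h2)
      refine ⟨(hin x hx z h1).resolve_right fun h3 => ?_, h0⟩
      exact zero_ne_one (h0.symm.trans h3.self_of_nhds)
    intro x y z hn h1 h2
    by_cases hx : x ∈ I
    · exact key x y z hx (fun hy => hn (iff_of_true hx hy)) h1 h2
    · exact key y x z (by_contra fun hy => hn (iff_of_false hx hy)) hx h2 h1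
  let P : ℂ → ℝ := fun z => (1 - χ z) * (deriv f z / f z).im
  let Q : ℂ → ℝ := fun z => (1 - χ z) * (deriv f z / f z).re
  let H : ℤ × ℤ → ℝ := fun x => ∫ t in (x.1 * d)..((x.1 + 1 : ℤ) * d),
    P (t + ((x.2 * d : ℝ) : ℂ) * Complex.I)
  let W : ℤ × ℤ → ℝ := fun x => ∫ t in (x.2 * d)..((x.2 + 1 : ℤ) * d),
    Q (((x.1 * d : ℝ) : ℂ) + t * Complex.I)
  let a : ℤ → ℤ → Real.Angle := fun i j =>
    (f (((i * d : ℝ) : ℂ) + ((j * d : ℝ) : ℂ) * Complex.I)).arg
  have h1 : -∫ z, (gr χ z * (deriv f z / f z)).re =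
      ∑ x ∈ I, (H x - H (x.1, x.2 + 1) + W (x.1 + 1, x.2) - W x) := by
    rw [nint_split (F := fun z => (gr χ z * (deriv f z / f z)).re) hd
      (h.bmp.integrable_gr hf.op h.kd hf.logd.continuousOn).re I
      fun x hx z hz => by simp [gr_eq_zero fun h' => hout x hx z hz (kd_subset h')],
      ← Finset.sum_neg_distrib]
    refine Finset.sum_congr rfl fun x hx => ?_
    have h2 := fun z hz => nint_form h.bmp hf.op hf.logd (hin x hx z hz)
    rw [← integral_neg]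
    refine Eq.trans (setIntegral_congr_fun (measurableSet_rect ..) fun z hz => (h2 z hz).2.2.symm)
      (green (nint_le hd x.1) (nint_le hd x.2) (fun z hz => (h2 z hz).1) fun z hz => (h2 z hz).2.1)
  have h2 := edge_sum I (fun x => (H x : Real.Angle) - (a (x.1 + 1) x.2 - a x.1 x.2))
    (fun x => (W x : Real.Angle) - (a x.1 (x.2 + 1) - a x.1 x.2)) (fun i j hn => by
      have e : ∀ t : ℝ, ((j * d : ℝ) : ℂ) * Complex.I + t * 1 =
          t + ((j * d : ℝ) : ℂ) * Complex.I := fun t => by ring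
      have := nint_edge hf (((j * d : ℝ) : ℂ) * Complex.I) 1 (nint_le hd i)
        (k := fun t => P (t + ((j * d : ℝ) : ℂ) * Complex.I)) fun t ht => by
          obtain ⟨h3, h4⟩ := hed _ _ _ hn (Base0_mem ht (left_mem_Icc.2 (nint_le hd j)))
            (Base0_mem ht (by simpa using nint_le hd (j - 1)))
          rw [e]
          exact ⟨h3, by simp only [P, h4, sub_zero, one_mul, mul_one]⟩
      rwa [e, e] at this)
    fun i j hn => nint_edge hf ((i * d : ℝ) : ℂ) Complex.I (nint_le hd j)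
      (k := fun t => Q (((i * d : ℝ) : ℂ) + t * Complex.I)) fun t ht => by
        obtain ⟨h3, h4⟩ := hed _ _ _ hn (Base0_mem (left_mem_Icc.2 (nint_le hd i)) ht)
          (Base0_mem (by simpa using nint_le hd (i - 1)) ht)
        exact ⟨h3, by simp only [Q, h4, sub_zero, one_mul, Complex.mul_I_im]⟩
  have h3 : ((-∫ z, (gr χ z * (deriv f z / f z)).re : ℝ) : Real.Angle) = (0 : ℝ) := by
    rw [h1, ← Real.Angle.coe_coeHom, map_sum, map_zero, ← h2]
    refine Finset.sum_congr rfl fun x _ => ?_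
    simp only [map_sub, map_add, Real.Angle.coe_coeHom]
    abel
  obtain ⟨m, hm⟩ := Real.Angle.angle_eq_iff_two_pi_dvd_sub.1 h3
  refine ⟨m, ?_⟩
  rw [wn, neg_mul, ← mul_neg, ← sub_zero (-_), hm]
  have := Real.pi_ne_zero
  field_simp

end Pool.Agent.Lib.MP_7ed551_gt.Cy
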