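import Pool.Agent.Lib.MP_7ed551_gt.Cy.N.Defs

/-! Functions on the image of the chart; linear changes of the chart. -/

open scoped ContDiff Topology
open Set Filter Metric MeasureTheory Real

noncomputable section

namespace Pool.Agent.Lib.MP_7ed551_gt.Cy

open Pool.Agent.Lib.MP_ccffa6_gt (Form1 dF pb px py JHol dens dF_pb dF_apply)

variable {J : E → E →L[ℝ] E} {Θ : E → E} {N : ℝ}

theorem isOpen_box (N : ℝ) : IsOpen (Box N) :=
  IsOpen.and (isOpen_lt (by fun_prop) continuous_const) (isOpen_lt (by fun_prop) continuous_const)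

theorem inv_per {F : Type} {φ : E → F} (p1 : ∀ Z, φ (Z + (2 * π * Complex.I, 0)) = φ Z)
    (p2 : ∀ Z, φ (Z + (0, 2 * π * Complex.I)) = φ Z) (Z : E) (m n : ℤ) :
    φ (Z + (2 * π * Complex.I * m, 2 * π * Complex.I * n)) = φ Z := by
  rw [← Function.Periodic.zsmul p1 m Z, ← Function.Periodic.zsmul p2 n (Z + m • _), add_assoc]
  simp [mul_comm]

theorem Cht.per (h : Cht J Θ N) (Z : E) (m n : ℤ) :
    Θ (Z + (2 * π * Complex.I * m, 2 * π * Complex.I * n)) = Θ Z :=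
  inv_per h.per1 h.per2 Z m n

theorem inv_loc (h : Cht J Θ N) {Z : E} (hZ : Z ∈ Box N) {U : Set E} (hU : U ∈ 𝓝 Z) :
    ∃ σ : E → E, ContDiffAt ℝ ∞ σ (Θ Z) ∧ σ (Θ Z) = Z ∧
      ∀ᶠ y in 𝓝 (Θ Z), σ y ∈ U ∧ Θ (σ y) = y := by
  have d : HasFDerivAt Θ ((LinearEquiv.ofInjectiveEndo (fderiv ℝ Θ Z : E →ₗ[ℝ] E)
      (h.imm Z hZ)).toContinuousLinearEquiv : E →L[ℝ] E) Z :=
    (h.sm.differentiable (by simp) Z).hasFDerivAt
  have s := h.sm.contDiffAt.hasStrictFDerivAt' d (by simp)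
  exact ⟨_, h.sm.contDiffAt.to_localInverse d (by simp), s.localInverse_apply_image,
    (s.localInverse_tendsto.eventually hU).and s.eventually_right_inverse⟩

theorem Cht.isOpen_image (h : Cht J Θ N) {t : ℝ} (ht : t ≤ N) : IsOpen (Θ '' Box t) := by
  refine isOpen_iff_mem_nhds.2 ?_
  rintro _ ⟨Z, hZ, rfl⟩
  obtain ⟨σ, -, -, e⟩ := inv_loc h ⟨hZ.1.trans_le ht, hZ.2.trans_le ht⟩
    ((isOpen_box t).mem_nhds hZ)
  exact e.mono fun y hy => ⟨_, hy⟩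

/- Choice of a preimage; near `Θ Z` the function is `φ` composed with the local inverse. -/
theorem Cht.descend (h : Cht J Θ N) {F : Type} [NormedAddCommGroup F] [NormedSpace ℝ F]
    {φ : E → F} (hφ : ContDiff ℝ ∞ φ) (p1 : ∀ Z, φ (Z + (2 * π * Complex.I, 0)) = φ Z)
    (p2 : ∀ Z, φ (Z + (0, 2 * π * Complex.I)) = φ Z) :
    ∃ ψ : E → F, ContDiffOn ℝ ∞ ψ (Θ '' Box N) ∧ ∀ Z ∈ Box N, ψ (Θ Z) = φ Z := by
  have e : ∀ Z ∈ Box N, φ (Function.invFunOn Θ (Box N) (Θ Z)) = φ Z := fun Z hZ => by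
    obtain ⟨m, n, e⟩ := h.inj Z hZ _ (Function.invFunOn_apply_mem hZ)
      (Function.invFunOn_apply_eq hZ).symm
    rw [e, inv_per p1 p2]
  refine ⟨fun y => φ (Function.invFunOn Θ (Box N) y), ?_, e⟩
  rintro _ ⟨Z, hZ, rfl⟩
  obtain ⟨σ, s, -, k⟩ := inv_loc h hZ ((isOpen_box N).mem_nhds hZ)
  exact ((hφ.contDiffAt.comp _ s).congr_of_eventuallyEq (k.mono fun y hy =>
    (congrArg (fun y => φ (Function.invFunOn Θ (Box N) y)) hy.2.symm).trans
      (e _ hy.1))).contDiffWithinAt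

theorem Cht.exists_inv (h : Cht J Θ N) : ∃ X, Inv J Θ N X := by
  have c : ContDiff ℂ ∞ fun Z : E => (Complex.exp Z.1, Complex.exp Z.2) := by fun_prop
  obtain ⟨X, s, e⟩ := h.descend (c.restrict_scalars ℝ) (fun Z => by simp [Complex.exp_add])
    fun Z => by simp [Complex.exp_add]
  refine ⟨X, h.isOpen_image le_rfl, s, e, ?_⟩
  rintro _ ⟨Z, hZ, rfl⟩ v
  obtain ⟨u, rfl⟩ := LinearMap.injective_iff_surjective (f := (fderiv ℝ Θ Z : E →ₗ[ℝ] E)).1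
    (h.imm Z hZ) v
  have k := (((s.contDiffAt ((h.isOpen_image le_rfl).mem_nhds ⟨Z, hZ, rfl⟩)).differentiableAt
    (by simp)).hasFDerivAt.comp Z (h.sm.differentiable (by simp) Z).hasFDerivAt).unique
    (((c.differentiable (by simp) Z).hasFDerivAt.restrictScalars ℝ).congr_of_eventuallyEq
      (mem_of_superset ((isOpen_box N).mem_nhds hZ) e))
  exact (congrArg _ (h.hol Z hZ u)).trans ((DFunLike.congr_fun k _).trans
    (((fderiv ℂ _ Z).map_smul _ u).trans (congrArg _ (DFunLike.congr_fun k u).symm)))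

theorem Cht.isCompact_image (h : Cht J Θ N) (t : ℝ) :
    IsCompact (Θ '' {Z | |Z.1.re| ≤ t ∧ |Z.2.re| ≤ t}) := by
  have k : ∀ z : ℂ, |z.re| ≤ t → ∃ m : ℤ, |(z + 2 * π * Complex.I * m).re| ≤ t ∧
      ‖z + 2 * π * Complex.I * m‖ ≤ t + 2 * π := fun z hz => by
    obtain ⟨m, hm, -⟩ := existsUnique_add_zsmul_mem_Ico two_pi_pos z.im 0
    refine ⟨m, by simpa using hz, (Complex.norm_le_abs_re_add_abs_im _).trans
      (add_le_add (by simpa using hz) ?_)⟩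
    rw [show (z + 2 * π * Complex.I * m).im = z.im + m • (2 * π) by simp [mul_comm],
      abs_of_nonneg hm.1]
    simpa using hm.2.le
  have c : IsClosed {Z : E | |Z.1.re| ≤ t ∧ |Z.2.re| ≤ t} :=
    .and (isClosed_le (by fun_prop) continuous_const) (isClosed_le (by fun_prop) continuous_const)
  refine Eq.mp (congrArg IsCompact ((image_mono inter_subset_right).antisymm ?_))
    (((isCompact_closedBall (0 : E) (t + 2 * π)).inter_right c).image h.sm.continuous)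
  rintro _ ⟨Z, hZ, rfl⟩
  obtain ⟨m, m1, m2⟩ := k _ hZ.1
  obtain ⟨n, n1, n2⟩ := k _ hZ.2
  exact ⟨_, ⟨mem_closedBall_zero_iff.2 (max_le m2 n2), m1, n1⟩, h.per Z m n⟩

theorem lin_mem_box {p q r s : ℤ} {b t : ℝ} (b1 : |(p : ℝ)| ≤ b) (b2 : |(q : ℝ)| ≤ b)
    (b3 : |(r : ℝ)| ≤ b) (b4 : |(s : ℝ)| ≤ b) (ht : 2 * b * t < N) {Z : E} (hZ : Z ∈ Box t) :
    lin p q r s Z ∈ Box N := by
  have k : ∀ p q : ℤ, |(p : ℝ)| ≤ b → |(q : ℝ)| ≤ b → |(p * Z.1 + q * Z.2).re| < N :=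
    fun p q hp hq => by
    have b0 := (abs_nonneg _).trans hp
    rw [show (p * Z.1 + q * Z.2).re = p * Z.1.re + q * Z.2.re by simp]
    refine (abs_add_le _ _).trans_lt ?_
    rw [abs_mul, abs_mul]
    linarith [mul_le_mul hp hZ.1.le (abs_nonneg _) b0, mul_le_mul hq hZ.2.le (abs_nonneg _) b0]
  exact ⟨k p q b1 b2, k r s b3 b4⟩

theorem inv_lin (p q r s : ℤ) : ∃ L : E →L[ℝ] E, ⇑L = lin p q r s :=
  ⟨(((p : ℂ) • .fst ℂ ℂ ℂ + (q : ℂ) • .snd ℂ ℂ ℂ : E →L[ℂ] ℂ).prod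
    ((r : ℂ) • .fst ℂ ℂ ℂ + (s : ℂ) • .snd ℂ ℂ ℂ : E →L[ℂ] ℂ)).restrictScalars ℝ, rfl⟩

theorem inv_fd (hΘ : ContDiff ℝ ∞ Θ) (L : E →L[ℝ] E) (Z v : E) :
    fderiv ℝ (fun Z => Θ (L Z)) Z v = fderiv ℝ Θ (L Z) (L v) :=
  DFunLike.congr_fun ((hΘ.differentiable (by simp) _).hasFDerivAt.comp Z L.hasFDerivAt).fderiv v

theorem Cht.lin (h : Cht J Θ N) {p q r s : ℤ} (hd : p * s - q * r = 1) {t : ℝ}
    (ht : ∀ Z ∈ Box t, lin p q r s Z ∈ Box N) : Cht J (fun Z => Θ (lin p q r s Z)) t := by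
  have hd' : (p : ℂ) * s - q * r = 1 := by exact_mod_cast hd
  have i : ∀ (Z Z' : E) (m n : ℤ), Cy.lin p q r s Z' = Cy.lin p q r s Z +
      (2 * π * Complex.I * m, 2 * π * Complex.I * n) → Z' = Z + (2 * π * Complex.I *
        (s * m - q * n : ℤ), 2 * π * Complex.I * (p * n - r * m : ℤ)) := fun Z Z' m n e => by
    simp only [Cy.lin, Prod.ext_iff, Prod.fst_add, Prod.snd_add] at e ⊢
    push_cast
    exact ⟨by linear_combination s * e.1 - q * e.2 - (Z'.1 - Z.1) * hd',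
      by linear_combination p * e.2 - r * e.1 - (Z'.2 - Z.2) * hd'⟩
  obtain ⟨L, hL⟩ := inv_lin p q r s
  have e1 : L (2 * π * Complex.I, 0) = (2 * π * Complex.I * p, 2 * π * Complex.I * r) := by
    simp [hL, Cy.lin, mul_comm]
  have e2 : L (0, 2 * π * Complex.I) = (2 * π * Complex.I * q, 2 * π * Complex.I * s) := by
    simp [hL, Cy.lin, mul_comm]
  have e3 : ∀ v, L (Complex.I • v) = Complex.I • L v := fun v => by
    simp [hL, Cy.lin, mul_add, mul_left_comm]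
  rw [← hL] at i ht ⊢
  refine ⟨h.sm.comp L.contDiff, fun Z => by rw [map_add, e1, h.per],
    fun Z => by rw [map_add, e2, h.per], fun Z hZ Z' hZ' e => ?_, fun Z hZ u v e => ?_,
    fun Z hZ v => by rw [inv_fd h.sm, inv_fd h.sm, h.hol _ (ht Z hZ), e3]⟩
  · obtain ⟨m, n, e⟩ := h.inj _ (ht Z hZ) _ (ht Z' hZ') e
    exact ⟨_, _, i Z Z' m n e⟩
  · rw [inv_fd h.sm, inv_fd h.sm] at e
    simpa [Prod.mk_zero_zero] using i v u 0 0 (by
      simpa [Prod.mk_zero_zero] using h.imm _ (ht Z hZ) e)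

theorem inv_est {p x y z w : ℝ} (hx : |x| ≤ 1 / 100) (hy : |y| ≤ 1 / 100) (hz : |z| ≤ 1 / 100)
    (hw : |w| ≤ 1 / 100) : 99 / 100 * p ^ 2 - 2 / 100 ≤ (p + x) * (p + y) - z * w := by
  rw [abs_le] at hx hy hz hw
  nlinarith [sq_nonneg (p / 10 + 5 * (x + y)), mul_nonneg (sub_nonneg.2 hx.1) (sub_nonneg.2 hx.2),
    mul_nonneg (sub_nonneg.2 hy.1) (sub_nonneg.2 hy.2), mul_nonneg (sub_nonneg.2 hx.1)
    (sub_nonneg.2 hy.2), mul_nonneg (sub_nonneg.2 hx.1) (sub_nonneg.2 hy.1),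
    mul_nonneg (sub_nonneg.2 hz.1) (sub_nonneg.2 hw.2), hx.2, hy.2, hz.2, hw.1]

/- On the open box `dF (pb Θ Λ) Z u v = c ∑ (re u_j im v_j - re v_j im u_j)` (`dF_fderiv`);
`dF_pb`; at `a = b = 0` the value is `c (p ^ 2 + r ^ 2) ≥ c`. -/
theorem Can.slope {Λ : Form1 E} {c a : ℝ} {k : ℤ × ℤ} (h : Can Λ Θ N c a k)
    (hΛ : ContDiff ℝ ∞ Λ) (hΘ : ContDiff ℝ ∞ Θ) (hc : 0 < c) {p q r s : ℤ}
    (hd : p * s - q * r = 1) {b t : ℝ} (b1 : |(p : ℝ)| ≤ b) (b2 : |(q : ℝ)| ≤ b)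
    (b3 : |(r : ℝ)| ≤ b) (b4 : |(s : ℝ)| ≤ b) (ht : ∀ Z ∈ Box t, lin p q r s Z ∈ Box N) :
    Slope Λ (fun Z => Θ (lin p q r s Z)) t (1 / (100 * b ^ 2)) := by
  intro Z hZ u v hu hv
  obtain ⟨g, hg, -, -, e⟩ := h
  obtain ⟨L, hL⟩ := inv_lin p q r s
  have n0 : p ≠ 0 ∨ r ≠ 0 := by
    by_contra! h
    simp [h] at hd
  have n : 1 ≤ (p : ℝ) ^ 2 + (r : ℝ) ^ 2 := by
    exact_mod_cast (show 0 < p ^ 2 + r ^ 2 by rcases n0 with h | h <;> positivity)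
  have b0 : 1 ≤ b := n0.elim (fun h => le_trans (by exact_mod_cast Int.one_le_abs h) b1)
    fun h => le_trans (by exact_mod_cast Int.one_le_abs h) b3
  have m : ∀ {q x : ℝ} {u : ℂ}, |q| ≤ b → ‖u‖ ≤ 1 / (100 * b ^ 2) → |x| ≤ ‖u‖ →
      |q * x| ≤ 1 / 100 := fun hq hu hx => by
    rw [abs_mul]
    refine (mul_le_mul hq (hx.trans hu) (abs_nonneg _) (by positivity)).trans ?_
    rw [mul_one_div, div_le_div_iff₀ (by positivity) (by positivity)]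
    nlinarith
  have d2 : ∀ {F : Type} [NormedAddCommGroup F] [NormedSpace ℝ F] {f : E → F} {x : E},
      ContDiff ℝ ∞ f → ContDiffAt ℝ 2 f x := fun h => h.contDiffAt.of_le (by norm_cast)
  let i1 := Complex.imCLM.comp (ContinuousLinearMap.fst ℝ ℂ ℂ)
  let i2 := Complex.imCLM.comp (ContinuousLinearMap.snd ℝ ℂ ℂ)
  have d := ((((Complex.reCLM.hasFDerivAt.comp (L Z) hasFDerivAt_fst).const_mul c).add_const
    (a / (2 * π) * k.1)).smul_const i1).add ((((Complex.reCLM.hasFDerivAt.comp (L Z)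
      hasFDerivAt_snd).const_mul c).add_const (a / (2 * π) * k.2)).smul_const i2) |>.add
    (((d2 hg).fderiv_right (m := 1) le_rfl).differentiableAt one_ne_zero).hasFDerivAt
    |>.congr_of_eventuallyEq (f₁ := pb Θ Λ) (mem_of_superset ((isOpen_box N).mem_nhds
      (hL ▸ ht Z hZ)) fun y hy => ContinuousLinearMap.ext (e y hy))
  rw [← hL, dF_pb (φ := fun Z => Θ (L Z)) (d2 (hΘ.comp L.contDiff)) (hΛ.differentiable (by simp) _),
    inv_fd hΘ, inv_fd hΘ, ← dF_pb (d2 hΘ) (hΛ.differentiable (by simp) _), dF_apply, d.fderiv]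
  have := add_le_add (inv_est (p := p) (m b2 hu (Complex.abs_re_le_norm u))
    (m b2 hv (Complex.abs_im_le_norm v)) (m b2 hv (Complex.abs_re_le_norm v))
    (m b2 hu (Complex.abs_im_le_norm u))) (inv_est (p := r) (m b4 hu (Complex.abs_re_le_norm u))
    (m b4 hv (Complex.abs_im_le_norm v)) (m b4 hv (Complex.abs_re_le_norm v))
    (m b4 hu (Complex.abs_im_le_norm u)))
  have y := (d2 (x := L Z) hg).isSymmSndFDerivAt (by simp) (L (1, u)) (L (Complex.I, v))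
  simp only [add_apply, y]
  simp [i1, i2, hL, lin]
  nlinarith

end Pool.Agent.Lib.MP_7ed551_gt.Cy
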