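import Pool.Agent.Lib.MP_7ed551_gt.Cy.N.Wn0

/-! Plane topology of rings. -/

open scoped ContDiff Topology
open Set Filter Metric MeasureTheory Real

noncomputable section

namespace Pool.Agent.Lib.MP_7ed551_gt.Cy

open Pool.Agent.Lib.MP_ccffa6_gt (Form1 dF pb px py JHol dens)

variable {C D C' D' W : Set ℂ}

theorem top_far {R : ℝ} (hR : 0 ≤ R) : IsPreconnected {z : ℂ | R < ‖z‖} := by
  have h := ((isPreconnected_Ioi (a := R)).prod
    (isPreconnected_sphere (E := ℂ) (by simp) 0 1)).image (fun x : ℝ × ℂ => x.1 • x.2)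
    (by fun_prop)
  have e : (fun x : ℝ × ℂ => x.1 • x.2) '' (Ioi R ×ˢ sphere 0 1) = {z : ℂ | R < ‖z‖} := by
    ext z
    constructor
    · rintro ⟨⟨t, u⟩, ⟨ht, hu⟩, rfl⟩
      have ht' : R < t := ht
      have hu' : ‖u‖ = 1 := by simpa using hu
      show R < ‖t • u‖
      rw [norm_smul, hu', mul_one, Real.norm_eq_abs, abs_of_pos (hR.trans_lt ht')]
      exact ht'
    · intro hz
      have hz' : R < ‖z‖ := hz
      have h0 : ‖z‖ ≠ 0 := (hR.trans_lt hz').ne'
      refine ⟨(‖z‖, ‖z‖⁻¹ • z), ⟨hz', ?_⟩, ?_⟩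
      · rw [mem_sphere_zero_iff_norm, norm_smul, norm_inv, norm_norm, inv_mul_cancel₀ h0]
      · show ‖z‖ • ‖z‖⁻¹ • z = z
        rw [smul_inv_smul₀ h0]
  rwa [e] at h

theorem top_fr {F : Set ℂ} (hF : IsOpen F) (x : ℂ) :
    frontier (connectedComponentIn F x) ⊆ Fᶜ := by
  intro y hy hyF
  rw [hF.connectedComponentIn.frontier_eq] at hy
  obtain ⟨w, hw, hw'⟩ := mem_closure_iff.1 hy.1 _ (hF.connectedComponentIn (x := y))
    (mem_connectedComponentIn hyF)
  refine hy.2 ?_
  rw [connectedComponentIn_eq hw', ← connectedComponentIn_eq hw]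
  exact mem_connectedComponentIn hyF

theorem top_univ {S : Set ℂ} (hb : Bornology.IsBounded S) : S ≠ univ := fun h =>
  NormedSpace.unbounded_univ ℝ ℂ (h ▸ hb)

theorem Ring.top_cl (h : Ring C D) : closure D ⊆ C ∪ D := by
  rw [closure_eq_self_union_frontier, union_comm]
  exact union_subset_union_left _ h.fr

theorem Ring.top_closed (h : Ring C D) : IsClosed (C ∪ D) := by
  refine closure_subset_iff_isClosed.1 ?_
  rw [closure_union, h.cpt.isClosed.closure_eq]
  exact union_subset subset_union_left h.top_cl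

theorem Ring.top_or (h : Ring C D) {T : Set ℂ} (hT : IsPreconnected T) (hd : Disjoint C T) :
    T ⊆ D ∨ T ⊆ (C ∪ D)ᶜ := by
  refine hT.subset_or_subset h.op h.top_closed.isOpen_compl
    (disjoint_compl_right.mono_left subset_union_right) fun x hx => ?_
  by_cases hD : x ∈ D
  · exact Or.inl hD
  · exact Or.inr fun h' => h'.elim (fun hC => disjoint_left.1 hd hC hx) hD

theorem Ring.top_in (h : Ring C D) (h' : Ring C' D') (hd : Disjoint C C') (hs : C' ⊆ D) :
    C' ∪ D' ⊆ D := by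
  have hb : Bornology.IsBounded (C ∪ D) := h.cpt.isBounded.union h.bdd
  have h1 : C' ∪ D' ⊆ C ∪ D := by
    rcases h'.top_or h.out (disjoint_compl_right.mono_left (hs.trans subset_union_right)) with
      h1 | h1
    · refine absurd ?_ (top_univ (hb.union h'.bdd))
      exact eq_univ_of_forall fun x => (em (x ∈ C ∪ D)).imp id fun hx => h1 hx
    · exact compl_subset_compl.1 h1
  rcases h'.top_or h.con hd.symm with h2 | h2
  · obtain ⟨y, hy⟩ := nonempty_frontier_iff.2 ⟨h.ne.mono subset_union_left, top_univ hb⟩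
    rw [h.top_closed.frontier_eq] at hy
    refine absurd ?_ hy.2
    rcases hy.1 with hC | hD
    · exact interior_maximal (subset_union_right.trans h1) h'.op (h2 hC)
    · exact interior_maximal subset_union_right h.op hD
  · exact fun x hx => (h1 hx).resolve_left fun hC => h2 hC hx

/- `U` = the component in `Cᶜ` of a far point, it contains the complement of a big closed ball;
`D = Cᶜ \ U`. -/
theorem exists_fill (hC : IsCompact C) (hc : IsPreconnected C) (hn : C.Nonempty) :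
    ∃ D, Ring C D := by
  obtain ⟨R, hR, hb⟩ := hC.isBounded.subset_closedBall_lt 0 0
  have hO : IsOpen Cᶜ := hC.isClosed.isOpen_compl
  have hp : ((R + 1 : ℝ) : ℂ) ∈ {z : ℂ | R < ‖z‖} := by
    show R < ‖((R + 1 : ℝ) : ℂ)‖
    rw [Complex.norm_real, Real.norm_eq_abs, abs_of_pos (by linarith)]
    linarith
  have hfar := (top_far hR.le).subset_connectedComponentIn hp (F := Cᶜ) fun z hz hzC =>
    absurd (mem_closedBall_zero_iff.1 (hb hzC)) (not_le.2 hz)
  have hU := hO.connectedComponentIn (x := ((R + 1 : ℝ) : ℂ))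
  have hfr := top_fr hO ((R + 1 : ℝ) : ℂ)
  have hsub := connectedComponentIn_subset Cᶜ ((R + 1 : ℝ) : ℂ)
  have hpre := isPreconnected_connectedComponentIn (F := Cᶜ) (x := ((R + 1 : ℝ) : ℂ))
  generalize connectedComponentIn Cᶜ ((R + 1 : ℝ) : ℂ) = U at hfar hU hfr hsub hpre
  rw [compl_compl] at hfr
  have hcl : IsClosed (C ∪ U) := by
    refine closure_subset_iff_isClosed.1 ?_
    rw [closure_union, hC.isClosed.closure_eq, closure_eq_self_union_frontier]
    exact union_subset subset_union_left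
      (union_subset subset_union_right (hfr.trans subset_union_left))
  refine ⟨(C ∪ U)ᶜ, hC, hc, hn, hcl.isOpen_compl, ?_,
    disjoint_compl_right.mono_left subset_union_left, ?_, ?_⟩
  · refine (isBounded_closedBall (x := (0 : ℂ)) (r := R)).subset fun z hz => ?_
    exact mem_closedBall_zero_iff.2 (not_lt.1 fun h => hz (Or.inr (hfar h)))
  · rw [frontier_compl, hcl.frontier_eq]
    exact fun x hx => hx.1.resolve_right fun h => hx.2 (interior_maximal subset_union_right hU h)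
  · have e : (C ∪ (C ∪ U)ᶜ)ᶜ = U := by
      ext x
      have := @hsub x
      simp only [mem_compl_iff, mem_union] at this ⊢
      tauto
    rwa [e]

theorem Ring.isCompact (h : Ring C D) : IsCompact (C ∪ D) := by
  exact isCompact_of_isClosed_isBounded h.top_closed (h.cpt.isBounded.union h.bdd)

/- A component `D₁` of `D` has nonempty frontier inside `C`, so `C ∪ D₁` is preconnected. -/
theorem Ring.eq_empty (h : Ring C D) {A : Set ℂ} {p : ℂ} (hC : C = connectedComponentIn A p)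
    (hD : D ⊆ A) : D = ∅ := by
  refine eq_empty_of_forall_notMem fun q hq => ?_
  have hq' := mem_connectedComponentIn hq
  have hs := connectedComponentIn_subset D q
  obtain ⟨y, hy⟩ := nonempty_frontier_iff.2 ⟨⟨q, hq'⟩, top_univ (h.bdd.subset hs)⟩
  have hy' := frontier_subset_closure hy
  have hyC : y ∈ C := (h.top_cl (closure_mono hs hy')).resolve_right (top_fr h.op q hy)
  have hT : IsPreconnected (insert y (connectedComponentIn D q)) :=
    isPreconnected_connectedComponentIn.subset_closure (subset_insert _ _)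
      (insert_subset hy' subset_closure)
  have hp : p ∈ A := connectedComponentIn_nonempty_iff.1 (hC ▸ h.ne)
  have hCA : C ⊆ A := hC ▸ connectedComponentIn_subset A p
  have hsub := (h.con.union y hyC (mem_insert _ _) hT).subset_connectedComponentIn
    (Or.inl (hC ▸ mem_connectedComponentIn hp))
    (union_subset hCA (insert_subset (hCA hyC) (hs.trans hD)))
  rw [← hC] at hsub
  exact disjoint_left.1 h.dis (hsub (Or.inr (mem_insert_of_mem _ hq'))) hq

/- `D \ W` is compact and lies in the open set `D`. -/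
theorem Ring.exists_cut (h : Ring C D) (hW : IsOpen W) (hC : C ⊆ W) : ∃ χ, CutD D W χ := by
  have e : D \ W = (C ∪ D) ∩ Wᶜ := by
    ext x
    have := @hC x
    simp only [Set.mem_sdiff, mem_inter_iff, mem_union, mem_compl_iff]
    tauto
  have hK : IsClosed (D \ W) := e ▸ h.top_closed.inter hW.isClosed_compl
  obtain ⟨f, h0, h1, hf⟩ := exists_contMDiffMap_zero_one_nhds_of_isClosed (n := ⊤)
    (modelWithCornersSelf ℝ ℂ) h.op.isClosed_compl hK
    (disjoint_compl_left.mono_right sdiff_subset)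
  have h0' : ∀ ζ, ζ ∉ D → (f : ℂ → ℝ) =ᶠ[𝓝 ζ] fun _ => 0 := fun ζ hζ =>
    h0.filter_mono (nhds_le_nhdsSet hζ)
  have h1' : ∀ ζ ∈ D, ζ ∉ W → (f : ℂ → ℝ) =ᶠ[𝓝 ζ] fun _ => 1 := fun ζ hζ hζ' =>
    h1.filter_mono (nhds_le_nhdsSet (show ζ ∈ D \ W from ⟨hζ, hζ'⟩))
  have hs : tsupport (f : ℂ → ℝ) ⊆ D := fun ζ hζ =>
    by_contra fun hD => notMem_tsupport_iff_eventuallyEq.2 (h0' ζ hD) hζ
  refine ⟨f, ⟨⟨f.contMDiff.contDiff, ?_⟩, fun ζ => (hf ζ).1, fun ζ => (hf ζ).2, fun ζ hζ => ?_⟩,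
    hs, h1'⟩
  · exact isCompact_of_isClosed_isBounded (isClosed_tsupport _) (h.bdd.subset hs)
  · by_cases hD : ζ ∈ D
    · exact Or.inr (h1' ζ hD hζ)
    · exact Or.inl (h0' ζ hD)

/- `C'` lies in `D` or outside `C ∪ D`, and symmetrically.  If both lie outside, `D ∩ D'` is clopen
and bounded.  If `C' ⊆ D`, the unbounded connected set `(C ∪ D)ᶜ` misses `D'`, and so does `C`
(the frontier of `(C ∪ D)ᶜ` is nonempty and lies in `C`). -/
theorem Ring.nest (h : Ring C D) (h' : Ring C' D') (hd : Disjoint C C') :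
    C' ∪ D' ⊆ D ∨ C ∪ D ⊆ D' ∨ Disjoint D D' := by
  rcases h.top_or h'.con hd with h1 | h1
  · exact Or.inl (h.top_in h' hd h1)
  rcases h'.top_or h.con hd.symm with h2 | h2
  · exact Or.inr (Or.inl (h'.top_in h hd.symm h2))
  refine Or.inr (Or.inr (disjoint_iff_inter_eq_empty.2 ?_))
  refine (isClopen_iff.1 ⟨closure_subset_iff_isClosed.1 fun x hx => ?_,
    h.op.inter h'.op⟩).resolve_right (top_univ (h.bdd.subset inter_subset_left))
  have a := h.top_cl (closure_mono inter_subset_left hx)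
  have b := h'.top_cl (closure_mono inter_subset_right hx)
  exact ⟨a.resolve_left fun hC => h2 hC b, b.resolve_left fun hC => h1 hC a⟩

/- Otherwise `C' ∪ D' ∪ {ζ ∈ D \ (C' ∪ D') | φ ζ < s}` is clopen, nonempty and bounded. -/
theorem Ring.ivt (h : Ring C D) (h' : Ring C' D') (hs : C' ∪ D' ⊆ D) {Ω : Set ℂ} (hΩ : IsOpen Ω)
    (h1 : C ⊆ Ω) (h2 : D \ D' ⊆ Ω) {φ : ℂ → ℝ} (hφ : ContinuousOn φ Ω) {s : ℝ}
    (a : ∀ ζ ∈ C', φ ζ < s) (b : ∀ ζ ∈ C, s < φ ζ) : ∃ ζ ∈ D \ (C' ∪ D'), φ ζ = s := by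
  by_contra hn
  have o1 : IsOpen (D' ∪ D ∩ (Ω ∩ φ ⁻¹' Iio s)) :=
    h'.op.union (h.op.inter (hφ.isOpen_inter_preimage hΩ isOpen_Iio))
  have o2 : IsOpen ((C ∪ D)ᶜ ∪ (C' ∪ D')ᶜ ∩ (Ω ∩ φ ⁻¹' Ioi s)) :=
    h.top_closed.isOpen_compl.union
      (h'.top_closed.isOpen_compl.inter (hφ.isOpen_inter_preimage hΩ isOpen_Ioi))
  have hS : D' ∪ D ∩ (Ω ∩ φ ⁻¹' Iio s) ⊆ D :=
    union_subset (subset_union_right.trans hs) inter_subset_left
  refine (isPreconnected_univ.subset_or_subset o1 o2 ?_ ?_).elim (fun h3 => ?_) fun h3 => ?_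
  · refine disjoint_left.2 fun x hx hx' => ?_
    rcases hx' with h4 | h4
    · exact h4 (Or.inr (hS hx))
    · rcases hx with h5 | h5
      · exact h4.1 (Or.inr h5)
      · exact lt_asymm (show φ x < s from h5.2.2) h4.2.2
  · intro x _
    by_cases hD : x ∈ D
    · by_cases hD' : x ∈ D'
      · exact Or.inl (Or.inl hD')
      have hx := h2 ⟨hD, hD'⟩
      by_cases hC' : x ∈ C'
      · exact Or.inl (Or.inr ⟨hD, hx, a x hC'⟩)
      have hno : x ∉ C' ∪ D' := fun h => h.elim hC' hD'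
      rcases lt_trichotomy (φ x) s with h4 | h4 | h4
      · exact Or.inl (Or.inr ⟨hD, hx, h4⟩)
      · exact absurd ⟨x, ⟨hD, hno⟩, h4⟩ hn
      · exact Or.inr (Or.inr ⟨hno, hx, h4⟩)
    · by_cases hC : x ∈ C
      · exact Or.inr (Or.inr ⟨fun h => hD (hs h), h1 hC, b x hC⟩)
      · exact Or.inr (Or.inl fun h => h.elim hC hD)
  · exact top_univ h.bdd (univ_subset_iff.1 (h3.trans hS))
  · obtain ⟨x, hx⟩ := h'.ne
    rcases h3 (mem_univ x) with h4 | h4
    · exact h4 (Or.inr (hs (Or.inl hx)))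
    · exact h4.1 (Or.inl hx)

/- `isCompact_iff_compactSpace`, `connectedComponent_eq_iInter_isClopen` and a finite
subintersection. -/
theorem exists_clopen_nhd {A V : Set ℂ} (hA : IsCompact A) {p : ℂ} (hp : p ∈ A) (hV : IsOpen V)
    (hs : connectedComponentIn A p ⊆ V) :
    ∃ U : Set ℂ, IsOpen U ∧ U ⊆ V ∧ p ∈ U ∧ IsCompact (A ∩ U) := by
  have := isCompact_iff_compactSpace.1 hA
  have hK : IsCompact (((↑) : A → ℂ) ⁻¹' V)ᶜ :=
    (hV.preimage continuous_subtype_val).isClosed_compl.isCompact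
  obtain ⟨u, hu⟩ := hK.elim_finite_subfamily_closed
    (fun s : {s : Set A // IsClopen s ∧ (⟨p, hp⟩ : A) ∈ s} => s.1) (fun s => s.2.1.isClosed) (by
      rw [← connectedComponent_eq_iInter_isClopen]
      refine eq_empty_of_forall_notMem fun x hx => hx.1 (hs ?_)
      rw [connectedComponentIn_eq_image hp]
      exact mem_image_of_mem _ hx.2)
  have hZ : IsClopen (⋂ i ∈ u, i.1) := isClopen_biInter_finset fun i _ => i.2.1
  have hpZ : (⟨p, hp⟩ : A) ∈ ⋂ i ∈ u, i.1 := mem_iInter₂.2 fun i _ => i.2.2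
  generalize (⋂ i ∈ u, i.1) = Z at hu hZ hpZ
  have hZV : ∀ x ∈ Z, (x : ℂ) ∈ V := fun x hx =>
    by_contra fun h => (eq_empty_iff_forall_notMem.1 hu x) ⟨h, hx⟩
  obtain ⟨U, hU, rfl⟩ := isOpen_induced_iff.1 hZ.isOpen
  refine ⟨U ∩ V, hU.inter hV, inter_subset_right, ⟨hpZ, hZV _ hpZ⟩, ?_⟩
  have e : A ∩ (U ∩ V) = (↑) '' (((↑) : A → ℂ) ⁻¹' U) := by
    ext x
    constructor
    · exact fun hx => ⟨⟨x, hx.1⟩, hx.2.1, rfl⟩
    · rintro ⟨y, hy, rfl⟩
      exact ⟨y.2, hy, hZV y hy⟩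
  rw [e]
  exact hZ.isClosed.isCompact.image continuous_subtype_val

theorem isCompact_component {A : Set ℂ} (hA : IsCompact A) (p : ℂ) :
    IsCompact (connectedComponentIn A p) := by
  by_cases hp : p ∈ A
  · have := isCompact_iff_compactSpace.1 hA
    rw [connectedComponentIn_eq_image hp]
    exact isClosed_connectedComponent.isCompact.image continuous_subtype_val
  · rw [connectedComponentIn_eq_empty hp]
    exact isCompact_empty

/- `Complex.norm_le_of_forall_mem_frontier_norm_le` for `f` and `f⁻¹`. -/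
theorem xi_mem_Icc {Ω G : Set ℂ} {f : ℂ → ℂ} (hf : HolN Ω f) (hb : Bornology.IsBounded G)
    (hG : closure G ⊆ Ω) {b b' : ℝ} (h : ∀ ζ ∈ frontier G, xi f ζ ∈ Icc b b') :
    ∀ ζ ∈ closure G, xi f ζ ∈ Icc b b' := by
  intro ζ hζ
  have pos : ∀ w ∈ closure G, 0 < ‖f w‖ := fun w hw => norm_pos_iff.2 (hf.ne w (hG hw))
  have h1 := Complex.norm_le_of_forall_mem_frontier_norm_le hb (hf.hol.mono hG).diffContOnCl
    (C := Real.exp b') (fun w hw =>
      (Real.log_le_iff_le_exp (pos w (frontier_subset_closure hw))).1 (h w hw).2) hζ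
  have h2 := Complex.norm_le_of_forall_mem_frontier_norm_le hb
    ((hf.hol.inv hf.ne).mono hG).diffContOnCl (C := (Real.exp b)⁻¹) (fun w hw => by
      rw [Pi.inv_apply, norm_inv]
      exact inv_anti₀ (Real.exp_pos b)
        ((Real.le_log_iff_exp_le (pos w (frontier_subset_closure hw))).1 (h w hw).1)) hζ
  rw [Pi.inv_apply, norm_inv, inv_le_inv₀ (pos ζ hζ) (Real.exp_pos b)] at h2
  exact ⟨(Real.le_log_iff_exp_le (pos ζ hζ)).2 h2, (Real.log_le_iff_le_exp (pos ζ hζ)).2 h1⟩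

end Pool.Agent.Lib.MP_7ed551_gt.Cy
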