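import Pool.Agent.Lib.MP_7ed551_gt.Cy.N.Mass
import Pool.Agent.Lib.MP_7ed551_gt.Cy.N.Int
import Pool.Agent.Lib.MP_7ed551_gt.Cy.N.Top

/-! Cut-off functions which carry the mass. -/

open scoped ContDiff Topology
open Set Filter Metric MeasureTheory Real

noncomputable section

namespace Pool.Agent.Lib.MP_7ed551_gt.Cy

open Pool.Agent.Lib.MP_ccffa6_gt (Form1 dF pb px py JHol dens)

variable {Ω : Set ℂ} {z1 z2 : ℂ → ℂ} {μ : ℂ → ℝ} {N a B : ℝ} {k : ℤ × ℤ} {χ χ' : ℂ → ℝ}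

theorem Cut.mono {V V' : Set ℂ} (h : Cut V χ) (hs : V ⊆ V') : Cut V' χ := by
  exact ⟨h.bmp, h.nn, h.le, fun ζ hζ => h.loc ζ fun a => hζ (hs a)⟩

theorem Cut.mul {V : Set ℂ} (h : Cut V χ) (h' : Cut V χ') : Cut V fun ζ => χ ζ * χ' ζ := by
  refine ⟨⟨h.bmp.sm.mul h'.bmp.sm, h.bmp.cpt.mul_right⟩, fun ζ => mul_nonneg (h.nn ζ) (h'.nn ζ),
    fun ζ => mul_le_one₀ (h.le ζ) (h'.nn ζ) (h'.le ζ), fun ζ hζ => ?_⟩
  rcases h.loc ζ hζ with a | a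
  · exact Or.inl (a.mono fun x e => by simp [e])
  · exact (h'.loc ζ hζ).imp (fun b => b.mono fun x e => by simp [e]) fun b =>
      (a.and b).mono fun x e => by simp [e.1, e.2]

theorem Cut.or {V : Set ℂ} (h : Cut V χ) (h' : Cut V χ') :
    Cut V fun ζ => χ ζ + χ' ζ - χ ζ * χ' ζ := by
  refine ⟨Bmp.sub ⟨h.bmp.sm.add h'.bmp.sm, h.bmp.cpt.add h'.bmp.cpt⟩ (h.mul h').bmp,
    fun ζ => by nlinarith [h.nn ζ, h'.nn ζ, h.le ζ], fun ζ => by nlinarith [h.le ζ, h'.le ζ],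
    fun ζ hζ => ?_⟩
  rcases h.loc ζ hζ with a | a
  · exact (h'.loc ζ hζ).imp (fun b => (a.and b).mono fun x e => by simp [e.1, e.2]) fun b =>
      b.mono fun x e => by simp [e]
  · exact Or.inr (a.mono fun x e => by simp [e])

theorem mas_int (h : Lm Ω z1 z2 μ N a B k) (hχ : Bmp χ) : Integrable fun ζ => χ ζ * μ ζ :=
  (hχ.sm.continuous.mul h.cμ).integrable_of_hasCompactSupport hχ.cpt.mul_right

theorem mas_zero (h : Lm Ω z1 z2 μ N a B k) (hχ : Bmp χ) (h0 : ∀ ζ, 0 ≤ χ ζ)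
    (e : ∫ ζ, χ ζ * μ ζ = 0) (ζ : ℂ) : χ ζ * μ ζ = 0 :=
  congrFun (((hχ.sm.continuous.mul h.cμ).ae_eq_iff_eq volume continuous_zero).1
    ((integral_eq_zero_iff_of_nonneg (fun ζ => mul_nonneg (h0 ζ) (h.nn ζ)) (mas_int h hχ)).1 e)) ζ

theorem mas_wnZ (h : Lm Ω z1 z2 μ N a B k) (hχ : Cut (Core Ω z1 z2 (N / 4)) χ) :
    ∃ m : ℤ × ℤ, wn χ z1 = m.1 ∧ wn χ z2 = m.2 := by
  obtain ⟨m, hm⟩ := wn_int hχ (h.h1.mono (isOpen_core h.h1 h.h2 _) fun _ a => a.1)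
  obtain ⟨n, hn⟩ := wn_int hχ (h.h2.mono (isOpen_core h.h1 h.h2 _) fun _ a => a.1)
  exact ⟨(m, n), hm, hn⟩

/- An integer `n` with `0 ≤ a n < 2 a` (`wn_int`). -/
theorem Lm.zero_or_mas (h : Lm Ω z1 z2 μ N a B k) (hχ : Cut (Core Ω z1 z2 (N / 4)) χ) :
    (∀ ζ, χ ζ * μ ζ = 0) ∨ Mas Ω z1 z2 N k χ := by
  obtain ⟨m, h1, h2⟩ := mas_wnZ h hχ
  obtain ⟨e1, e2⟩ := h.mass χ hχ
  have e0 : 0 ≤ ∫ ζ, χ ζ * μ ζ := integral_nonneg fun ζ => mul_nonneg (hχ.nn ζ) (h.nn ζ)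
  have e : (k.1 * wn χ z1 + k.2 * wn χ z2 : ℝ) = (k.1 * m.1 + k.2 * m.2 : ℤ) := by
    rw [h1, h2]
    push_cast
    rfl
  rw [Mas, e]
  rw [e] at e1
  generalize k.1 * m.1 + k.2 * m.2 = n at e1
  have a1 : 0 ≤ n := by exact_mod_cast nonneg_of_mul_nonneg_right (e0.trans_eq e1) h.a0
  have a2 : n < 2 := by
    exact_mod_cast lt_of_mul_lt_mul_left ((e1.symm.trans_lt e2).trans_eq (mul_comm _ _)) h.a0.le
  obtain rfl | rfl : n = 0 ∨ n = 1 := by omega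
  · exact Or.inl (mas_zero h hχ.bmp hχ.nn (by simpa using e1))
  · exact Or.inr ⟨hχ, Int.cast_one⟩

theorem Lm.mass_eq (h : Lm Ω z1 z2 μ N a B k) (hχ : Mas Ω z1 z2 N k χ) :
    ∫ ζ, χ ζ * μ ζ = a := by
  rw [(h.mass χ hχ.1).1, hχ.2, mul_one]

theorem mas_mul (h : Lm Ω z1 z2 μ N a B k) (hχ : Mas Ω z1 z2 N k χ) (hχ' : Mas Ω z1 z2 N k χ')
    (ζ : ℂ) : χ ζ * μ ζ = χ ζ * χ' ζ * μ ζ := by
  have c := hχ.1.mul hχ'.1
  have i := mas_int h hχ.1.bmp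
  have e : ∫ ζ, χ ζ * χ' ζ * μ ζ = a := by
    refine h.mass_eq ((h.zero_or_mas c).resolve_left fun e => ?_)
    have := (h.mass _ (hχ.1.or hχ'.1)).2
    simp only [sub_mul, add_mul, e, sub_zero] at this
    rw [integral_add i (mas_int h hχ'.1.bmp), h.mass_eq hχ, h.mass_eq hχ'] at this
    linarith
  have := mas_zero h (hχ.1.bmp.sub c.bmp) (fun ζ => by nlinarith [hχ.1.nn ζ, hχ'.1.le ζ]) (by
    simp only [sub_mul]
    rw [integral_sub i (mas_int h c.bmp), e, h.mass_eq hχ, sub_self]) ζ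
  linarith

/- The mass of `χ + χ' - χ χ'` is less than `2 a`, so `χ χ'` has mass `a` and the continuous
nonnegative function `χ (1 - χ') μ` has integral zero. -/
theorem Lm.mas_ae (h : Lm Ω z1 z2 μ N a B k) (hχ : Mas Ω z1 z2 N k χ) (hχ' : Mas Ω z1 z2 N k χ')
    (ζ : ℂ) : χ ζ * μ ζ = χ' ζ * μ ζ := by
  rw [mas_mul h hχ hχ', mas_mul h hχ' hχ, mul_comm (χ ζ)]

/- Off `Ω` we have `μ ≠ 0` near the point, so `χ = χ'` near it; `wn_zero` for `χ - χ'`. -/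
theorem Lm.mas_wn (h : Lm Ω z1 z2 μ N a B k) (hχ : Mas Ω z1 z2 N k χ) (hχ' : Mas Ω z1 z2 N k χ')
    {f : ℂ → ℂ} (hf : HolN Ω f) :
    tsupport (fun ζ => χ ζ - χ' ζ) ⊆ Ω ∧ wn χ f = wn χ' f := by
  have s : tsupport (fun ζ => χ ζ - χ' ζ) ⊆ Ω := fun ζ => not_imp_not.1 fun a =>
    notMem_tsupport_iff_eventuallyEq.2 ((h.cμ.continuousAt.eventually_ne (mt (h.sub ζ) a)).mono
      fun x e => sub_eq_zero.2 (mul_right_cancel₀ e (h.mas_ae hχ hχ' x)))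
  refine ⟨s, sub_eq_zero.1 ?_⟩
  rw [← wn_sub hχ.1.bmp hχ'.1.bmp hf (fun _ a => (hχ.1.kd a).1) fun _ a => (hχ'.1.kd a).1]
  exact wn_zero (hχ.1.bmp.sub hχ'.1.bmp) hf s

theorem Lm.exists_cls (h : Lm Ω z1 z2 μ N a B k) (hχ : Mas Ω z1 z2 N k χ) :
    ∃ m : ℤ × ℤ, Cls Ω z1 z2 N k m := by
  obtain ⟨m, h1, h2⟩ := mas_wnZ h hχ.1
  refine ⟨m, ?_, fun χ' h' => ⟨(h.mas_wn h' hχ h.h1).2.trans h1, (h.mas_wn h' hχ h.h2).2.trans h2⟩⟩
  have := hχ.2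
  rw [h1, h2] at this
  exact_mod_cast this

theorem mas_le (h : Lm Ω z1 z2 μ N a B k) {L : ℝ} (hL : 0 ≤ L) (hK : Kd χ ⊆ Ω)
    (hg : ∀ ζ ∈ Ω, ∀ v, |fderiv ℝ χ ζ v| ≤
      L * (‖deriv z1 ζ / z1 ζ‖ + ‖deriv z2 ζ / z2 ζ‖) * ‖v‖) {f : ℂ → ℂ} (hf : f = z1 ∨ f = z2) :
    |wn χ f| ≤ 4 * L * B := by
  have i := (integrable_indicator_iff h.h1.op.measurableSet).2 (h.int.const_mul (4 * L))
  have := norm_integral_le_of_norm_le (f := fun ζ => (gr χ ζ * (deriv f ζ / f ζ)).re) i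
    (Eventually.of_forall fun ζ => by
      by_cases hζ : ζ ∈ Ω
      · have a1 := hg ζ hζ 1
        have a2 := hg ζ hζ Complex.I
        have a3 : ‖gr χ ζ‖ ≤ |px χ ζ| + |py χ ζ| := (norm_add_le _ _).trans_eq (by simp)
        rw [norm_one, mul_one] at a1
        rw [Complex.norm_I, mul_one] at a2
        rw [indicator_of_mem hζ, fl]
        refine (Complex.abs_re_le_norm _).trans ((norm_mul_le_of_le (a3.trans (add_le_add a1 a2))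
          le_rfl).trans ?_)
        rw [← two_mul, ← mul_assoc, mul_assoc (2 * L), show 4 * L = 2 * L * 2 by ring,
          mul_assoc (2 * L)]
        refine mul_le_mul_of_nonneg_left ?_ (by positivity)
        rcases hf with e | e <;> rw [e] <;>
          nlinarith [sq_nonneg (‖deriv z1 ζ / z1 ζ‖ - ‖deriv z2 ζ / z2 ζ‖)]
      · simp [gr_eq_zero (mt (@hK ζ) hζ), indicator_of_notMem hζ])
  rw [integral_indicator h.h1.op.measurableSet, integral_const_mul] at this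
  rw [wn, abs_mul, abs_neg, abs_of_pos (by positivity)]
  refine (mul_le_of_le_one_left (abs_nonneg _) (inv_le_one_of_one_le₀ (by linarith [two_le_pi]))).trans
    (this.trans (mul_le_mul_of_nonneg_left h.flat (by positivity)))

/- `φ = b (xi z1 / N) * b (xi z2 / N)` on `Ω`, zero elsewhere, `b` a fixed bump, `b = 1` on
`[-7/32, 7/32]`, support in `(-15/64, 15/64)`.  The indicator of `D` times `1 - φ` is a `CutD` for
`W = Core (N / 4)`, `‖gr‖ ≤ M (‖w1‖ + ‖w2‖) / N`. -/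
theorem cls_bound : ∃ M : ℝ, 0 < M ∧ ∀ (Ω : Set ℂ) (z1 z2 : ℂ → ℂ) (μ : ℂ → ℝ) (N a B : ℝ)
    (k m : ℤ × ℤ) (C D : Set ℂ), Lm Ω z1 z2 μ N a B k → MRing Ω z1 z2 N k C D →
    C ⊆ Core Ω z1 z2 (N / 5) → Cls Ω z1 z2 N k m →
    |(m.1 : ℝ)| ≤ M * B / N ∧ |(m.2 : ℝ)| ≤ M * B / N := by
  let β : ContDiffBump (0 : ℝ × ℝ) := ⟨7 / 32, 15 / 64, by norm_num, by norm_num⟩
  have βs : ContDiff ℝ ∞ β := β.contDiff
  obtain ⟨L, hL⟩ := (βs.continuous_fderiv (by simp)).bounded_above_of_compact_support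
    (β.hasCompactSupport.fderiv (𝕜 := ℝ))
  have L0 : 0 ≤ L := (norm_nonneg _).trans (hL 0)
  refine ⟨4 * L + 1, by positivity, fun Ω z1 z2 μ N a B k m C D h hR hC hm => ?_⟩
  have N0 := h.N0
  have hΩ := h.h1.op
  obtain ⟨ξ, hξ⟩ : ∃ ξ : ℂ → ℝ × ℝ, ξ = fun ζ => N⁻¹ • (xi z1 ζ, xi z2 ζ) := ⟨_, rfl⟩
  have ξs : ContDiffOn ℝ ∞ ξ Ω :=
    hξ ▸ (h.h1.contDiffOn_xi.prodMk h.h2.contDiffOn_xi).const_smul _
  have ξn : ∀ ζ, N * ‖ξ ζ‖ = max |xi z1 ζ| |xi z2 ζ| := fun ζ => by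
    rw [hξ, norm_smul, norm_inv, Real.norm_of_nonneg N0.le, mul_inv_cancel_left₀ N0.ne']
    rfl
  have hK := (ξs.continuousOn.mono fun _ a => a.1).preimage_isClosed_of_isClosed h.prop.isClosed
    (isClosed_closedBall (x := 0) (ε := 15 / 64))
  obtain ⟨φ, hφ⟩ : ∃ φ : ℂ → ℝ, φ = Ω.indicator fun ζ => β (ξ ζ) := ⟨_, rfl⟩
  have φ1 : ∀ ζ ∈ Ω, φ =ᶠ[𝓝 ζ] fun ζ => β (ξ ζ) := fun ζ hζ =>
    mem_of_superset (hΩ.mem_nhds hζ) fun x hx => hφ ▸ indicator_of_mem hx _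
  have φ0 : ∀ ζ, ζ ∉ Core Ω z1 z2 (N / 4) → φ =ᶠ[𝓝 ζ] fun _ => 0 := fun ζ hζ => by
    refine mem_of_superset (hK.isOpen_compl.mem_nhds fun a => hζ ?_) fun x hx => ?_
    · have := mem_closedBall_zero_iff.1 a.2
      exact ⟨a.1.1, max_lt_iff.1 (by rw [← ξn]; nlinarith)⟩
    · refine hφ ▸ indicator_apply_eq_zero.2 fun a => β.zero_of_le_dist (le_of_not_gt fun b => hx ?_)
      have : ‖ξ x‖ < 15 / 64 := dist_zero_right (ξ x) ▸ b
      exact ⟨⟨a, max_le_iff.1 (by rw [← ξn]; nlinarith)⟩, b.le⟩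
  have φs : ∀ ζ, ContDiffAt ℝ ∞ φ ζ := fun ζ => by
    by_cases hζ : ζ ∈ Ω
    · exact (βs.contDiffAt.comp ζ (ξs.contDiffAt (hΩ.mem_nhds hζ))).congr_of_eventuallyEq (φ1 ζ hζ)
    · exact contDiffAt_const.congr_of_eventuallyEq (φ0 ζ fun a => hζ a.1)
  obtain ⟨χ, hχ⟩ : ∃ χ : ℂ → ℝ, χ = D.indicator fun ζ => 1 - φ ζ := ⟨_, rfl⟩
  have χ1 : ∀ ζ ∈ D, χ =ᶠ[𝓝 ζ] fun ζ => 1 - φ ζ := fun ζ hζ =>
    mem_of_superset (hR.ring.op.mem_nhds hζ) fun x hx => hχ ▸ indicator_of_mem hx _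
  have χ0 : ∀ ζ, ζ ∉ D → χ =ᶠ[𝓝 ζ] fun _ => 0 := fun ζ hζ => by
    by_cases a : ζ ∈ closure D
    · refine mem_of_superset ((isOpen_core h.h1 h.h2 _).mem_nhds (hC (hR.ring.fr
        (hR.ring.op.frontier_eq.ge ⟨a, hζ⟩)))) fun x hx => hχ ▸ indicator_apply_eq_zero.2 fun _ => ?_
      have := max_lt hx.2.1 hx.2.2
      rw [← ξn] at this
      rw [hφ, indicator_of_mem hx.1, β.one_of_mem_closedBall (mem_closedBall_zero_iff.2
        (show _ ≤ (7 / 32 : ℝ) by nlinarith)), sub_self]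
    · exact mem_of_superset (isClosed_closure.isOpen_compl.mem_nhds a) fun x hx =>
        hχ ▸ indicator_of_notMem (fun b => hx (subset_closure b)) _
  have φb : ∀ ζ, 0 ≤ φ ζ ∧ φ ζ ≤ 1 := fun ζ => hφ ▸ ⟨indicator_nonneg (fun _ _ => β.nonneg) _,
    indicator_apply_le' (fun _ => β.le_one) fun _ => zero_le_one⟩
  have sp : tsupport χ ⊆ D := fun ζ => not_imp_not.1 fun a =>
    notMem_tsupport_iff_eventuallyEq.2 (χ0 ζ a)
  have one : ∀ ζ ∈ D, ζ ∉ Core Ω z1 z2 (N / 4) → χ =ᶠ[𝓝 ζ] fun _ => 1 := fun ζ a b =>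
    ((χ1 ζ a).and (φ0 ζ b)).mono fun x e => by simp [e.1, e.2]
  have hc : Cut (Core Ω z1 z2 (N / 4)) χ := by
    refine ⟨⟨contDiff_iff_contDiffAt.2 fun ζ => ?_, hR.ring.bdd.isCompact_closure.of_isClosed_subset
      (isClosed_tsupport _) (sp.trans subset_closure)⟩,
      fun ζ => hχ ▸ indicator_nonneg (fun x _ => sub_nonneg.2 (φb x).2) _,
      fun ζ => hχ ▸ indicator_apply_le' (fun _ => sub_le_self _ (φb ζ).1) fun _ => zero_le_one,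
      fun ζ b => (em (ζ ∈ D)).symm.imp (χ0 ζ) fun a => one ζ a b⟩
    by_cases a : ζ ∈ D
    · exact (contDiffAt_const.sub (φs ζ)).congr_of_eventuallyEq (χ1 ζ a)
    · exact contDiffAt_const.congr_of_eventuallyEq (χ0 ζ a)
  obtain ⟨w1, w2⟩ := hm.2 χ (hR.mas _ χ (isOpen_core h.h1 h.h2 _) hR.sub Subset.rfl ⟨hc, sp, one⟩)
  have key := fun f => mas_le h (χ := χ) (f := f) (div_nonneg L0 N0.le) (fun _ a => (hc.kd a).1)
    fun ζ hζ v => by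
      by_cases a : ζ ∈ D
      · have d1 := (h.h1.contDiffOn_xi.contDiffAt (hΩ.mem_nhds hζ)).differentiableAt (by simp)
        have d2 := (h.h2.contDiffOn_xi.contDiffAt (hΩ.mem_nhds hζ)).differentiableAt (by simp)
        have d := ((βs.differentiable (by simp) (ξ ζ)).hasFDerivAt.comp ζ
          (hξ ▸ (d1.hasFDerivAt.prodMk d2.hasFDerivAt).fun_const_smul N⁻¹)).const_sub 1
        have b : ∀ w : ℂ, |(w * v).re| ≤ ‖w‖ * ‖v‖ := fun w =>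
          (Complex.abs_re_le_norm _).trans (norm_mul_le _ _)
        rw [(d.congr_of_eventuallyEq (((χ1 ζ a).and (φ1 ζ hζ)).mono fun x e => by
          simp [e.1, e.2])).fderiv, neg_apply, abs_neg]
        refine (fderiv ℝ β (ξ ζ)).le_of_opNorm_le_of_le (hL _) (show ‖N⁻¹ • (fderiv ℝ (xi z1) ζ v,
          fderiv ℝ (xi z2) ζ v)‖ ≤ N⁻¹ * ((‖deriv z1 ζ / z1 ζ‖ + ‖deriv z2 ζ / z2 ζ‖) * ‖v‖)
          from ?_) |>.trans_eq (by ring)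
        rw [norm_smul, norm_inv, Real.norm_of_nonneg N0.le, h.h1.fderiv_xi hζ, h.h2.fderiv_xi hζ,
          add_mul]
        exact mul_le_mul_of_nonneg_left (max_le ((b _).trans (le_add_of_nonneg_right (by positivity)))
          ((b _).trans (le_add_of_nonneg_left (by positivity)))) (by positivity)
      · rw [(χ0 ζ a).fderiv_eq, fderiv_fun_const]
        simp only [Pi.zero_apply, zero_apply, abs_zero]
        positivity
  have B0 : 0 ≤ B / N := div_nonneg ((integral_nonneg fun ζ => by unfold fl; positivity).trans h.flat)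
    N0.le
  have e : 4 * (L / N) * B ≤ (4 * L + 1) * B / N := by
    rw [mul_div_assoc, add_mul, one_mul]
    exact (le_add_of_nonneg_right B0).trans_eq' (by ring)
  exact ⟨w1 ▸ (key _ (Or.inl rfl)).trans e, w2 ▸ (key _ (Or.inr rfl)).trans e⟩

end Pool.Agent.Lib.MP_7ed551_gt.Cy
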