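import Pool.Agent.Lib.MP_7ed551_gt.Cy.N.Inv
import Pool.Agent.Lib.MP_7ed551_gt.Cy.N.Mas
import Pool.Agent.Lib.MP_7ed551_gt.Cy.B.En
import Pool.Agent.Lib.MP_ccffa6_gt.T.Base0

/-! From the ambient data to the plane. -/

open scoped ContDiff Topology
open Set Filter Metric MeasureTheory Real

noncomputable section

namespace Pool.Agent.Lib.MP_7ed551_gt.Cy

open Pool.Agent.Lib.MP_ccffa6_gt (Form1 dF pb px py JHol dens)

variable {Λ : Form1 E} {J : E → E →L[ℝ] E} {K : Set E} {Θ Ψ P X : E → E} {N c a R0 R1 : ℝ}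
  {k : ℤ × ℤ}

theorem Fol.leaf (h : Fol J Ψ P) (l : ℂ) : Leaf J (fun ζ => Ψ (ζ, l)) l := by
  refine ⟨h.sm.comp (contDiff_id.prodMk contDiff_const), h.hol l, ?_⟩
  obtain ⟨C, hC⟩ := h.dec
  refine squeeze_zero_norm' ?_ ((tendsto_norm_cocompact_atTop (E := ℂ)).const_div_atTop C)
  filter_upwards [(tendsto_norm_cocompact_atTop (E := ℂ)).eventually_ge_atTop 1] with ζ hζ
  exact (hC (ζ, l) hζ).1

theorem Fol.px_ne (h : Fol J Ψ P) (l ζ : ℂ) : px (fun ζ => Ψ (ζ, l)) ζ ≠ 0 := by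
  intro h0
  have hu := ((h.leaf l).sm.differentiable (by simp) ζ).hasFDerivAt
  have h1 := ((h.sm'.differentiable (by simp) (Ψ (ζ, l))).hasFDerivAt.comp ζ hu).fderiv
  have h2 : (P ∘ fun ζ => Ψ (ζ, l)) = fun ζ : ℂ => (ζ, l) := funext fun ζ => h.left _
  have h3 : HasFDerivAt (fun ζ : ℂ => (ζ, l)) (ContinuousLinearMap.inl ℝ ℂ ℂ) ζ :=
    hasFDerivAt_prodMk_left ζ l
  rw [h2, h3.fderiv] at h1
  have h4 := congrArg (fun L : ℂ →L[ℝ] E => L 1) h1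
  simp only [ContinuousLinearMap.comp_apply] at h4
  rw [show fderiv ℝ (fun ζ => Ψ (ζ, l)) ζ 1 = 0 from h0, map_zero] at h4
  simp at h4

theorem Leaf_chain {F : Type} [NormedAddCommGroup F] [NormedSpace ℝ F] {V : Type}
    [NormedAddCommGroup V] [NormedSpace ℝ V] {U : Set E} (hU : IsOpen U) {ψ : E → F}
    (hψ : ContDiffOn ℝ ∞ ψ U) {u : V → E} (hu : ContDiff ℝ ∞ u) {ζ : V} (hζ : u ζ ∈ U) :
    HasFDerivAt (fun ζ => ψ (u ζ)) ((fderiv ℝ ψ (u ζ)).comp (fderiv ℝ u ζ)) ζ :=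
  ((hψ.contDiffAt (hU.mem_nhds hζ)).differentiableAt (by simp)).hasFDerivAt.comp ζ
    (hu.differentiable (by simp) ζ).hasFDerivAt

theorem Leaf_cr {f : ℂ → E} {L : ℂ →L[ℝ] E} {ζ : ℂ} (h : HasFDerivAt f L ζ)
    (hc : L Complex.I = Complex.I • L 1) :
    HasDerivAt (fun ζ => (f ζ).1) (L 1).1 ζ ∧ HasDerivAt (fun ζ => (f ζ).2) (L 1).2 ζ := by
  have h1 := Pool.Agent.Lib.MP_ccffa6_gt.differentiableAt_of_cr h.fst.differentiableAt (by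
    simp only [px, py, h.fst.fderiv]
    simp [hc])
  have h2 := Pool.Agent.Lib.MP_ccffa6_gt.differentiableAt_of_cr h.snd.differentiableAt (by
    simp only [px, py, h.snd.fderiv]
    simp [hc])
  simp only [px, h.fst.fderiv, h.snd.fderiv] at h1 h2
  exact ⟨h1, h2⟩

theorem Inv.hasDerivAt (h : Inv J Θ N X) {u : ℂ → E} {l : ℂ} (hu : Leaf J u l) {ζ : ℂ}
    (hζ : u ζ ∈ Θ '' Box N) :
    HasDerivAt (fun ζ => (X (u ζ)).1) (fderiv ℝ X (u ζ) (px u ζ)).1 ζ ∧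
      HasDerivAt (fun ζ => (X (u ζ)).2) (fderiv ℝ X (u ζ) (px u ζ)).2 ζ :=
  Leaf_cr (Leaf_chain h.op h.sm hu.sm hζ) (by
    change fderiv ℝ X (u ζ) (py u ζ) = Complex.I • fderiv ℝ X (u ζ) (px u ζ)
    rw [(hu.hol ζ (mem_univ _)).1, h.hol _ hζ])

theorem Inv.ne (h : Inv J Θ N X) {y : E} (hy : y ∈ Θ '' Box N) : (X y).1 ≠ 0 ∧ (X y).2 ≠ 0 := by
  obtain ⟨Z, hZ, rfl⟩ := hy
  rw [h.eq Z hZ]
  exact ⟨Complex.exp_ne_zero _, Complex.exp_ne_zero _⟩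

/- `differentiableAt_of_cr` (T/Base0). -/
theorem Inv.holN (h : Inv J Θ N X) (hF : Fol J Ψ P) (l : ℂ) :
    HolN (Om Θ Ψ N l) (fun ζ => (X (Ψ (ζ, l))).1) ∧
      HolN (Om Θ Ψ N l) fun ζ => (X (Ψ (ζ, l))).2 := by
  have ho : IsOpen (Om Θ Ψ N l) := h.op.preimage (hF.leaf l).sm.continuous
  exact ⟨⟨ho, fun ζ hζ => (h.hasDerivAt (hF.leaf l) hζ).1.differentiableAt.differentiableWithinAt,
      fun ζ hζ => (h.ne hζ).1⟩,
    ho, fun ζ hζ => (h.hasDerivAt (hF.leaf l) hζ).2.differentiableAt.differentiableWithinAt,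
      fun ζ hζ => (h.ne hζ).2⟩

/- `full`: the maximum of `‖u.1‖` on `closure D`; if it is `≥ R0` apply the maximum principle on
the open set `D ∩ {t < ‖u.1‖}`, `t < R0` a bound for `‖x.1‖` on `K` and on `u (frontier D)`. -/
theorem Leaf.full {u : ℂ → E} {l : ℂ} (h : Leaf J u l) (hA : Amb Λ J K)
    (hK : ∀ x ∈ K, ‖x.1‖ < R0) (h0 : 0 < R0) {D : Set ℂ} (hD : IsOpen D)
    (hb : Bornology.IsBounded D) (hf : frontier D ⊆ {ζ | ‖(u ζ).1‖ < R0}) :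
    D ⊆ {ζ | ‖(u ζ).1‖ < R0} := by
  have hc : Continuous fun ζ => (u ζ).1 := h.sm.continuous.fst
  have hfr : IsCompact (frontier D) :=
    hb.isCompact_closure.of_isClosed_subset isClosed_frontier frontier_subset_closure
  obtain ⟨t, ht, hs⟩ := exists_lt_subset_ball (x := (0 : ℂ)) (r := R0)
    ((hA.cpt.image continuous_fst).union (hfr.image hc)).isClosed (by
      rintro _ (⟨x, hx, rfl⟩ | ⟨ζ, hζ, rfl⟩)
      · exact mem_ball_zero_iff.2 (hK x hx)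
      · exact mem_ball_zero_iff.2 (hf hζ))
  have hW : IsOpen (D ∩ {ζ | t < ‖(u ζ).1‖}) := hD.inter (isOpen_lt continuous_const hc.norm)
  intro ζ hζ
  by_contra hn
  have hn' : R0 ≤ ‖(u ζ).1‖ := not_lt.1 hn
  have key := Complex.norm_le_of_forall_mem_frontier_norm_le (f := fun ζ => (u ζ).1) (C := t)
    (hb.subset (inter_subset_left (t := {ζ | t < ‖(u ζ).1‖}))) ⟨fun w hw => ?_, hc.continuousOn⟩
    (fun w hw => ?_) (subset_closure ⟨hζ, ht.trans_le hn'⟩)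
  · exact absurd (key.trans_lt ht) hn
  · have hw' : u w ∉ K := fun hk =>
      absurd (mem_ball_zero_iff.1 (hs (.inl ⟨_, hk, rfl⟩))) (not_lt.2 (le_of_lt hw.2))
    refine (Leaf_cr (h.sm.differentiable (by simp) w).hasFDerivAt
      ?_).1.differentiableAt.differentiableWithinAt
    change py u w = Complex.I • px u w
    rw [(h.hol w (mem_univ _)).1, hA.farJ _ hw', J0_apply]
  · rw [hW.frontier_eq] at hw
    by_cases hD' : w ∈ D
    · exact not_lt.1 fun hl => hw.2 ⟨hD', hl⟩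
    · refine (mem_ball_zero_iff.1 (hs (.inr ⟨w, ?_, rfl⟩))).le
      rw [hD.frontier_eq]
      exact ⟨closure_mono inter_subset_left hw.1, hD'⟩

theorem Leaf.bounded {u : ℂ → E} {l : ℂ} (h : Leaf J u l) (R : ℝ) :
    Bornology.IsBounded {ζ | ‖(u ζ).1‖ < R} := by
  obtain ⟨T, hT, hs⟩ := mem_cocompact.1 (h.lim.norm.eventually_lt_const (u := 1) (by simp))
  refine (hT.isBounded.union (isBounded_ball (x := (0 : ℂ)) (r := R + 1))).subset fun ζ hζ => ?_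
  by_cases hm : ζ ∈ T
  · exact .inl hm
  · have h1 : ‖u ζ - (ζ, l)‖ < 1 := hs hm
    have h2 : ‖(u ζ).1 - ζ‖ ≤ ‖u ζ - (ζ, l)‖ := norm_fst_le (u ζ - (ζ, l))
    have h3 : ‖(u ζ).1‖ < R := hζ
    have h4 := norm_sub_norm_le ζ (u ζ).1
    rw [norm_sub_rev] at h4
    exact .inr (mem_ball_zero_iff.2 (by linarith))

theorem Leaf_desc {F : Type} [NormedAddCommGroup F] [NormedSpace ℝ F] (hΘ : ContDiff ℝ ∞ Θ)
    (hU : IsOpen (Θ '' Box N)) {ψ φ : E → F} (hψ : ContDiffOn ℝ ∞ ψ (Θ '' Box N))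
    (he : ∀ Z ∈ Box N, ψ (Θ Z) = φ Z) {Z : E} (hZ : Z ∈ Box N) (v : E) :
    fderiv ℝ ψ (Θ Z) (fderiv ℝ Θ Z v) = fderiv ℝ φ Z v := by
  have h1 : (fun Z => ψ (Θ Z)) =ᶠ[𝓝 Z] φ :=
    mem_of_superset ((isOpen_box N).mem_nhds hZ) he
  rw [← h1.fderiv_eq, (Leaf_chain hU hψ hΘ (mem_image_of_mem Θ hZ)).fderiv]
  rfl

theorem Leaf_exp (Z v : E) : fderiv ℝ (fun Z : E => (Complex.exp Z.1, Complex.exp Z.2)) Z v =
    (Complex.exp Z.1 * v.1, Complex.exp Z.2 * v.2) := by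
  rw [((hasFDerivAt_fst (𝕜 := ℝ) (p := Z)).cexp.prodMk
    (hasFDerivAt_snd (𝕜 := ℝ) (p := Z)).cexp).fderiv]
  simp

theorem Leaf_lin {u : ℂ → E} {l : ℂ} (hu : Leaf J u l) (h : Inv J Θ N X) {ζ : ℂ}
    (hζ : u ζ ∈ Θ '' Box N) (v : ℂ) :
    fderiv ℝ X (u ζ) (fderiv ℝ u ζ v) = v • fderiv ℝ X (u ζ) (px u ζ) := by
  rw [Pool.Agent.Lib.MP_ccffa6_gt.fderiv_eq_px_py, map_add, map_smul, map_smul,
    (hu.hol ζ (mem_univ _)).1, h.hol _ hζ]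
  conv_rhs => rw [← Complex.re_add_im v, add_smul, mul_smul]
  rfl

theorem Leaf_xi {u : ℂ → E} (h : Inv J Θ N X) {ζ : ℂ} {Z : E} (hZ : Z ∈ Box N) (e : Θ Z = u ζ) :
    xi (fun ζ => (X (u ζ)).1) ζ = Z.1.re ∧ xi (fun ζ => (X (u ζ)).2) ζ = Z.2.re := by
  simp only [xi, ← e, h.eq Z hZ, Complex.norm_exp, Real.log_exp, and_self]

/- `form`: for `y = Θ Z` write `fderiv u ζ v = fderiv Θ Z v'`; then
`fderiv X y (fderiv Θ Z v') = (exp Z.1 v'.1, exp Z.2 v'.2)`; `Cht.descend` for `g`.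
`pos`, `area`: `dens_eq` (T/Base0), `Amb.tame`, `Leaf.energy`. -/
theorem exists_lf (hA : Amb Λ J K) (hK : ∀ x ∈ K, ‖x.1‖ < R0) (hC : Cht J Θ N)
    (hc : Can Λ Θ N c a k) (hb : ∀ Z ∈ Box N, ‖(Θ Z).1‖ < R0) (hF : Fol J Ψ P)
    (hX : Inv J Θ N X) (h0 : 0 < R0) (h1 : R0 < R1) (l : ℂ) :
    ∃ (S : Set ℂ) (p q : ℂ → ℝ), Lf S (Om Θ Ψ N l) p q (fun ζ => (X (Ψ (ζ, l))).1)
      (fun ζ => (X (Ψ (ζ, l))).2) N c a (π * R1 ^ 2) k := by
  have hu := hF.leaf l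
  have hH := hX.holN hF l
  set u : ℂ → E := fun ζ => Ψ (ζ, l) with hud
  have hsm : ∀ e : ℂ, ContDiff ℝ ∞ fun ζ => Λ (u ζ) (fderiv ℝ u ζ e) := fun e =>
    (hA.smΛ.comp hu.sm).clm_apply
      ((hu.sm.fderiv_right (m := ∞) (by simp)).clm_apply contDiff_const)
  have hd : ∀ ζ, px (fun w => Λ (u w) (py u w)) ζ - py (fun w => Λ (u w) (px u w)) ζ =
      dens Λ u ζ := fun ζ => Pool.Agent.Lib.MP_ccffa6_gt.dens_eq
    (hA.smΛ.differentiable (by simp) _) (hu.sm.contDiffAt.of_le (WithTop.coe_le_coe.2 (le_top (a := 2))))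
  have hsub : Om Θ Ψ N l ⊆ {ζ | ‖(u ζ).1‖ < R0} := by
    rintro ζ ⟨Z, hZ, e⟩
    have := hb Z hZ
    rwa [e] at this
  refine ⟨{ζ | ‖(u ζ).1‖ < R0}, fun w => Λ (u w) (px u w), fun w => Λ (u w) (py u w),
    isOpen_lt hu.sm.continuous.fst.norm continuous_const, hu.bounded R0,
    fun D h1 h2 h3 => hu.full hA hK h0 h1 h2 h3, hsub, hsm 1, hsm Complex.I, fun ζ => ?_, ?_,
    hH.1, hH.2, fun t ht => ?_, ?_⟩
  · rw [hd, dens, (hu.hol ζ (mem_univ _)).1]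
    exact hA.tame _ _ (hF.px_ne l ζ)
  · simp only [hd]
    exact (hu.energy hA h0 h1 hK).2
  · refine isCompact_of_isClosed_isBounded ?_ ((hu.bounded R0).subset fun ζ hζ => hsub hζ.1)
    convert (hC.isCompact_image t).isClosed.preimage hu.sm.continuous using 1
    ext ζ
    constructor
    · rintro ⟨⟨Z, hZ, e⟩, a1, a2⟩
      rw [(Leaf_xi (u := u) hX hZ e).1] at a1
      rw [(Leaf_xi (u := u) hX hZ e).2] at a2
      exact ⟨Z, ⟨a1, a2⟩, e⟩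
    · rintro ⟨Z, hZ, e⟩
      have hZ' : Z ∈ Box N := ⟨hZ.1.trans_lt ht, hZ.2.trans_lt ht⟩
      refine ⟨⟨Z, hZ', e⟩, ?_, ?_⟩
      · rw [(Leaf_xi (u := u) hX hZ' e).1]
        exact hZ.1
      · rw [(Leaf_xi (u := u) hX hZ' e).2]
        exact hZ.2
  · obtain ⟨g, hg, g1, g2, hf⟩ := hc
    obtain ⟨ψ, hψ, he⟩ := hC.descend hg g1 g2
    refine ⟨fun ζ => ψ (u ζ), hψ.comp hu.sm.contDiffOn fun ζ hζ => hζ, fun ζ hζ v => ?_⟩
    have hD := hX.hasDerivAt hu hζ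
    have hL := Leaf_lin hu hX hζ v
    have hG := (Leaf_chain hX.op hψ hu.sm hζ).fderiv
    obtain ⟨Z, hZ, e⟩ := hζ
    change Θ Z = u ζ at e
    obtain ⟨w, hw⟩ := (LinearMap.injective_iff_surjective (f := (fderiv ℝ Θ Z : E →ₗ[ℝ] E))).1
      (hC.imm Z hZ) (fderiv ℝ u ζ v)
    change fderiv ℝ Θ Z w = fderiv ℝ u ζ v at hw
    have e1 := Leaf_desc hC.sm hX.op hX.sm hX.eq hZ w
    have e2 := Leaf_desc hC.sm hX.op hψ he hZ w
    have e3 := hf Z hZ w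
    have e4 := hX.eq Z hZ
    change Λ (Θ Z) (fderiv ℝ Θ Z w) = _ at e3
    rw [hw, e] at e1 e2 e3
    rw [e] at e4
    rw [Leaf_exp, hL] at e1
    have b1 : (fderiv ℝ X (u ζ) (px u ζ)).1 / (X (u ζ)).1 * v = w.1 := by
      have := congrArg Prod.fst e1
      simp only [Prod.smul_fst, smul_eq_mul] at this
      rw [e4, div_mul_eq_mul_div, mul_comm, this]
      exact mul_div_cancel_left₀ _ (Complex.exp_ne_zero _)
    have b2 : (fderiv ℝ X (u ζ) (px u ζ)).2 / (X (u ζ)).2 * v = w.2 := by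
      have := congrArg Prod.snd e1
      simp only [Prod.smul_snd, smul_eq_mul] at this
      rw [e4, div_mul_eq_mul_div, mul_comm, this]
      exact mul_div_cancel_left₀ _ (Complex.exp_ne_zero _)
    change _ = (c * xi (fun ζ => (X (u ζ)).1) ζ + _) *
        (deriv (fun ζ => (X (u ζ)).1) ζ / (X (u ζ)).1 * v).im +
      (c * xi (fun ζ => (X (u ζ)).2) ζ + _) *
        (deriv (fun ζ => (X (u ζ)).2) ζ / (X (u ζ)).2 * v).im + _
    rw [hD.1.deriv, hD.2.deriv, b1, b2, (Leaf_xi (u := u) hX hZ e).1, (Leaf_xi (u := u) hX hZ e).2,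
      hG, ContinuousLinearMap.comp_apply, e2, ← e3, Pool.Agent.Lib.MP_ccffa6_gt.fderiv_eq_px_py,
      map_add, map_smul, map_smul, smul_eq_mul, smul_eq_mul, mul_comm v.re, mul_comm v.im]

theorem wn_near {χ : ℂ → ℝ} {U U' : Set ℂ} {f g : ℂ → ℂ} (h : Bmp χ) (hf : HolN U f)
    (hg : HolN U' g) (hK : ∀ ζ ∈ Kd χ, (ζ ∈ U ∧ ζ ∈ U') ∧ f ζ / g ζ ∈ Complex.slitPlane) :
    wn χ f = wn χ g := by
  have hd : DifferentiableOn ℂ (fun ζ => f ζ / g ζ) (U ∩ U') :=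
    (hf.hol.mono inter_subset_left).div (hg.hol.mono inter_subset_right) fun ζ hζ => hg.ne ζ hζ.2
  have ho := hd.continuousOn.isOpen_inter_preimage (hf.op.inter hg.op) Complex.isOpen_slitPlane
  have hq : HolN (U ∩ U' ∩ (fun ζ => f ζ / g ζ) ⁻¹' Complex.slitPlane) fun ζ => f ζ / g ζ :=
    ⟨ho, hd.mono inter_subset_left, fun ζ hζ => Complex.slitPlane_ne_zero hζ.2⟩
  have h1 := wn_mul h (hg.mono ho fun ζ hζ => hζ.1.2) hq hK
  rw [wn_exp h ho hK (hq.hol.clog fun ζ hζ => hζ.2)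
    (fun ζ hζ => (Complex.exp_log (hq.ne ζ hζ)).symm), add_zero] at h1
  rw [← h1]
  exact wn_congr ho hK fun ζ hζ => (mul_div_cancel₀ _ (hg.ne ζ hζ.1.2)).symm

theorem Leaf_ev {T : Type} [TopologicalSpace T] {f g : T → ℂ} {x : T} (hf : ContinuousAt f x)
    (hg : ContinuousAt g x) (e : f x = g x) (hn : g x ≠ 0) {t : ℝ} (ht : |Real.log ‖g x‖| < t) :
    ∀ᶠ y in 𝓝 x, |Real.log ‖f y‖| < t ∧ f y / g y ∈ Complex.slitPlane := by
  refine ((hf.norm.log (norm_ne_zero_iff.2 (e ▸ hn))).abs.eventually_lt continuousAt_const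
    (by rwa [e])).and ((hf.div hg hn).eventually (Complex.isOpen_slitPlane.mem_nhds ?_))
  simp [e, hn]

/- `Kd χ` is compact and lies in the core of `l₀`, hence in the core of nearby leaves (tube lemma);
`l ↦ wn χ (z_j l)` is continuous at `l₀` and integer valued (`wn_int`). -/
theorem mas_near (hF : Fol J Ψ P) (hX : Inv J Θ N X) {l₀ : ℂ} {χ : ℂ → ℝ}
    (h : Cut (Core (Om Θ Ψ N l₀) (fun ζ => (X (Ψ (ζ, l₀))).1) (fun ζ => (X (Ψ (ζ, l₀))).2)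
      (N / 4)) χ) : ∀ᶠ l in 𝓝 l₀,
    Cut (Core (Om Θ Ψ N l) (fun ζ => (X (Ψ (ζ, l))).1) (fun ζ => (X (Ψ (ζ, l))).2) (N / 4)) χ ∧
      wn χ (fun ζ => (X (Ψ (ζ, l))).1) = wn χ (fun ζ => (X (Ψ (ζ, l₀))).1) ∧
      wn χ (fun ζ => (X (Ψ (ζ, l))).2) = wn χ fun ζ => (X (Ψ (ζ, l₀))).2 := by
  have hT : IsCompact {ζ | ¬ (χ =ᶠ[𝓝 ζ] (fun _ => 0) ∨ χ =ᶠ[𝓝 ζ] fun _ => 1)} := by
    refine h.bmp.cpt.isCompact.of_isClosed_subset ?_ fun ζ hζ => ?_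
    · exact (isOpen_setOfPred_eventually_nhds.union isOpen_setOfPred_eventually_nhds).isClosed_compl
    · by_contra hn
      exact hζ (.inl (notMem_tsupport_iff_eventuallyEq.1 hn))
  have key := hT.eventually_forall_of_forall_eventually (x₀ := l₀)
    (P := fun l ζ => Ψ (ζ, l) ∈ Θ '' Box N ∧
      (|Real.log ‖(X (Ψ (ζ, l))).1‖| < N / 4 ∧
        (X (Ψ (ζ, l))).1 / (X (Ψ (ζ, l₀))).1 ∈ Complex.slitPlane) ∧
      |Real.log ‖(X (Ψ (ζ, l))).2‖| < N / 4 ∧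
        (X (Ψ (ζ, l))).2 / (X (Ψ (ζ, l₀))).2 ∈ Complex.slitPlane) fun ζ hζ => by
    have hc : ζ ∈ Core (Om Θ Ψ N l₀) (fun ζ => (X (Ψ (ζ, l₀))).1) (fun ζ => (X (Ψ (ζ, l₀))).2)
        (N / 4) := by
      by_contra hn
      exact hζ (h.loc ζ hn)
    have hn := hX.op.mem_nhds hc.1
    have cX : ContinuousAt X (Ψ (ζ, l₀)) := hX.sm.continuousOn.continuousAt hn
    have c1 : ContinuousAt (fun z : ℂ × ℂ => Ψ (z.2, z.1)) (l₀, ζ) :=
      (hF.sm.continuous.comp continuous_swap).continuousAt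
    have c2 : ContinuousAt (fun z : ℂ × ℂ => Ψ (z.2, l₀)) (l₀, ζ) :=
      (hF.sm.continuous.comp (continuous_snd.prodMk continuous_const)).continuousAt
    have d1 := cX.comp_of_eq c1 rfl
    have d2 := cX.comp_of_eq c2 rfl
    exact (c1.eventually hn).and ((Leaf_ev d1.fst d2.fst rfl (hX.ne hc.1).1 hc.2.1).and
      (Leaf_ev d1.snd d2.snd rfl (hX.ne hc.1).2 hc.2.2))
  filter_upwards [key] with l hl
  have hk : ∀ ζ ∈ Kd χ, _ := fun ζ hζ => hl ζ fun e =>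
    e.elim (fun e => notMem_kd e hζ) fun e => notMem_kd e hζ
  refine ⟨⟨h.bmp, h.nn, h.le, fun ζ hζ => ?_⟩,
    wn_near h.bmp (hX.holN hF l).1 (hX.holN hF l₀).1 fun ζ hζ =>
      ⟨⟨(hk ζ hζ).1, (h.kd hζ).1⟩, (hk ζ hζ).2.1.2⟩,
    wn_near h.bmp (hX.holN hF l).2 (hX.holN hF l₀).2 fun ζ hζ =>
      ⟨⟨(hk ζ hζ).1, (h.kd hζ).1⟩, (hk ζ hζ).2.2.2⟩⟩
  by_contra hn
  exact hζ ⟨(hl ζ hn).1, (hl ζ hn).2.1.1, (hl ζ hn).2.2.1⟩

end Pool.Agent.Lib.MP_7ed551_gt.Cy
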