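import Pool.Agent.Lib.MP_7ed551_gt.Cy.N.Mas
import Pool.Agent.Lib.MP_7ed551_gt.Cy.N.Wn3

/-! Nested rings. -/

open scoped ContDiff Topology
open Set Filter Metric MeasureTheory Real

noncomputable section

namespace Pool.Agent.Lib.MP_7ed551_gt.Cy

open Pool.Agent.Lib.MP_ccffa6_gt (Form1 dF pb px py JHol dens)

variable {Ω : Set ℂ} {z1 z2 f : ℂ → ℂ} {μ : ℂ → ℝ} {N a B : ℝ} {k : ℤ × ℤ} {C D C' D' : Set ℂ}

theorem CutD.nest_zero {W : Set ℂ} {χ : ℂ → ℝ} (c : CutD D W χ) {ζ : ℂ} (hζ : ζ ∉ D) : χ ζ = 0 :=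
  image_eq_zero_of_notMem_tsupport fun h => hζ (c.supp h)

theorem Lm.nest_cut (h : Lm Ω z1 z2 μ N a B k) (r : MRing Ω z1 z2 N k C D) {W : Set ℂ}
    (hW : IsOpen W) (hC : C ⊆ W) :
    ∃ χ, CutD D (W ∩ Core Ω z1 z2 (N / 4)) χ ∧ Mas Ω z1 z2 N k χ := by
  have o := hW.inter (isOpen_core h.h1 h.h2 (N / 4))
  obtain ⟨χ, c⟩ := r.ring.exists_cut o (subset_inter hC r.sub)
  exact ⟨χ, c, r.mas _ χ o (subset_inter hC r.sub) inter_subset_right c⟩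

/- `Ring.nest`; disjoint holes contradict `mas_ae` and `mass_eq`. -/
theorem Lm.nest (h : Lm Ω z1 z2 μ N a B k) (r : MRing Ω z1 z2 N k C D)
    (r' : MRing Ω z1 z2 N k C' D') (hd : Disjoint C C') : C' ∪ D' ⊆ D ∨ C ∪ D ⊆ D' := by
  rcases r.ring.nest r'.ring hd with h1 | h1 | h1
  · exact Or.inl h1
  · exact Or.inr h1
  obtain ⟨χ, c, m⟩ := h.nest_cut r isOpen_univ (subset_univ _)
  obtain ⟨χ', c', m'⟩ := h.nest_cut r' isOpen_univ (subset_univ _)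
  have e : ∀ ζ, χ ζ * μ ζ = 0 := fun ζ => by
    by_cases hζ : ζ ∈ D
    · rw [h.mas_ae m m' ζ, c'.nest_zero (disjoint_left.1 h1 hζ), zero_mul]
    · rw [c.nest_zero hζ, zero_mul]
  have h2 := h.mass_eq m
  simp only [e, integral_zero] at h2
  exact absurd h2 h.a0.ne

/- A point of `D \ D'` outside the core has `χ = 1`, `χ' = 0`, so `μ = 0` by `mas_ae`. -/
theorem Lm.between (h : Lm Ω z1 z2 μ N a B k) (r : MRing Ω z1 z2 N k C D)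
    (r' : MRing Ω z1 z2 N k C' D') : D \ D' ⊆ Ω := by
  intro ζ hζ
  by_cases hc : ζ ∈ Core Ω z1 z2 (N / 4)
  · exact hc.1
  obtain ⟨χ, c, m⟩ := h.nest_cut r isOpen_univ (subset_univ _)
  obtain ⟨χ', c', m'⟩ := h.nest_cut r' isOpen_univ (subset_univ _)
  have h1 := h.mas_ae m m' ζ
  rw [c'.nest_zero hζ.2, (c.one ζ hζ.1 fun h => hc h.2).eq_of_nhds, one_mul, zero_mul] at h1
  exact h.sub ζ h1

/- `χ` for `D` and `W ∩ (C' ∪ D')ᶜ ∩ Core`, `χ'` for `D'` and `W' ∩ Core`. -/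
theorem Lm.pair (h : Lm Ω z1 z2 μ N a B k) (r : MRing Ω z1 z2 N k C D)
    (r' : MRing Ω z1 z2 N k C' D') (hs : C' ∪ D' ⊆ D) {W W' : Set ℂ} (hW : IsOpen W)
    (hW' : IsOpen W') (hC : C ⊆ W) (hC' : C' ⊆ W') :
    ∃ χ χ' : ℂ → ℝ, Mas Ω z1 z2 N k χ ∧ Mas Ω z1 z2 N k χ' ∧ Kd χ ⊆ W ∩ Ω ∧ Kd χ' ⊆ W' ∩ Ω ∧
      (∀ ζ, 0 ≤ χ ζ - χ' ζ) ∧ tsupport (fun ζ => χ ζ - χ' ζ) ⊆ Ω ∩ (D \ D' ∪ W') ∧
      ∀ ζ ∈ D \ D', ζ ∉ W → χ ζ - χ' ζ = 1 := by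
  obtain ⟨χ, c, m⟩ := h.nest_cut r (hW.inter r'.ring.isCompact.isClosed.isOpen_compl)
    (subset_inter hC fun ζ hζ h' => disjoint_left.1 r.ring.dis hζ (hs h'))
  obtain ⟨χ', c', m'⟩ := h.nest_cut r' hW' hC'
  have one : ∀ ζ ∈ D', χ =ᶠ[𝓝 ζ] fun _ => 1 := fun ζ hζ =>
    c.one ζ (hs (Or.inr hζ)) fun h' => h'.1.2 (Or.inr hζ)
  refine ⟨χ, χ', m, m', fun ζ hζ => ⟨(c.cut.kd hζ).1.1, (c.cut.kd hζ).2.1⟩,
    fun ζ hζ => ⟨(c'.cut.kd hζ).1, (c'.cut.kd hζ).2.1⟩, fun ζ => ?_,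
    subset_inter (h.mas_wn m m' h.h1).1 fun ζ hζ => ?_, fun ζ hζ hw => ?_⟩
  · by_cases hζ : ζ ∈ D'
    · rw [(one ζ hζ).eq_of_nhds]
      exact sub_nonneg.2 (c'.cut.le ζ)
    · rw [c'.nest_zero hζ, sub_zero]
      exact c.cut.nn ζ
  · by_contra hn
    refine notMem_tsupport_iff_eventuallyEq.2 ?_ hζ
    by_cases h1 : ζ ∈ D'
    · filter_upwards [one ζ h1, c'.one ζ h1 fun h' => hn (Or.inr h'.1)] with x h2 h3
      rw [h2, h3, sub_self, Pi.zero_apply]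
    · filter_upwards [notMem_tsupport_iff_eventuallyEq.1 fun h' => hn (Or.inl ⟨c.supp h', h1⟩),
        notMem_tsupport_iff_eventuallyEq.1 fun h' => h1 (c'.supp h')] with x h2 h3
      rw [h2, h3, sub_self, Pi.zero_apply]
  · rw [(c.one ζ hζ.1 fun h' => hw h'.1.1).eq_of_nhds, c'.nest_zero hζ.2, sub_zero]

theorem Lm.nest_key (h : Lm Ω z1 z2 μ N a B k) (r : MRing Ω z1 z2 N k C D)
    (r' : MRing Ω z1 z2 N k C' D') (hs : C' ∪ D' ⊆ D) (hf : HolN Ω f) {m : ℝ}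
    (hm : ∀ χ, Mas Ω z1 z2 N k χ → wn χ f = m) {y : ℂ} (hy : y ≠ 0)
    (a : ∀ ζ ∈ C', xi f ζ < Real.log ‖y‖) (b : ∀ ζ ∈ C, Real.log ‖y‖ < xi f ζ) :
    ∃ ψ : ℂ → ℝ, Bmp ψ ∧ (∀ ζ, 0 ≤ ψ ζ) ∧ tsupport ψ ⊆ Ω ∧ (∀ ζ ∈ Kd ψ, f ζ - y ≠ 0) ∧
      wn ψ (fun ζ => f ζ - y) = m ∧ (∀ ζ ∈ tsupport ψ, f ζ = y → ζ ∈ D \ D') ∧
      ∀ ζ ∈ D \ D', f ζ = y → ψ ζ = 1 := by
  have cx := hf.contDiffOn_xi.continuousOn
  have oW := cx.isOpen_inter_preimage hf.op (isOpen_Ioi (a := Real.log ‖y‖))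
  have oW' := cx.isOpen_inter_preimage hf.op (isOpen_Iio (a := Real.log ‖y‖))
  obtain ⟨χ, χ', m1, m2, k1, k2, nn, su, one⟩ := h.pair r r' hs oW oW'
    (fun ζ hζ => ⟨(r.sub hζ).1, b ζ hζ⟩) fun ζ hζ => ⟨(r'.sub hζ).1, a ζ hζ⟩
  have y0 := norm_pos_iff.2 hy
  have ne : ∀ ζ ∈ Ω ∩ xi f ⁻¹' Ioi (Real.log ‖y‖) ∪ Ω ∩ xi f ⁻¹' Iio (Real.log ‖y‖),
      f ζ - y ≠ 0 := by
    intro ζ hζ he
    have e : xi f ζ = Real.log ‖y‖ := by rw [xi, sub_eq_zero.1 he]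
    rcases hζ with hζ | hζ
    · exact e.le.not_gt hζ.2
    · exact e.ge.not_gt hζ.2
  have hg : HolN (Ω ∩ xi f ⁻¹' Ioi (Real.log ‖y‖) ∪ Ω ∩ xi f ⁻¹' Iio (Real.log ‖y‖))
      fun ζ => f ζ - y :=
    ⟨oW.union oW', (hf.hol.mono (union_subset inter_subset_left inter_subset_left)).sub_const y, ne⟩
  refine ⟨fun ζ => χ ζ - χ' ζ, m1.1.bmp.sub m2.1.bmp, nn, fun ζ hζ => (su hζ).1,
    fun ζ hζ => ne ζ ((kd_sub m1.1.bmp m2.1.bmp hζ).imp (fun h' => (k1 h').1) fun h' => (k2 h').1),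
    ?_, fun ζ hζ he => (su hζ).2.resolve_right fun h' => ne ζ (Or.inr h') (sub_eq_zero.2 he),
    fun ζ hζ he => one ζ hζ fun h' => ne ζ (Or.inl h') (sub_eq_zero.2 he)⟩
  rw [wn_sub m1.1.bmp m2.1.bmp hg (fun ζ hζ => Or.inl (k1 hζ).1) fun ζ hζ => Or.inr (k2 hζ).1,
    wn_out m1.1.bmp hf (fun ζ hζ => (k1 hζ).2) fun ζ hζ =>
      (Real.log_lt_log_iff y0 (norm_pos_iff.2 (hf.ne ζ (k1 hζ).2))).1 (k1 hζ).1.2,
    wn_in m2.1.bmp hf.op hf.hol (fun ζ hζ => (k2 hζ).2) fun ζ hζ =>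
      (Real.log_lt_log_iff (norm_pos_iff.2 (hf.ne ζ (k2 hζ).2)) y0).1 (k2 hζ).1.2,
    hm χ m1, sub_zero]

/- Outer ring large, inner ring small: `wn (χ - χ') (f - y) = m` by `wn_out`, `wn_in`.
`Ring.ivt` and `ap1` give `1 ≤ m`. -/
theorem Lm.up (h : Lm Ω z1 z2 μ N a B k) (r : MRing Ω z1 z2 N k C D)
    (r' : MRing Ω z1 z2 N k C' D') (hs : C' ∪ D' ⊆ D) (hf : HolN Ω f) {m s : ℝ}
    (hm : ∀ χ, Mas Ω z1 z2 N k χ → wn χ f = m) (a : ∀ ζ ∈ C', xi f ζ < s)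
    (b : ∀ ζ ∈ C, s < xi f ζ) : 1 ≤ m := by
  have hb := h.between r r'
  obtain ⟨p, hp, e⟩ := r.ring.ivt r'.ring hs hf.op (fun ζ hζ => (r.sub hζ).1) hb
    hf.contDiffOn_xi.continuousOn a b
  have hp' : p ∈ D \ D' := ⟨hp.1, fun h' => hp.2 (Or.inr h')⟩
  subst e
  obtain ⟨ψ, b1, nn, su, ne, w, -, one⟩ := h.nest_key r r' hs hf hm (hf.ne p (hb hp')) a b
  have := ap1 b1 nn hf.op su (hf.hol.sub_const (f p)) ne (hb hp') (sub_self _)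
  rwa [w, one p hp' rfl] at this

/- `up` for `f⁻¹ = f ^ (-1 : ℤ)`. -/
theorem Lm.down (h : Lm Ω z1 z2 μ N a B k) (r : MRing Ω z1 z2 N k C D)
    (r' : MRing Ω z1 z2 N k C' D') (hs : C' ∪ D' ⊆ D) (hf : HolN Ω f) {m s : ℝ}
    (hm : ∀ χ, Mas Ω z1 z2 N k χ → wn χ f = m) (a : ∀ ζ ∈ C', s < xi f ζ)
    (b : ∀ ζ ∈ C, xi f ζ < s) : m ≤ -1 := by
  have e : ∀ ζ, xi (fun ζ => f ζ ^ (-1 : ℤ)) ζ = -xi f ζ := fun ζ => by
    simp only [xi, zpow_neg_one, norm_inv, Real.log_inv]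
  have := h.up r r' hs (hf.zpow (-1)) (m := -m) (s := -s)
    (fun χ hχ => by
      rw [wn_zpow hf (fun ζ hζ => (hχ.1.kd hζ).1), hm χ hχ]
      simp)
    (fun ζ hζ => by rw [e]; exact neg_lt_neg (a ζ hζ))
    (fun ζ hζ => by rw [e]; exact neg_lt_neg (b ζ hζ))
  linarith

/- Degree one: `ap2` for uniqueness, `wn_zero` for existence (a zero in the support is not in `W'`). -/
theorem Lm.count (h : Lm Ω z1 z2 μ N a B k) (r : MRing Ω z1 z2 N k C D)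
    (r' : MRing Ω z1 z2 N k C' D') (hs : C' ∪ D' ⊆ D) (hf : HolN Ω f)
    (hm : ∀ χ, Mas Ω z1 z2 N k χ → wn χ f = 1) {y : ℂ} (hy : y ≠ 0)
    (a : ∀ ζ ∈ C', xi f ζ < Real.log ‖y‖) (b : ∀ ζ ∈ C, Real.log ‖y‖ < xi f ζ) :
    ∃ ζ ∈ D \ (C' ∪ D'), f ζ = y ∧ deriv f ζ ≠ 0 ∧ ∀ ζ' ∈ D \ D', f ζ' = y → ζ' = ζ := by
  have hb := h.between r r'
  obtain ⟨ψ, b1, nn, su, ne, w, sd, one⟩ := h.nest_key r r' hs hf hm hy a b
  have hg := hf.hol.sub_const y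
  obtain ⟨p, hp, e⟩ : ∃ p ∈ tsupport ψ, f p = y := by
    by_contra hn
    push Not at hn
    have o : IsOpen (Ω ∩ f ⁻¹' {y}ᶜ) :=
      hf.hol.continuousOn.isOpen_inter_preimage hf.op isOpen_compl_singleton
    have := wn_zero b1 (⟨o, hg.mono inter_subset_left, fun ζ hζ => sub_ne_zero.2 hζ.2⟩ :
      HolN (Ω ∩ f ⁻¹' {y}ᶜ) fun ζ => f ζ - y) fun ζ hζ => ⟨su hζ, hn ζ hζ⟩
    rw [w] at this
    exact one_ne_zero this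
  have hp' := sd p hp e
  have two : ∀ q ∈ D \ D', f q = y → ¬(q = p → deriv f q = 0) := fun q hq e' hd => by
    have := ap2 b1 nn hf.op su hg ne (hb hq) (su hp) (sub_eq_zero.2 e') (sub_eq_zero.2 e)
      fun h' => by rw [deriv_sub_const, hd h']
    rw [w, one p hp' e, one q hq e'] at this
    norm_num at this
  refine ⟨p, ⟨hp'.1, fun h' => h'.elim (fun h1 => ?_) hp'.2⟩, e, fun hd => two p hp' e fun _ => hd,
    fun q hq e' => by_contra fun hn => two q hq e' fun h' => absurd h' hn⟩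
  have := a p h1
  rw [xi, e] at this
  exact lt_irrefl _ this

end Pool.Agent.Lib.MP_7ed551_gt.Cy
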