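import Pool.Agent.Lib.MP_7ed551_gt.Cy.N.Defs

/-! Stokes' formula and the algebra of winding numbers. -/

open scoped ContDiff Topology
open Set Filter Metric MeasureTheory Real

noncomputable section

namespace Pool.Agent.Lib.MP_7ed551_gt.Cy

open Pool.Agent.Lib.MP_ccffa6_gt (Form1 dF pb px py JHol dens)

variable {χ χ' : ℂ → ℝ} {f g : ℂ → ℂ} {U V : Set ℂ}

theorem wn0_int {A : Type} [NormedRing A] {φ g : ℂ → A} {K : Set ℂ} (hφ : Continuous φ)
    (hc : IsCompact K) (hcl : IsClosed K) (h0 : ∀ ζ, ζ ∉ K → φ ζ = 0) (hU : IsOpen U) (hK : K ⊆ U)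
    (hg : ContinuousOn g U) : Integrable fun ζ => φ ζ * g ζ := by
  have z : ∀ ζ, ζ ∉ K → φ ζ * g ζ = 0 := fun ζ h => by rw [h0 ζ h, zero_mul]
  refine Continuous.integrable_of_hasCompactSupport ?_ (HasCompactSupport.intro hc z)
  refine (hφ.continuousOn.mul hg).continuous_of_tsupport_subset hU ?_
  exact (closure_minimal (Function.support_subset_iff'.2 z) hcl).trans hK

theorem wn0_ibp {φ G : ℂ → ℝ} (hφ : ContDiff ℝ 1 φ) (hc : HasCompactSupport φ) (hU : IsOpen U)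
    (hK : tsupport φ ⊆ U) (hG : ContDiffOn ℝ 1 G U) (v : ℂ) :
    (Integrable fun ζ => fderiv ℝ φ ζ v * G ζ) ∧ (Integrable fun ζ => φ ζ * fderiv ℝ G ζ v) ∧
      ∫ ζ, φ ζ * fderiv ℝ G ζ v = -∫ ζ, fderiv ℝ φ ζ v * G ζ := by
  have a : Integrable fun ζ => fderiv ℝ φ ζ v * G ζ :=
    wn0_int ((hφ.continuous_fderiv one_ne_zero).clm_apply continuous_const) hc
      (isClosed_tsupport _) (fun ζ h => by
        rw [image_eq_zero_of_notMem_tsupport fun m => h (tsupport_fderiv_subset ℝ m)]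
        rfl) hU hK hG.continuousOn
  have b : Integrable fun ζ => φ ζ * fderiv ℝ G ζ v :=
    wn0_int hφ.continuous hc (isClosed_tsupport _) (fun _ => image_eq_zero_of_notMem_tsupport) hU hK
      ((hG.continuousOn_fderiv_of_isOpen hU le_rfl).clm_apply continuousOn_const)
  exact ⟨a, b, integral_mul_fderiv_eq_neg_fderiv_mul_of_integrable a b
    (wn0_int hφ.continuous hc (isClosed_tsupport _) (fun _ => image_eq_zero_of_notMem_tsupport) hU
      hK hG.continuousOn) (fun x _ => hφ.differentiable one_ne_zero x) fun x hx =>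
      (hG.differentiableOn one_ne_zero x (hK hx)).differentiableAt (hU.mem_nhds (hK hx))⟩

theorem wn0_re {ζ : ℂ} (d : DifferentiableAt ℂ g ζ) (v : ℂ) :
    fderiv ℝ (fun ζ => (g ζ).re) ζ v = (deriv g ζ * v).re := by
  have e : HasFDerivAt (fun ζ => (g ζ).re) _ ζ :=
    Complex.reCLM.hasFDerivAt.comp ζ (d.hasDerivAt.hasFDerivAt.restrictScalars ℝ)
  rw [e.fderiv]
  simp [mul_comm]

theorem wn0_im {ζ : ℂ} (d : DifferentiableAt ℂ g ζ) (v : ℂ) :
    fderiv ℝ (fun ζ => (g ζ).im) ζ v = (deriv g ζ * v).im := by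
  have e : HasFDerivAt (fun ζ => (g ζ).im) _ ζ :=
    Complex.imCLM.hasFDerivAt.comp ζ (d.hasDerivAt.hasFDerivAt.restrictScalars ℝ)
  rw [e.fderiv]
  simp [mul_comm]

theorem Bmp.isCompact_kd (h : Bmp χ) : IsCompact (Kd χ) := by
  exact h.cpt.fderiv (𝕜 := ℝ)

theorem gr_eq_zero {ζ : ℂ} (h : ζ ∉ Kd χ) : gr χ ζ = 0 := by
  simp [gr, px, py, image_eq_zero_of_notMem_tsupport h]

theorem notMem_kd {ζ : ℂ} {c : ℝ} (h : χ =ᶠ[𝓝 ζ] fun _ => c) : ζ ∉ Kd χ := by
  refine notMem_tsupport_iff_eventuallyEq.2 ?_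
  filter_upwards [h.fderiv (𝕜 := ℝ)] with z hz
  simp [hz]

theorem kd_subset : Kd χ ⊆ tsupport χ := by
  exact tsupport_fderiv_subset ℝ

theorem Cut.kd (h : Cut V χ) : Kd χ ⊆ V := by
  intro ζ hζ
  by_contra hV
  rcases h.loc ζ hV with e | e <;> exact notMem_kd e hζ

theorem Bmp.continuous_gr (h : Bmp χ) : Continuous (gr χ) := by
  have c := h.sm.continuous_fderiv (by simp)
  unfold gr px py
  fun_prop

/- The product is continuous with support in the compact set `Kd χ`. -/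
theorem Bmp.integrable_gr (h : Bmp χ) (hU : IsOpen U) (hK : Kd χ ⊆ U) (hg : ContinuousOn g U) :
    Integrable fun ζ => gr χ ζ * g ζ := by
  exact wn0_int h.continuous_gr h.isCompact_kd (isClosed_tsupport _) (fun _ => gr_eq_zero) hU hK hg

/- Green's formula without boundary (`integral_mul_fderiv_eq_neg_fderiv_mul_of_integrable` or
`integral_bilinear_hasLineDerivAt_right_eq_neg_left_of_integrable`). -/
theorem green0 {P Q : ℂ → ℝ} (hP : ContDiff ℝ 1 P) (hQ : ContDiff ℝ 1 Q) (cP : HasCompactSupport P)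
    (cQ : HasCompactSupport Q) : ∫ ζ, (px Q ζ - py P ζ) = 0 := by
  have k : ∀ {R : ℂ → ℝ}, ContDiff ℝ 1 R → HasCompactSupport R → ∀ v : ℂ,
      Integrable (fun ζ => fderiv ℝ R ζ v) ∧ ∫ ζ, fderiv ℝ R ζ v = 0 := fun {R} hR cR v => by
    obtain ⟨a, -, b⟩ := wn0_ibp hR cR isOpen_univ (subset_univ _)
      (contDiffOn_const (c := (1 : ℝ))) v
    simp only [mul_one, fderiv_fun_const, Pi.zero_apply, zero_apply, mul_zero,
      integral_zero] at a b
    exact ⟨a, by linarith⟩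
  simp only [px, py]
  rw [integral_sub (k hQ cQ 1).1 (k hP cP _).1, (k hQ cQ 1).2, (k hP cP _).2, sub_zero]

/- `green0` for `P = G χ_x`, `Q = G χ_y`, both smooth on the plane. -/
theorem jac_zero (h : Bmp χ) (hU : IsOpen U) (hK : Kd χ ⊆ U) {G : ℂ → ℝ}
    (hG : ContDiffOn ℝ ∞ G U) : ∫ ζ, (px χ ζ * py G ζ - py χ ζ * px G ζ) = 0 := by
  have k : ∀ v w : ℂ, Integrable (fun ζ => fderiv ℝ χ ζ v * fderiv ℝ G ζ w) ∧
      ∫ ζ, fderiv ℝ χ ζ v * fderiv ℝ G ζ w = -∫ ζ, fderiv ℝ (fderiv ℝ χ) ζ w v * G ζ := by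
    intro v w
    have d : ContDiff ℝ 1 (fderiv ℝ χ) := h.sm.fderiv_right (m := 1) (by norm_cast)
    obtain ⟨-, a, b⟩ := wn0_ibp (φ := fun ζ => fderiv ℝ χ ζ v) (d.clm_apply contDiff_const)
      (h.cpt.fderiv_apply (𝕜 := ℝ) v) hU
      ((closure_mono (Function.support_subset_iff'.2 fun z hz => by
        rw [Function.notMem_support.1 hz]; rfl)).trans hK) (hG.of_le (by simp)) w
    refine ⟨a, b.trans ?_⟩
    congr 2
    funext ζ
    rw [fderiv_clm_apply (d.differentiable one_ne_zero ζ) (differentiableAt_const v)]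
    simp
  have s : ∀ ζ, fderiv ℝ (fderiv ℝ χ) ζ Complex.I 1 = fderiv ℝ (fderiv ℝ χ) ζ 1 Complex.I :=
    fun ζ => (h.sm.contDiffAt.isSymmSndFDerivAt (by simp; norm_cast)).eq _ _
  simp only [px, py]
  rw [integral_sub (k _ _).1 (k _ _).1, (k _ _).2, (k _ _).2]
  simp only [s, sub_self]

/- `green0` for `χ (P dx + Q dy)`. -/
theorem green_cut (h : Bmp χ) (hU : IsOpen U) (hK : tsupport χ ⊆ U) {P Q : ℂ → ℝ}
    (hP : ContDiffOn ℝ 1 P U) (hQ : ContDiffOn ℝ 1 Q U) :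
    ∫ ζ, χ ζ * (px Q ζ - py P ζ) = -∫ ζ, (px χ ζ * Q ζ - py χ ζ * P ζ) := by
  obtain ⟨a1, a2, a3⟩ := wn0_ibp (h.sm.of_le (by simp)) h.cpt hU hK hQ 1
  obtain ⟨b1, b2, b3⟩ := wn0_ibp (h.sm.of_le (by simp)) h.cpt hU hK hP Complex.I
  simp only [px, py, mul_sub]
  rw [integral_sub a2 b2, integral_sub a1 b1, a3, b3]
  ring

/- `(gr χ * g).re = χ_x Q - χ_y P` with `Q = re g`, `P = im g`, a closed form. -/
theorem int_gr_hol (h : Bmp χ) (hU : IsOpen U) (hK : tsupport χ ⊆ U)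
    (hg : DifferentiableOn ℂ g U) : ∫ ζ, (gr χ ζ * g ζ).re = 0 := by
  have c : ContDiffOn ℝ 1 g U := (hg.contDiffOn hU).restrict_scalars ℝ
  have e := green_cut h hU hK (P := fun ζ => (g ζ).im) (Q := fun ζ => (g ζ).re)
    (Complex.imCLM.contDiff.comp_contDiffOn c) (Complex.reCLM.contDiff.comp_contDiffOn c)
  have z : ∀ ζ, χ ζ * (px (fun ζ => (g ζ).re) ζ - py (fun ζ => (g ζ).im) ζ) = 0 := fun ζ => by
    by_cases hζ : ζ ∈ U
    · have d := (hg ζ hζ).differentiableAt (hU.mem_nhds hζ)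
      simp [px, py, wn0_re d, wn0_im d]
    · simp [image_eq_zero_of_notMem_tsupport fun m => hζ (hK m)]
  simp only [z, integral_zero] at e
  rw [← neg_eq_zero, e]
  simp [gr]

/- `jac_zero` for `G = im L`. -/
theorem int_gr_deriv (h : Bmp χ) (hU : IsOpen U) (hK : Kd χ ⊆ U) {L : ℂ → ℂ}
    (hL : DifferentiableOn ℂ L U) : ∫ ζ, (gr χ ζ * deriv L ζ).re = 0 := by
  have c : ContDiffOn ℝ ∞ L U := (hL.contDiffOn hU).restrict_scalars ℝ
  rw [← jac_zero h hU hK (G := fun ζ => (L ζ).im) (Complex.imCLM.contDiff.comp_contDiffOn c)]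
  congr 1
  funext ζ
  by_cases hζ : ζ ∈ U
  · have d := (hL ζ hζ).differentiableAt (hU.mem_nhds hζ)
    simp [gr, px, py, wn0_im d]
  · simp [gr, px, py, image_eq_zero_of_notMem_tsupport fun m => hζ (hK m)]

end Pool.Agent.Lib.MP_7ed551_gt.Cy
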