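import Pool.Agent.Lib.MP_7ed551_gt.Cy.N.Wn0

/-! The algebra of winding numbers. -/

open scoped ContDiff Topology
open Set Filter Metric MeasureTheory Real

noncomputable section

namespace Pool.Agent.Lib.MP_7ed551_gt.Cy

open Pool.Agent.Lib.MP_ccffa6_gt (Form1 dF pb px py JHol dens)

variable {χ χ' : ℂ → ℝ} {f g : ℂ → ℂ} {U V : Set ℂ}

theorem HolN.mono (h : HolN U f) (hV : IsOpen V) (hs : V ⊆ U) : HolN V f :=
  ⟨hV, h.hol.mono hs, fun ζ hζ => h.ne ζ (hs hζ)⟩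

theorem HolN.mul (h : HolN U f) (h' : HolN U g) : HolN U fun ζ => f ζ * g ζ :=
  ⟨h.op, h.hol.mul h'.hol, fun ζ hζ => mul_ne_zero (h.ne ζ hζ) (h'.ne ζ hζ)⟩

theorem HolN.zpow (h : HolN U f) (n : ℤ) : HolN U fun ζ => f ζ ^ n :=
  ⟨h.op, h.hol.zpow (Or.inl h.ne), fun ζ hζ => zpow_ne_zero n (h.ne ζ hζ)⟩

theorem HolN.logd (h : HolN U f) : DifferentiableOn ℂ (fun ζ => deriv f ζ / f ζ) U :=
  (h.hol.deriv h.op).div h.hol h.ne

theorem HolN.contDiffOn_xi (h : HolN U f) : ContDiffOn ℝ ∞ (xi f) U :=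
  have k : ContDiffOn ℝ ∞ f U := (h.hol.contDiffOn h.op).restrict_scalars ℝ
  (k.norm ℝ h.ne).log fun ζ hζ => norm_ne_zero_iff.2 (h.ne ζ hζ)

theorem HolN.fderiv_xi (h : HolN U f) {ζ : ℂ} (hζ : ζ ∈ U) (v : ℂ) :
    fderiv ℝ (xi f) ζ v = (deriv f ζ / f ζ * v).re := by
  have d := ((h.hol.differentiableAt (h.op.mem_nhds hζ)).hasDerivAt.hasFDerivAt.restrictScalars
    ℝ).norm_sq.log (pow_ne_zero 2 (norm_ne_zero_iff.2 (h.ne ζ hζ)))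
  have e : xi f = fun w => (1 / 2 : ℝ) * Real.log (‖f w‖ ^ 2) := funext fun w => by
    rw [xi, Real.log_pow]
    push_cast
    ring
  rw [e, (d.const_mul _).fderiv, div_mul_eq_mul_div, Complex.div_re, ← Complex.normSq_eq_norm_sq]
  simp [Complex.inner]
  ring

theorem xi_mul_zpow (h : HolN U f) (h' : HolN U g) (m n : ℤ) {ζ : ℂ} (hζ : ζ ∈ U) :
    xi (fun ζ => f ζ ^ m * g ζ ^ n) ζ = m * xi f ζ + n * xi g ζ := by
  have a := norm_ne_zero_iff.2 (h.ne ζ hζ)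
  have b := norm_ne_zero_iff.2 (h'.ne ζ hζ)
  simp only [xi]
  rw [norm_mul, norm_zpow, norm_zpow, Real.log_mul (zpow_ne_zero m a) (zpow_ne_zero n b),
    Real.log_zpow, Real.log_zpow]

theorem wn1_eq (hK : Kd χ ⊆ U) {q : ℂ → ℂ} (he : ∀ ζ ∈ U, deriv f ζ / f ζ = q ζ) :
    wn χ f = -(2 * π)⁻¹ * ∫ ζ, (gr χ ζ * q ζ).re := by
  refine congrArg _ (integral_congr_ae (Eventually.of_forall fun ζ => ?_))
  by_cases hζ : ζ ∈ Kd χ
  · simp only [he ζ (hK hζ)]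
  · simp only [gr_eq_zero hζ, zero_mul]

theorem wn1_int (h : Bmp χ) (hf : HolN U f) (hK : Kd χ ⊆ U) :
    Integrable fun ζ => (gr χ ζ * (deriv f ζ / f ζ)).re :=
  (h.integrable_gr hf.op hK hf.logd.continuousOn).re

theorem wn_congr (hU : IsOpen U) (hK : Kd χ ⊆ U) (he : EqOn f g U) : wn χ f = wn χ g :=
  wn1_eq hK fun ζ hζ => by rw [(he.eventuallyEq_of_mem (hU.mem_nhds hζ)).deriv_eq, he hζ]

theorem wn_zero (h : Bmp χ) (hf : HolN U f) (hK : tsupport χ ⊆ U) : wn χ f = 0 := by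
  rw [wn, int_gr_hol h hf.op hK hf.logd, mul_zero]

theorem wn_exp (h : Bmp χ) (hU : IsOpen U) (hK : Kd χ ⊆ U) {L : ℂ → ℂ}
    (hL : DifferentiableOn ℂ L U) (he : ∀ ζ ∈ U, f ζ = Complex.exp (L ζ)) : wn χ f = 0 := by
  rw [wn_congr hU hK he, wn1_eq hK (q := deriv L) fun ζ hζ => ?_, int_gr_deriv h hU hK hL, mul_zero]
  rw [(hL.differentiableAt (hU.mem_nhds hζ)).hasDerivAt.cexp.deriv,
    mul_div_cancel_left₀ _ (Complex.exp_ne_zero _)]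

theorem wn_mul (h : Bmp χ) (hf : HolN U f) (hg : HolN U g) (hK : Kd χ ⊆ U) :
    wn χ (fun ζ => f ζ * g ζ) = wn χ f + wn χ g := by
  rw [wn1_eq hK (q := fun ζ => deriv f ζ / f ζ + deriv g ζ / g ζ) fun ζ hζ =>
    logDeriv_mul ζ (hf.ne ζ hζ) (hg.ne ζ hζ) (hf.hol.differentiableAt (hf.op.mem_nhds hζ))
      (hg.hol.differentiableAt (hf.op.mem_nhds hζ)), wn, wn, ← mul_add,
    ← integral_add (wn1_int h hf hK) (wn1_int h hg hK)]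
  simp only [mul_add, Complex.add_re]

theorem wn_zpow (hf : HolN U f) (hK : Kd χ ⊆ U) (n : ℤ) :
    wn χ (fun ζ => f ζ ^ n) = n * wn χ f := by
  rw [wn1_eq hK (q := fun ζ => n * (deriv f ζ / f ζ)) fun ζ hζ =>
    logDeriv_fun_zpow (hf.hol.differentiableAt (hf.op.mem_nhds hζ)) n, wn, mul_left_comm,
    ← integral_const_mul (n : ℝ)]
  simp only [mul_left_comm _ (n : ℂ)]
  simp only [← Complex.ofReal_intCast, Complex.re_ofReal_mul]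

theorem Bmp.sub (h : Bmp χ) (h' : Bmp χ') : Bmp fun ζ => χ ζ - χ' ζ :=
  ⟨h.sm.sub h'.sm, h.cpt.sub h'.cpt⟩

theorem wn1_fd (h : Bmp χ) (h' : Bmp χ') (ζ : ℂ) :
    fderiv ℝ (fun ζ => χ ζ - χ' ζ) ζ = fderiv ℝ χ ζ - fderiv ℝ χ' ζ :=
  fderiv_fun_sub (h.sm.differentiable (by simp) ζ) (h'.sm.differentiable (by simp) ζ)

theorem kd_sub (h : Bmp χ) (h' : Bmp χ') : Kd (fun ζ => χ ζ - χ' ζ) ⊆ Kd χ ∪ Kd χ' := by
  rw [Kd, funext (wn1_fd h h')]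
  exact tsupport_sub _ _

theorem wn_sub (h : Bmp χ) (h' : Bmp χ') (hf : HolN U f) (hK : Kd χ ⊆ U) (hK' : Kd χ' ⊆ U) :
    wn (fun ζ => χ ζ - χ' ζ) f = wn χ f - wn χ' f := by
  rw [wn, wn, wn, ← mul_sub, ← integral_sub (wn1_int h hf hK) (wn1_int h' hf hK')]
  refine congrArg _ (integral_congr_ae (Eventually.of_forall fun ζ => ?_))
  simp only [← Complex.sub_re, ← sub_mul, gr, px, py, wn1_fd h h']
  simp only [_root_.sub_apply, Complex.ofReal_sub]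
  ring_nf

theorem wn1_one (h : Bmp χ) (hU : IsOpen U) (hg : DifferentiableOn ℂ g U) (hK : Kd χ ⊆ U)
    (hy : ∀ ζ ∈ U, ‖g ζ‖ < 1) : HolN U (fun ζ => 1 - g ζ) ∧ wn χ (fun ζ => 1 - g ζ) = 0 :=
  have k : ∀ ζ ∈ U, 1 - g ζ ∈ Complex.slitPlane := fun ζ hζ =>
    sub_eq_add_neg 1 (g ζ) ▸ Complex.mem_slitPlane_of_norm_lt_one (by simpa using hy ζ hζ)
  ⟨⟨hU, hg.const_sub 1, fun ζ hζ => Complex.slitPlane_ne_zero (k ζ hζ)⟩,
    wn_exp h hU hK ((hg.const_sub 1).clog k) fun ζ hζ =>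
      (Complex.exp_log (Complex.slitPlane_ne_zero (k ζ hζ))).symm⟩

/- `f - y = f * exp (log (1 - y / f))` on the open set where `‖y‖ < ‖f‖`. -/
theorem wn_out (h : Bmp χ) (hf : HolN U f) (hK : Kd χ ⊆ U) {y : ℂ}
    (hy : ∀ ζ ∈ Kd χ, ‖y‖ < ‖f ζ‖) : wn χ (fun ζ => f ζ - y) = wn χ f := by
  have hV : IsOpen (U ∩ f ⁻¹' {w | ‖y‖ < ‖w‖}) := hf.hol.continuousOn.isOpen_inter_preimage hf.op
    (isOpen_lt continuous_const continuous_norm)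
  have hK' : Kd χ ⊆ U ∩ f ⁻¹' {w | ‖y‖ < ‖w‖} := fun ζ hζ => ⟨hK hζ, hy ζ hζ⟩
  have hf' := hf.mono hV inter_subset_left
  obtain ⟨a, b⟩ := wn1_one h hV ((differentiableOn_const y).div hf'.hol hf'.ne) hK' fun ζ hζ => by
    rw [Pi.div_apply, norm_div]
    exact (div_lt_one ((norm_nonneg _).trans_lt hζ.2)).2 hζ.2
  rw [← add_zero (wn χ f), ← b, ← wn_mul h hf' a hK']
  exact wn_congr hV hK' fun ζ hζ => by
    simp only [Pi.div_apply, mul_sub, mul_one, mul_div_cancel₀ _ (hf'.ne ζ hζ)]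

theorem wn_in (h : Bmp χ) (hU : IsOpen U) (hf : DifferentiableOn ℂ f U) (hK : Kd χ ⊆ U) {y : ℂ}
    (hy : ∀ ζ ∈ Kd χ, ‖f ζ‖ < ‖y‖) : wn χ (fun ζ => f ζ - y) = 0 := by
  have hV : IsOpen (U ∩ f ⁻¹' {w | ‖w‖ < ‖y‖}) := hf.continuousOn.isOpen_inter_preimage hU
    (isOpen_lt continuous_norm continuous_const)
  have hK' : Kd χ ⊆ U ∩ f ⁻¹' {w | ‖w‖ < ‖y‖} := fun ζ hζ => ⟨hK hζ, hy ζ hζ⟩
  have y0 : ∀ ζ ∈ U ∩ f ⁻¹' {w | ‖w‖ < ‖y‖}, y ≠ 0 := fun ζ hζ =>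
    norm_pos_iff.1 ((norm_nonneg _).trans_lt hζ.2)
  obtain ⟨a, b⟩ := wn1_one h hV ((hf.mono inter_subset_left).div_const y) hK' fun ζ hζ => by
    rw [norm_div]
    exact (div_lt_one ((norm_nonneg _).trans_lt hζ.2)).2 hζ.2
  have c : HolN (U ∩ f ⁻¹' {w | ‖w‖ < ‖y‖}) fun _ => -y :=
    ⟨hV, differentiableOn_const _, fun ζ hζ => neg_ne_zero.2 (y0 ζ hζ)⟩
  have d := wn_mul h c a hK'
  rw [b, add_zero, show wn χ (fun _ => -y) = 0 by simp [wn]] at d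
  refine (wn_congr hV hK' fun ζ hζ => ?_).trans d
  simp only [mul_sub, mul_one, neg_mul, mul_div_cancel₀ _ (y0 ζ hζ)]
  ring

end Pool.Agent.Lib.MP_7ed551_gt.Cy
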