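import Pool.Agent.Lib.MP_7ed551_gt.Cy.N.Wn1
import Pool.Agent.Lib.MP_7ed551_gt.Cy.B.CT

/-! Positivity: the argument principle as an inequality. -/

open scoped ContDiff Topology
open Set Filter Metric MeasureTheory Real

noncomputable section

namespace Pool.Agent.Lib.MP_7ed551_gt.Cy

open Pool.Agent.Lib.MP_ccffa6_gt (Form1 dF pb px py JHol dens)

variable {χ : ℂ → ℝ} {f g : ℂ → ℂ} {U : Set ℂ}

theorem wn2_loc : LocallyIntegrable fun w : ℂ => ((π : ℂ) * w)⁻¹ := by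
  refine locallyIntegrable_of_norm_le_rpow (C := π⁻¹) (α := 1) (by simp) (by simp)
    (Eventually.of_forall fun w => ?_) (Measurable.aestronglyMeasurable (by fun_prop))
  rw [norm_inv, norm_mul, Complex.norm_real, Real.norm_of_nonneg pi_pos.le, mul_inv,
    Real.rpow_neg_one]

theorem wn2_real (h : Bmp χ) (z : ℂ) : dbar (fun ζ => (χ ζ : ℂ)) z = gr χ z / 2 := by
  have := (Complex.ofRealCLM.hasFDerivAt.comp z
    ((h.sm.differentiable (by simp)) z).hasFDerivAt).fderiv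
  simp only [dbar, gr, px, py]
  rw [show (fun ζ => (χ ζ : ℂ)) = Complex.ofRealCLM ∘ χ from rfl, this]
  rfl

theorem wn_lin (h : Bmp χ) (q : ℂ) : wn χ (fun ζ => ζ - q) = χ q := by
  have c1 : ContDiff ℝ 1 fun ζ => (χ ζ : ℂ) :=
    Complex.ofRealCLM.contDiff.comp (h.sm.of_le (by simp))
  have c2 : HasCompactSupport fun ζ => (χ ζ : ℂ) := h.cpt.comp_left Complex.ofReal_zero
  have c3 : HasCompactSupport (gr χ) :=
    HasCompactSupport.intro h.isCompact_kd fun _ hz => gr_eq_zero hz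
  have e := congrArg Complex.re (cT_dbar c1 c2 q)
  have i1 : Integrable fun w : ℂ => ((π : ℂ) * w)⁻¹ • (gr χ (q - w) / 2) :=
    wn2_loc.integrable_smul_right_of_hasCompactSupport
      ((h.continuous_gr.comp (continuous_const.sub continuous_id)).div_const 2)
      ((c3.comp_homeomorph (Homeomorph.subLeft q)).comp_left (g := fun z => z / 2) (zero_div 2))
  simp only [cT, wn2_real h, Complex.ofReal_re] at e
  refine Eq.trans ?_ ((integral_re i1).trans e)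
  rw [wn, ← integral_sub_left_eq_self _ volume q, ← integral_const_mul]
  refine integral_congr_ae (Eventually.of_forall fun w => ?_)
  have : ((π : ℂ) * w)⁻¹ • (gr χ (q - w) / 2) =
      ((-(2 * π)⁻¹ : ℝ) : ℂ) * (gr χ (q - w) * (1 / (q - w - q))) := by
    rw [show q - w - q = -w by ring]
    push_cast
    rw [smul_eq_mul, one_div, inv_neg, mul_inv, mul_inv]
    ring
  simp only [deriv_sub_const, deriv_id'', this, RCLike.re_to_complex, Complex.re_ofReal_mul]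

theorem wn2_mul {z : ℂ} (hf : DifferentiableAt ℝ f z) (hg : DifferentiableAt ℝ g z) :
    dbar (fun ζ => f ζ * g ζ) z = f z * dbar g z + g z * dbar f z := by
  simp only [dbar, px, py, fderiv_fun_mul hf hg, add_apply, smul_apply, smul_eq_mul]
  ring

theorem wn2_add {z : ℂ} (hf : DifferentiableAt ℝ f z) (hg : DifferentiableAt ℝ g z) :
    dbar (fun ζ => f ζ + g ζ) z = dbar f z + dbar g z := by
  simp only [dbar, px, py, fderiv_fun_add hf hg, add_apply]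
  ring

theorem wn2_conj {z : ℂ} (hf : DifferentiableAt ℂ f z) :
    DifferentiableAt ℝ (fun ζ => (starRingEnd ℂ) (f ζ)) z ∧
      dbar (fun ζ => (starRingEnd ℂ) (f ζ)) z = (starRingEnd ℂ) (deriv f z) := by
  have := Complex.conjCLE.toContinuousLinearMap.hasFDerivAt.comp z
    hf.hasDerivAt.complexToReal_fderiv
  refine ⟨this.differentiableAt, ?_⟩
  simp only [dbar, px, py]
  rw [show (fun ζ => (starRingEnd ℂ) (f ζ)) = Complex.conjCLE.toContinuousLinearMap ∘ f from rfl,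
    this.fderiv]
  simp
  linear_combination (-(starRingEnd ℂ) (deriv f z) / 2) * Complex.I_mul_I

theorem wn2_term {z : ℂ} {k : ℂ → ℂ} (hk : DifferentiableAt ℂ k z)
    (hf : DifferentiableAt ℂ f z) :
    DifferentiableAt ℝ (fun ζ => k ζ * (starRingEnd ℂ) (f ζ)) z ∧
      dbar (fun ζ => k ζ * (starRingEnd ℂ) (f ζ)) z = k z * (starRingEnd ℂ) (deriv f z) := by
  refine ⟨(hk.restrictScalars ℝ).mul (wn2_conj hf).1, ?_⟩
  rw [wn2_mul (hk.restrictScalars ℝ) (wn2_conj hf).1, (wn2_conj hf).2,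
    dbar_of_differentiableAt hk, mul_zero, add_zero]

theorem wn2_re {z : ℂ} (hf : DifferentiableAt ℝ f z) :
    px (fun ζ => (f ζ).re) z - py (fun ζ => (f ζ).im) z = 2 * (dbar f z).re := by
  have h1 := (Complex.reCLM.hasFDerivAt.comp z hf.hasFDerivAt).fderiv
  have h2 := (Complex.imCLM.hasFDerivAt.comp z hf.hasFDerivAt).fderiv
  simp only [dbar, px, py]
  rw [show (fun ζ => (f ζ).re) = Complex.reCLM ∘ f from rfl,
    show (fun ζ => (f ζ).im) = Complex.imCLM ∘ f from rfl, h1, h2]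
  simp
  ring

theorem wn2_alg (a b c d D : ℂ) {η : ℝ} (hη : 0 < η)
    (h : (c * (starRingEnd ℂ) a + d * (starRingEnd ℂ) b) / ((‖a‖ ^ 2 + ‖b‖ ^ 2 + η : ℝ) : ℂ) *
      (a * (starRingEnd ℂ) c + b * (starRingEnd ℂ) d) + ((‖a‖ ^ 2 + ‖b‖ ^ 2 + η : ℝ) : ℂ) * D =
      c * (starRingEnd ℂ) c + d * (starRingEnd ℂ) d) : 0 ≤ D.re := by
  obtain ⟨n, hn⟩ : ∃ n, n = ‖a‖ ^ 2 + ‖b‖ ^ 2 + η := ⟨_, rfl⟩
  obtain ⟨A, hA⟩ : ∃ A, A = c * (starRingEnd ℂ) a + d * (starRingEnd ℂ) b := ⟨_, rfl⟩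
  have n0 : 0 < n := by rw [hn]; positivity
  have e : a * (starRingEnd ℂ) c + b * (starRingEnd ℂ) d = (starRingEnd ℂ) A := by
    rw [hA]; simp [mul_comm]
  have b1 : ‖A‖ ≤ ‖c‖ * ‖a‖ + ‖d‖ * ‖b‖ := by
    rw [hA]
    exact (norm_add_le _ _).trans (by simp)
  have b2 : ‖A‖ ^ 2 ≤ (‖c‖ ^ 2 + ‖d‖ ^ 2) * n := by
    have := pow_le_pow_left₀ (norm_nonneg _) b1 2
    rw [hn]
    nlinarith [sq_nonneg (‖c‖ * ‖b‖ - ‖d‖ * ‖a‖), mul_nonneg (sq_nonneg ‖c‖) hη.le,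
      mul_nonneg (sq_nonneg ‖d‖) hη.le]
  rw [← hn, ← hA, e, div_mul_eq_mul_div, Complex.mul_conj', Complex.mul_conj',
    Complex.mul_conj'] at h
  have h' : n * D.re = ‖c‖ ^ 2 + ‖d‖ ^ 2 - ‖A‖ ^ 2 / n := by
    rw [← Complex.re_ofReal_mul, eq_sub_of_add_eq' h]
    norm_cast
  have := (div_le_iff₀ n0).2 b2
  exact nonneg_of_mul_nonneg_right (by linarith) n0

theorem wn2_eta (h : Bmp χ) (h0 : ∀ ζ, 0 ≤ χ ζ) (hU : IsOpen U) (hK : tsupport χ ⊆ U)
    (hf : DifferentiableOn ℂ f U) (hg : DifferentiableOn ℂ g U) {η : ℝ} (hη : 0 < η)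
    {w : ℂ → ℂ} (hw : w = fun ζ => (deriv f ζ * (starRingEnd ℂ) (f ζ) +
      deriv g ζ * (starRingEnd ℂ) (g ζ)) / ((‖f ζ‖ ^ 2 + ‖g ζ‖ ^ 2 + η : ℝ) : ℂ)) :
    ContinuousOn w U ∧ ∫ ζ, (gr χ ζ * w ζ).re ≤ 0 := by
  have sm : ∀ {k : ℂ → ℂ}, DifferentiableOn ℂ k U → ContDiffOn ℝ 1 k U := fun hk =>
    (hk.contDiffOn hU).restrict_scalars ℝ
  have cj : ∀ {k : ℂ → ℂ}, DifferentiableOn ℂ k U →
      ContDiffOn ℝ 1 (fun ζ => (starRingEnd ℂ) (k ζ)) U := fun hk =>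
    Complex.conjCLE.contDiff.comp_contDiffOn (sm hk)
  have hn : ∀ ζ, ((‖f ζ‖ ^ 2 + ‖g ζ‖ ^ 2 + η : ℝ) : ℂ) =
      f ζ * (starRingEnd ℂ) (f ζ) + g ζ * (starRingEnd ℂ) (g ζ) + η := fun ζ => by
    rw [Complex.mul_conj', Complex.mul_conj']
    push_cast
    rfl
  have n0 : ∀ ζ, ((‖f ζ‖ ^ 2 + ‖g ζ‖ ^ 2 + η : ℝ) : ℂ) ≠ 0 := fun ζ =>
    Complex.ofReal_ne_zero.2 (by positivity)
  have cn : ContDiffOn ℝ 1 (fun ζ => ((‖f ζ‖ ^ 2 + ‖g ζ‖ ^ 2 + η : ℝ) : ℂ)) U := by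
    simp only [hn]
    exact (((sm hf).mul (cj hf)).add ((sm hg).mul (cj hg))).add contDiffOn_const
  have cw : ContDiffOn ℝ 1 w U := by
    simp only [hw, div_eq_mul_inv]
    exact (((sm (hf.deriv hU)).mul (cj hf)).add ((sm (hg.deriv hU)).mul (cj hg))).mul
      (cn.inv fun ζ _ => n0 ζ)
  refine ⟨cw.continuousOn, ?_⟩
  have gc := green_cut h hU hK (Complex.imCLM.contDiff.comp_contDiffOn cw)
    (Complex.reCLM.contDiff.comp_contDiffOn cw)
  have e : ∀ ζ, (gr χ ζ * w ζ).re = px χ ζ * (w ζ).re - py χ ζ * (w ζ).im := fun ζ => by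
    simp [gr]
  simp only [e]
  refine neg_nonneg.1 (le_of_le_of_eq (integral_nonneg fun z => ?_) gc)
  by_cases hz : z ∈ U
  swap
  · simp [image_eq_zero_of_notMem_tsupport fun h' => hz (hK h')]
  have m := hU.mem_nhds hz
  have dw := (cw.differentiableOn one_ne_zero).differentiableAt m
  have f0 := hf.differentiableAt m
  have g0 := hg.differentiableAt m
  have f1 := wn2_term ((hf.deriv hU).differentiableAt m) f0
  have g1 := wn2_term ((hg.deriv hU).differentiableAt m) g0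
  have f2 := wn2_term f0 f0
  have g2 := wn2_term g0 g0
  have k := wn2_mul dw ((cn.differentiableOn one_ne_zero).differentiableAt m)
  have k1 : (fun ζ => w ζ * ((‖f ζ‖ ^ 2 + ‖g ζ‖ ^ 2 + η : ℝ) : ℂ)) = fun ζ =>
      deriv f ζ * (starRingEnd ℂ) (f ζ) + deriv g ζ * (starRingEnd ℂ) (g ζ) :=
    funext fun ζ => by rw [hw, div_mul_cancel₀ _ (n0 ζ)]
  have k2 : dbar (fun ζ => ((‖f ζ‖ ^ 2 + ‖g ζ‖ ^ 2 + η : ℝ) : ℂ)) z =
      f z * (starRingEnd ℂ) (deriv f z) + g z * (starRingEnd ℂ) (deriv g z) := by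
    simp only [hn]
    rw [wn2_add (f2.1.fun_add g2.1) (differentiableAt_const _), wn2_add f2.1 g2.1, f2.2, g2.2,
      dbar_of_differentiableAt (differentiableAt_const _), add_zero]
  rw [k1, k2, wn2_add f1.1 g1.1, f1.2, g1.2] at k
  have := wn2_alg (f z) (g z) (deriv f z) (deriv g z) (dbar w z) hη (by rw [k, hw])
  exact mul_nonneg (h0 z) (le_of_le_of_eq (by linarith) (wn2_re dw).symm)

theorem ap_vec (h : Bmp χ) (h0 : ∀ ζ, 0 ≤ χ ζ) (hU : IsOpen U) (hK : tsupport χ ⊆ U)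
    (hf : DifferentiableOn ℂ f U) (hg : DifferentiableOn ℂ g U)
    (hn : ∀ ζ ∈ Kd χ, f ζ ≠ 0 ∨ g ζ ≠ 0) :
    ∫ ζ, (gr χ ζ * ((deriv f ζ * (starRingEnd ℂ) (f ζ) + deriv g ζ * (starRingEnd ℂ) (g ζ)) /
      ((‖f ζ‖ ^ 2 + ‖g ζ‖ ^ 2 : ℝ) : ℂ))).re ≤ 0 := by
  obtain ⟨A, hA⟩ : ∃ A : ℂ → ℂ, A = fun ζ =>
    deriv f ζ * (starRingEnd ℂ) (f ζ) + deriv g ζ * (starRingEnd ℂ) (g ζ) := ⟨_, rfl⟩
  obtain ⟨n, hn'⟩ : ∃ n : ℂ → ℝ, n = fun ζ => ‖f ζ‖ ^ 2 + ‖g ζ‖ ^ 2 := ⟨_, rfl⟩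
  have E : ∀ η : ℝ, 0 < η → ContinuousOn (fun ζ => A ζ / ((n ζ + η : ℝ) : ℂ)) U ∧
      ∫ ζ, (gr χ ζ * (A ζ / ((n ζ + η : ℝ) : ℂ))).re ≤ 0 := fun η hη => by
    rw [hA, hn']
    exact wn2_eta h h0 hU hK hf hg hη rfl
  have cn : ContinuousOn n U := by
    rw [hn']
    exact (hf.continuousOn.norm.pow 2).add (hg.continuousOn.norm.pow 2)
  have cA : ContinuousOn A U := by
    rw [hA]
    exact ((hf.deriv hU).continuousOn.mul (Complex.continuous_conj.comp_continuousOn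
      hf.continuousOn)).add ((hg.deriv hU).continuousOn.mul
        (Complex.continuous_conj.comp_continuousOn hg.continuousOn))
  have np : ∀ ζ ∈ Kd χ, 0 < n ζ := fun ζ hζ => by
    rw [hn']
    rcases hn ζ hζ with h1 | h1 <;> positivity
  have hK' : Kd χ ⊆ U := kd_subset.trans hK
  have I0 : Integrable fun ζ => gr χ ζ * (A ζ / (n ζ : ℂ)) :=
    h.integrable_gr (cn.isOpen_inter_preimage hU isOpen_Ioi) (fun ζ hζ => ⟨hK' hζ, np ζ hζ⟩)
      ((cA.mono inter_subset_left).div (Complex.continuous_ofReal.comp_continuousOn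
        (cn.mono inter_subset_left)) fun ζ hζ => Complex.ofReal_ne_zero.2 (ne_of_gt hζ.2))
  have T := tendsto_integral_filter_of_dominated_convergence (l := 𝓝[>] (0 : ℝ)) (μ := volume)
    (F := fun η ζ => (gr χ ζ * (A ζ / ((n ζ + η : ℝ) : ℂ))).re)
    (f := fun ζ => (gr χ ζ * (A ζ / (n ζ : ℂ))).re) _
    (eventually_mem_nhdsWithin.mono fun η hη =>
      (h.integrable_gr hU hK' (E η hη).1).re.aestronglyMeasurable)
    (eventually_mem_nhdsWithin.mono fun η hη => Eventually.of_forall fun ζ => ?_) I0.norm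
    (Eventually.of_forall fun ζ => ?_)
  · rw [hA, hn'] at T
    refine le_of_tendsto T (eventually_mem_nhdsWithin.mono fun η hη => ?_)
    have := (E η hη).2
    rwa [hA, hn'] at this
  · by_cases hζ : ζ ∈ Kd χ
    swap
    · simp [gr_eq_zero hζ]
    refine (Complex.abs_re_le_norm _).trans ?_
    have h1 := np ζ hζ
    have h2 : 0 < η := hη
    rw [norm_mul, norm_mul, norm_div, norm_div, Complex.norm_real, Complex.norm_real,
      Real.norm_of_nonneg h1.le, Real.norm_of_nonneg (by linarith)]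
    gcongr
    linarith
  · by_cases hζ : ζ ∈ Kd χ
    swap
    · simp [gr_eq_zero hζ]
    have : ContinuousAt (fun η : ℝ => (gr χ ζ * (A ζ / ((n ζ + η : ℝ) : ℂ))).re) 0 :=
      Complex.continuous_re.continuousAt.comp (continuousAt_const.mul (continuousAt_const.div
        (by fun_prop) (by simpa using (np ζ hζ).ne')))
    simpa using this.tendsto.mono_left nhdsWithin_le_nhds

end Pool.Agent.Lib.MP_7ed551_gt.Cy
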